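import Pool.Agent.H89LM.Tree

/-! The mean, the cuts and all definitions of the argument. -/

namespace Pool.Agent.H89LM
open Pool.Agent.MP_5bc3cb_al (ev ev_nil ev_cons ev_append ball ball_finite quot quot_append UA chi
  chi_of_mem chi_of_not chi_nonneg chi_le_one rep Live)

theorem Geo.d_pos {G : Type} [Group G] (Γ : Geo G) : 0 < Γ.d := by
  obtain ⟨i, -⟩ := Γ.rA_cover 1 Γ.H.one_mem
  exact Fin.pos i

/-- mean on the cone, a limit of the weights `d ^ (-n g) * exp (-ε * |w g|)` -/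
structure Mean {G : Type} [Group G] (Γ : Geo G) (U : UA G) where
  m : Set G → ℝ
  pos : ∀ {ι : Type} (s : Finset ι) (c : ι → ℝ) (E : ι → Set G),
    (∀ g, 0 ≤ ∑ i ∈ s, c i * chi (E i) g) → 0 ≤ ∑ i ∈ s, c i * m (E i)
  m_univ : m Set.univ = 1
  supp : m Γ.CAᶜ = 0
  qi : ∀ (E E' : Set G) (f : G), E ⊆ Γ.CA → E' ⊆ Γ.CA → (∀ g ∈ E, g * f ∈ E') →
    m E ≤ (Γ.d : ℝ) ^ (Γ.n f) * m E'
  inj : ∀ (E E' : Set G) (Φ : G → G) (c : ℕ), E ⊆ Γ.CA → E' ⊆ Γ.CA → Set.InjOn Φ E →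
    (∀ g ∈ E, Φ g ∈ E' ∧ Γ.n (Φ g) = Γ.n g ∧ (U.w (Φ g)).length ≤ (U.w g).length + c) →
    m E ≤ m E'
  swap : ∀ (E1 E2 E1' E2' : Set G) (Φ : G × G → G × G), E1 ⊆ Γ.CA → E2 ⊆ Γ.CA → E1' ⊆ Γ.CA →
    E2' ⊆ Γ.CA → Set.InjOn Φ (E1 ×ˢ E2) →
    (∀ x ∈ E1 ×ˢ E2, Φ x ∈ E1' ×ˢ E2' ∧ Γ.n (Φ x).1 + Γ.n (Φ x).2 = Γ.n x.1 + Γ.n x.2 ∧
      (U.w (Φ x).1).length + (U.w (Φ x).2).length = (U.w x.1).length + (U.w x.2).length) →
    m E1 * m E2 ≤ m E1' * m E2'

section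

open Filter

namespace Mean
variable {G : Type} [Group G] {Γ : Geo G} {U : UA G} (M : Mean Γ U)

theorem le2 {ι κ : Type} (s : Finset ι) (s' : Finset κ) (c : ι → ℝ) (E : ι → Set G)
    (c' : κ → ℝ) (E' : κ → Set G)
    (h : ∀ g, ∑ i ∈ s, c i * chi (E i) g ≤ ∑ i ∈ s', c' i * chi (E' i) g) :
    ∑ i ∈ s, c i * M.m (E i) ≤ ∑ i ∈ s', c' i * M.m (E' i) := by
  have := M.pos (s.disjSum s') (Sum.elim (fun i => -c i) c') (Sum.elim E E') fun g => by
    simpa [Finset.sum_disjSum] using h g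
  simpa [Finset.sum_disjSum] using this

theorem nonneg (E : Set G) : 0 ≤ M.m E := by
  simpa using M.pos {()} (fun _ => 1) (fun _ => E) fun g => by simpa using chi_nonneg E g

theorem cover_le {ι : Type} (s : Finset ι) (E : Set G) (E' : ι → Set G)
    (h : ∀ g ∈ E, ∃ i ∈ s, g ∈ E' i) : M.m E ≤ ∑ i ∈ s, M.m (E' i) := by
  simpa using M.le2 {()} s (fun _ => 1) (fun _ => E) (fun _ => 1) E' fun g => by
    simp only [Finset.sum_singleton, one_mul]
    by_cases hg : g ∈ E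
    · obtain ⟨i, hi, hgi⟩ := h g hg
      rw [chi_of_mem hg, ← chi_of_mem hgi]
      exact Finset.single_le_sum (f := fun i => chi (E' i) g) (fun _ _ => chi_nonneg _ _) hi
    · rw [chi_of_not hg]; exact Finset.sum_nonneg fun _ _ => chi_nonneg _ _

theorem mono {E E' : Set G} (h : E ⊆ E') : M.m E ≤ M.m E' := by
  simpa using M.cover_le {()} E (fun _ => E') fun g hg => ⟨(), by simp, h hg⟩

theorem m_empty : M.m ∅ = 0 :=
  le_antisymm (by simpa using M.cover_le (∅ : Finset Unit) ∅ (fun _ => ∅) (by simp)) (M.nonneg _)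

theorem le_one (E : Set G) : M.m E ≤ 1 := M.m_univ ▸ M.mono (Set.subset_univ E)

theorem union_le {E E1 E2 : Set G} (h : ∀ g ∈ E, g ∈ E1 ∨ g ∈ E2) :
    M.m E ≤ M.m E1 + M.m E2 := by
  simpa using M.cover_le Finset.univ E (fun b : Bool => if b then E1 else E2) fun g hg => by
    simpa [or_comm] using h g hg

/-- almost everywhere -/
def ae : Filter G where
  sets := {E | M.m Eᶜ = 0}
  univ_sets := by simp [M.m_empty]
  sets_of_superset hE h := le_antisymm ((M.mono (Set.compl_subset_compl.2 h)).trans hE.le)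
    (M.nonneg _)
  inter_sets {E1 E2} h1 h2 := le_antisymm ((M.union_le (E1 := E1ᶜ) (E2 := E2ᶜ) fun g hg => by
    simpa [imp_iff_not_or] using hg).trans (by rw [h1, h2]; simp)) (M.nonneg _)

theorem ae_iff {P : G → Prop} : (∀ᶠ g in M.ae, P g) ↔ M.m {g | ¬ P g} = 0 := Iff.rfl

theorem ae_not_mem {E : Set G} : (∀ᶠ g in M.ae, g ∉ E) ↔ M.m E = 0 := by
  rw [ae_iff]; simp

theorem ae_CA : ∀ᶠ g in M.ae, g ∈ Γ.CA := M.supp

theorem le_ae {ι κ : Type} (s : Finset ι) (s' : Finset κ) (c : ι → ℝ) (E : ι → Set G)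
    (c' : κ → ℝ) (E' : κ → Set G)
    (h : ∀ᶠ g in M.ae, ∑ i ∈ s, c i * chi (E i) g ≤ ∑ i ∈ s', c' i * chi (E' i) g) :
    ∑ i ∈ s, c i * M.m (E i) ≤ ∑ i ∈ s', c' i * M.m (E' i) := by
  set N := {g | ¬ ∑ i ∈ s, c i * chi (E i) g ≤ ∑ i ∈ s', c' i * chi (E' i) g} with hN
  have hN0 : M.m N = 0 := h
  have hb : ∀ (x : ℝ) (E : Set G) g, |x * chi E g| ≤ |x| := fun x E g => by
    rw [abs_mul, abs_of_nonneg (chi_nonneg _ _)]
    exact mul_le_of_le_one_right (abs_nonneg _) (chi_le_one _ _)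
  have := M.le2 s (s'.disjSum {()}) c E
    (Sum.elim c' fun _ => ∑ i ∈ s, |c i| + ∑ i ∈ s', |c' i|) (Sum.elim E' fun _ => N) fun g => by
      simp only [Finset.sum_disjSum, Sum.elim_inl, Sum.elim_inr, Finset.sum_singleton]
      by_cases hg : g ∈ N
      · rw [chi_of_mem hg, mul_one]
        have h1 : ∑ i ∈ s, c i * chi (E i) g ≤ ∑ i ∈ s, |c i| :=
          Finset.sum_le_sum fun i _ => (le_abs_self _).trans (hb _ _ _)
        have h2 : ∑ i ∈ s', -|c' i| ≤ ∑ i ∈ s', c' i * chi (E' i) g :=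
          Finset.sum_le_sum fun i _ => (abs_le.1 (hb _ _ _)).1
        rw [Finset.sum_neg_distrib] at h2
        linarith
      · rw [chi_of_not hg, mul_zero, add_zero]
        exact not_not.1 hg
  simpa [Finset.sum_disjSum, hN0] using this

theorem eq_ae {ι κ : Type} (s : Finset ι) (s' : Finset κ) (c : ι → ℝ) (E : ι → Set G)
    (c' : κ → ℝ) (E' : κ → Set G)
    (h : ∀ᶠ g in M.ae, ∑ i ∈ s, c i * chi (E i) g = ∑ i ∈ s', c' i * chi (E' i) g) :
    ∑ i ∈ s, c i * M.m (E i) = ∑ i ∈ s', c' i * M.m (E' i) :=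
  le_antisymm (M.le_ae _ _ _ _ _ _ (h.mono fun _ h => h.le))
    (M.le_ae _ _ _ _ _ _ (h.mono fun _ h => h.ge))

theorem mono_ae {E E' : Set G} (h : ∀ᶠ g in M.ae, g ∈ E → g ∈ E') : M.m E ≤ M.m E' := by
  have h0 : M.m {g | ¬ (g ∈ E → g ∈ E')} = 0 := h
  have := M.union_le (E := E) (E1 := E') (E2 := {g | ¬ (g ∈ E → g ∈ E')}) fun g hg => by
    by_cases h : g ∈ E' <;> simp [h, hg]
  rwa [h0, add_zero] at this

theorem count_le {ι : Type} (s : Finset ι) (E : Set G) (E' : ι → Set G) (k : ℝ)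
    (h : ∀ g ∈ E, k ≤ ∑ i ∈ s, chi (E' i) g) : k * M.m E ≤ ∑ i ∈ s, M.m (E' i) := by
  simpa using M.le2 {()} s (fun _ => k) (fun _ => E) (fun _ => 1) E' fun g => by
    simp only [Finset.sum_singleton, one_mul]
    by_cases hg : g ∈ E
    · rw [chi_of_mem hg, mul_one]; exact h g hg
    · rw [chi_of_not hg, mul_zero]; exact Finset.sum_nonneg fun _ _ => chi_nonneg _ _

theorem disj_le {ι : Type} (s : Finset ι) (E : ι → Set G) (E' : Set G)
    (hsub : ∀ i ∈ s, E i ⊆ E') (hd : ∀ i ∈ s, ∀ j ∈ s, ∀ g, g ∈ E i → g ∈ E j → i = j) :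
    ∑ i ∈ s, M.m (E i) ≤ M.m E' := by
  simpa using M.le2 s {()} (fun _ => 1) E (fun _ => 1) (fun _ => E') fun g => by
    simp only [Finset.sum_singleton, one_mul]
    by_cases hg : ∃ i ∈ s, g ∈ E i
    · obtain ⟨i, hi, hgi⟩ := hg
      rw [Finset.sum_eq_single_of_mem i hi fun j hj hne =>
        chi_of_not fun h => hne (hd j hj i hi g h hgi), chi_of_mem hgi, chi_of_mem (hsub i hi hgi)]
    · push Not at hg
      rw [Finset.sum_eq_zero fun i hi => chi_of_not (hg i hi)]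
      exact chi_nonneg _ _

theorem wander (J : ℕ) (X : ℕ → Set G) (x : ℝ) (h : ∀ j < J, x ≤ M.m (X j))
    (hd : ∀ i j, i < j → j < J → ∀ g, g ∈ X i → g ∈ X j → False) : J * x ≤ 1 := by
  have h1 := M.disj_le (Finset.range J) X Set.univ (fun _ _ => Set.subset_univ _)
    fun i hi j hj g h1 h2 => by
      by_contra hne
      rcases lt_or_gt_of_ne hne with hlt | hlt
      · exact hd i j hlt (Finset.mem_range.1 hj) g h1 h2
      · exact hd j i hlt (Finset.mem_range.1 hi) g h2 h1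
  have h2 : ∑ _j ∈ Finset.range J, x ≤ ∑ j ∈ Finset.range J, M.m (X j) :=
    Finset.sum_le_sum fun j hj => h j (Finset.mem_range.1 hj)
  rw [M.m_univ] at h1
  simpa using h2.trans h1

theorem H_le {E E' : Set G} {h : G} (hh : h ∈ Γ.H) (hE : ∀ g ∈ E, g ∈ Γ.CA → g * h ∈ E') :
    M.m E ≤ M.m E' := by
  have h1 := M.qi (E ∩ Γ.CA) (E' ∩ Γ.CA) h Set.inter_subset_right Set.inter_subset_right
    fun g hg => ⟨hE g hg.1 hg.2, Geo.CA_mul_H hg.2 hh⟩
  rw [Γ.n_H h hh, zpow_zero, one_mul] at h1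
  exact (M.mono_ae (E' := E ∩ Γ.CA) (M.ae_CA.mono fun g hg h => ⟨h, hg⟩)).trans
    (h1.trans (M.mono Set.inter_subset_left))

theorem H_eq (E : Set G) {h : G} (hh : h ∈ Γ.H) : M.m {g | g * h ∈ E} = M.m E :=
  le_antisymm (M.H_le hh fun _ hg _ => hg)
    (M.H_le (Γ.H.inv_mem hh) fun g hg _ => by simpa using hg)

theorem ae_mul_H {P : G → Prop} (hP : ∀ᶠ g in M.ae, P g) {h : G} (hh : h ∈ Γ.H) :
    ∀ᶠ g in M.ae, P (g * h) := (M.H_eq {g | ¬ P g} hh).trans hP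

theorem shift_le {E E' : Set G} (hE : E ⊆ Γ.CA)
    (h : ∀ g ∈ E, ∀ i, g * Γ.t * Γ.rB i ∈ E') : M.m E ≤ M.m E' := by
  have hd : (0 : ℝ) < Γ.d := by exact_mod_cast Γ.d_pos
  let X : Fin Γ.d → Set G := fun i => (fun g => g * Γ.t * Γ.rB i) '' E
  have h1 := M.disj_le Finset.univ X E' (by rintro i - _ ⟨g, hg, rfl⟩; exact h g hg i)
    (by rintro i - j - _ ⟨g, hg, rfl⟩ ⟨g', hg', e⟩; exact (Geo.shift_inj (hE hg') (hE hg) e).symm)
  have h2 : ∀ i, M.m E ≤ Γ.d * M.m (X i) := fun i => by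
    have := M.qi E (X i) (Γ.t * Γ.rB i) hE
      (by rintro _ ⟨g, hg, rfl⟩; exact Geo.CA_shift (hE hg) (Γ.rB_mem i))
      fun g hg => ⟨g, hg, mul_assoc _ _ _⟩
    rwa [Γ.n_mul, Γ.n_t, Γ.n_H _ (Γ.rB_mem i), add_zero, zpow_one] at this
  have h3 := Finset.sum_le_sum fun i (_ : i ∈ Finset.univ) => h2 i
  rw [← Finset.mul_sum] at h3
  simp only [Finset.sum_const, Finset.card_univ, Fintype.card_fin, nsmul_eq_mul] at h3
  exact (le_of_mul_le_mul_left h3 hd).trans h1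

theorem le_of_forall_nat {x : ℝ} (h : ∀ J : ℕ, J * x ≤ 1) : x ≤ 0 := by
  by_contra hx
  push Not at hx
  obtain ⟨J, hJ⟩ := exists_nat_gt (1 / x)
  rw [div_lt_iff₀ hx] at hJ
  exact (h J).not_gt hJ

theorem m_Cone (R : ℕ) : M.m (Γ.Cone R) = 0 := by
  refine le_antisymm (le_of_forall_nat fun J => ?_) (M.nonneg _)
  refine M.wander J (fun j => Γ.Cone (R + j)) _ (fun j _ => ?_) fun i j hij _ g h1 h2 => ?_
  · induction j with
    | zero => exact le_rfl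
    | succ j ih =>
      exact (ih (by omega)).trans (M.shift_le (fun g hg => ⟨_, hg⟩)
        fun g hg i => Γ.Cone_succ hg (Γ.rB_mem i))
  · have := (Γ.n_Cone h1).symm.trans (Γ.n_Cone h2)
    omega

theorem ae_Dom (d : ℕ) : ∀ᶠ g in M.ae, g ∈ Γ.Dom d := by
  have h1 : ∀ᶠ g in M.ae, ∀ R ∈ Finset.range d, g ∉ Γ.Cone R :=
    (Filter.eventually_all_finset _).2 fun R _ => M.ae_not_mem.2 (M.m_Cone R)
  filter_upwards [h1, M.ae_CA] with g h1 ⟨R, hR⟩
  refine Geo.mem_Dom_of_Cone hR ?_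
  by_contra hlt
  exact h1 R (Finset.mem_range.2 (by omega)) hR

omit [Group G] in
theorem sum_chi {β : Type} (F : Finset β) (X : G → β) (ψ : β → ℝ) (E : Set G) {g : G}
    (hg : X g ∈ F) : ∑ x ∈ F, ψ x * chi {g | g ∈ E ∧ X g = x} g = ψ (X g) * chi E g := by
  rw [Finset.sum_eq_single_of_mem _ hg fun x _ hx => by
    rw [chi_of_not (fun h => hx h.2.symm), mul_zero]]
  by_cases h : g ∈ E
  · rw [chi_of_mem h, chi_of_mem (E := {g' | g' ∈ E ∧ X g' = X g}) ⟨h, rfl⟩]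
  · rw [chi_of_not h, chi_of_not (E := {g' | g' ∈ E ∧ X g' = X g}) fun h' => h h'.1]

theorem partition {β : Type} (F : Finset β) (X : G → β) (hX : ∀ᶠ g in M.ae, X g ∈ F)
    (E : Set G) : M.m E = ∑ x ∈ F, M.m {g | g ∈ E ∧ X g = x} := by
  simpa using M.eq_ae {()} F (fun _ => 1) (fun _ => E) (fun _ => 1)
    (fun x => {g | g ∈ E ∧ X g = x}) (hX.mono fun g hg => by
      rw [sum_chi F X (fun _ => 1) E hg]; simp)

end Mean
end

section

open Filter Pointwise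

variable {G : Type} [Group G] (Γ : Geo G) (U : UA G)

theorem exists_exit (l : ℕ) (g : G) : ∃ s, U.B g s ∉ Γ.Desc l g :=
  ⟨(U.w g).length, by rw [U.B_of_le le_rfl]; exact Geo.one_not_Desc _ _⟩

open Classical in
/-- backward exit time -/
noncomputable def Tm (l : ℕ) (g : G) : ℕ := Nat.find (exists_exit Γ U l g)

/-- part of the normal form before the cut -/
noncomputable def pre (l : ℕ) (g : G) : List U.α := (U.w g).take ((U.w g).length - Tm Γ U l g)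

/-- part of the normal form after the cut -/
noncomputable def sfx (l : ℕ) (g : G) : List U.α := (U.w g).drop ((U.w g).length - Tm Γ U l g)

/-- relative position of the edge -/
def edge (l : ℕ) (g : G) : Set G := {x | Γ.Anc l (ev U.π (pre Γ U l g) * x) g}

/-- state at the cut -/
noncomputable def St (l : ℕ) (g : G) : Set (List U.α) × Set G :=
  (quot U.L (pre Γ U l g), edge Γ U l g)

variable {Γ U}

theorem Tm_spec (l : ℕ) (g : G) : U.B g (Tm Γ U l g) ∉ Γ.Desc l g := by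
  classical exact Nat.find_spec (exists_exit Γ U l g)

theorem Tm_min {l : ℕ} {g : G} {s : ℕ} (h : s < Tm Γ U l g) : U.B g s ∈ Γ.Desc l g := by
  classical exact not_not.1 (Nat.find_min (exists_exit Γ U l g) h)

theorem Tm_le {l : ℕ} {g : G} {s : ℕ} (h : U.B g s ∉ Γ.Desc l g) : Tm Γ U l g ≤ s := by
  classical exact Nat.find_min' (exists_exit Γ U l g) h

theorem Tm_le_len (l : ℕ) (g : G) : Tm Γ U l g ≤ (U.w g).length :=
  Tm_le (by rw [U.B_of_le le_rfl]; exact Geo.one_not_Desc _ _)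

theorem pre_suf (l : ℕ) (g : G) : pre Γ U l g ++ sfx Γ U l g = U.w g := List.take_append_drop _ _

theorem ev_pre (l : ℕ) (g : G) : ev U.π (pre Γ U l g) = U.B g (Tm Γ U l g) := rfl

theorem ev_pre_suf (l : ℕ) (g : G) : ev U.π (pre Γ U l g) * ev U.π (sfx Γ U l g) = g := by
  rw [← ev_append, pre_suf, U.ev_w]

theorem suf_length (l : ℕ) (g : G) : (sfx Γ U l g).length = Tm Γ U l g := by
  have := Tm_le_len (Γ := Γ) (U := U) l g
  simp only [sfx, List.length_drop]; omega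

theorem pre_length (l : ℕ) (g : G) :
    (pre Γ U l g).length = (U.w g).length - Tm Γ U l g := by
  simp [pre]

theorem B_of_split {g : G} {u σ : List U.α} (h : U.w g = u ++ σ) :
    U.B g σ.length = ev U.π u := by
  simp [UA.B, UA.F, h]

theorem suf_inside {l : ℕ} {g : G} {σ1 σ2 : List U.α} (h : sfx Γ U l g = σ1 ++ σ2)
    (hne : σ1 ≠ []) : ev U.π (pre Γ U l g) * ev U.π σ1 ∈ Γ.Desc l g := by
  rw [← ev_append, ← B_of_split (σ := σ2) (by rw [List.append_assoc, ← h, pre_suf])]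
  refine Tm_min ?_
  have := List.length_pos_iff.2 hne
  rw [← suf_length, h, List.length_append]; omega

theorem cut_char {l : ℕ} {g : G} {u σ : List U.α} (h : U.w g = u ++ σ)
    (h1 : ev U.π u ∉ Γ.Desc l g)
    (h2 : ∀ σ1 σ2, σ = σ1 ++ σ2 → σ1 ≠ [] → ev U.π u * ev U.π σ1 ∈ Γ.Desc l g) :
    pre Γ U l g = u ∧ sfx Γ U l g = σ := by
  have hT : Tm Γ U l g = σ.length := by
    refine le_antisymm (Tm_le (by rwa [B_of_split h])) ?_
    by_contra hlt
    push Not at hlt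
    have e := h2 (σ.take (σ.length - Tm Γ U l g)) (σ.drop (σ.length - Tm Γ U l g))
      (List.take_append_drop _ _).symm
      (by rw [← List.length_pos_iff, List.length_take]; omega)
    rw [← ev_append, ← B_of_split (σ := σ.drop (σ.length - Tm Γ U l g))
      (by rw [List.append_assoc, List.take_append_drop, h]), List.length_drop,
      show σ.length - (σ.length - Tm Γ U l g) = Tm Γ U l g by omega] at e
    exact Tm_spec l g e
  simp [pre, sfx, hT, h]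

theorem Tm_mono {l l' : ℕ} (hl : l ≤ l') {g : G} (hg : g ∈ Γ.Dom l') :
    Tm Γ U l g ≤ Tm Γ U l' g :=
  Tm_le fun h => Tm_spec l' g (Geo.Desc_mono hl hg h)

theorem exists_step {l l' : ℕ} (hl : l ≤ l') {g : G} (hg : g ∈ Γ.Dom l') :
    ∃ τ, pre Γ U l g = pre Γ U l' g ++ τ ∧ sfx Γ U l' g = τ ++ sfx Γ U l g := by
  have h1 : pre Γ U l' g <+: pre Γ U l g :=
    List.take_prefix_take_left (by have := Tm_mono (U := U) hl hg; omega)
  obtain ⟨τ, hτ⟩ := h1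
  refine ⟨τ, hτ.symm, ?_⟩
  have := pre_suf (Γ := Γ) (U := U) l g
  rw [← hτ, ← pre_suf (Γ := Γ) l' g, List.append_assoc] at this
  exact (List.append_cancel_left this).symm

section cp
variable {l1 l2 : ℕ} {g1 g2 : G} (hS : St Γ U l1 g1 = St Γ U l2 g2)
include hS

theorem cp_w : U.w (ev U.π (pre Γ U l1 g1) * ev U.π (sfx Γ U l2 g2)) =
    pre Γ U l1 g1 ++ sfx Γ U l2 g2 := by
  have h1 : sfx Γ U l2 g2 ∈ quot U.L (pre Γ U l2 g2) := by
    simp only [quot, Set.mem_ofPred_eq, pre_suf]; exact U.w_mem _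
  rw [← show quot U.L (pre Γ U l1 g1) = quot U.L (pre Γ U l2 g2) from congrArg Prod.fst hS] at h1
  exact U.w_eq_of_mem h1 (ev_append _ _ _)

theorem cp_anc0 {γ : G} (h : Γ.Anc l1 γ g1) :
    Γ.Anc l2 (ev U.π (pre Γ U l2 g2) * ((ev U.π (pre Γ U l1 g1))⁻¹ * γ)) g2 := by
  have h1 : (ev U.π (pre Γ U l1 g1))⁻¹ * γ ∈ edge Γ U l1 g1 := by simpa [edge] using h
  rw [show edge Γ U l1 g1 = edge Γ U l2 g2 from congrArg Prod.snd hS] at h1
  exact h1

theorem cp_anc {j : ℕ} {γ : G} (h : Γ.Anc (j + l1) γ g1) :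
    Γ.Anc (j + l2) γ (ev U.π (pre Γ U l1 g1) * ev U.π (sfx Γ U l2 g2)) := by
  obtain ⟨z, hz, h1⟩ := h.split
  refine Geo.Anc.join h.1 hz ⟨h1.1, ?_⟩
  have h2 := (cp_anc0 hS h1).2
  have e : (ev U.π (pre Γ U l2 g2))⁻¹ * g2 = ev U.π (sfx Γ U l2 g2) := by
    rw [inv_mul_eq_iff_eq_mul, ev_pre_suf]
  rw [mul_inv_rev, mul_assoc, e] at h2
  simpa [mul_assoc] using h2

theorem cp_dom {j : ℕ} (h : g1 ∈ Γ.Dom (j + l1)) :
    ev U.π (pre Γ U l1 g1) * ev U.π (sfx Γ U l2 g2) ∈ Γ.Dom (j + l2) := by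
  obtain ⟨γ, h⟩ := h; exact ⟨γ, cp_anc hS h⟩

theorem cp_desc {j : ℕ} (h : g1 ∈ Γ.Dom (j + l1)) {y : G} :
    y ∈ Γ.Desc (j + l2) (ev U.π (pre Γ U l1 g1) * ev U.π (sfx Γ U l2 g2)) ↔
      y ∈ Γ.Desc (j + l1) g1 := by
  obtain ⟨γ, h⟩ := h
  rw [(cp_anc hS h).mem_Desc, h.mem_Desc]

theorem cp_cut {j : ℕ} (h : g1 ∈ Γ.Dom (j + l1)) {τ : List U.α}
    (h1 : pre Γ U l1 g1 = pre Γ U (j + l1) g1 ++ τ)
    (h2 : sfx Γ U (j + l1) g1 = τ ++ sfx Γ U l1 g1) :
    pre Γ U (j + l2) (ev U.π (pre Γ U l1 g1) * ev U.π (sfx Γ U l2 g2)) = pre Γ U (j + l1) g1 ∧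
    sfx Γ U (j + l2) (ev U.π (pre Γ U l1 g1) * ev U.π (sfx Γ U l2 g2)) = τ ++ sfx Γ U l2 g2 := by
  refine cut_char (by rw [cp_w hS, ← List.append_assoc, ← h1]) ?_ fun ρ1 ρ2 hρ hne => ?_
  · rw [cp_desc hS h]; exact Tm_spec _ _
  · rw [cp_desc hS h]
    rcases List.append_eq_append_iff.1 hρ with ⟨a, e1, e2⟩ | ⟨c, e1, e2⟩
    · rcases eq_or_ne a [] with rfl | ha
      · rw [List.append_nil] at e1
        exact suf_inside (e1 ▸ h2) hne
      · refine Geo.Desc_mono (Nat.le_add_left _ _) h ?_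
        obtain ⟨γ, hγ⟩ := Geo.Dom_mono (Nat.le_add_left l1 j) h
        have e3 := (cp_anc0 hS hγ).mem_Desc.1 (suf_inside e2 ha)
        rw [e1, ev_append, ← mul_assoc, ← ev_append, ← h1, hγ.mem_Desc]
        simpa [mul_assoc] using e3
    · exact suf_inside (σ2 := c ++ sfx Γ U l1 g1) (by rw [h2, e1, List.append_assoc]) hne

theorem cp_pre {j : ℕ} (h : g1 ∈ Γ.Dom (j + l1)) :
    pre Γ U (j + l2) (ev U.π (pre Γ U l1 g1) * ev U.π (sfx Γ U l2 g2)) = pre Γ U (j + l1) g1 := by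
  obtain ⟨τ, h1, h2⟩ := exists_step (U := U) (Nat.le_add_left l1 j) h
  exact (cp_cut hS h h1 h2).1

theorem cp_suf (h : g1 ∈ Γ.Dom l1) :
    sfx Γ U l2 (ev U.π (pre Γ U l1 g1) * ev U.π (sfx Γ U l2 g2)) = sfx Γ U l2 g2 := by
  simpa using (cp_cut (j := 0) (τ := []) hS (by simpa using h) (by simp) (by simp)).2

theorem cp_St {j : ℕ} (hl1 : 0 < l1) (h : g1 ∈ Γ.Dom (j + l1)) (_hl2 : 0 < l2) :
    St Γ U (j + l2) (ev U.π (pre Γ U l1 g1) * ev U.π (sfx Γ U l2 g2)) = St Γ U (j + l1) g1 := by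
  simp only [St, edge, cp_pre hS h, Prod.mk.injEq, true_and]
  ext x
  refine ⟨fun hx => ?_, fun hx => cp_anc hS hx⟩
  obtain ⟨γ, hγ⟩ := h
  obtain ⟨k, hk⟩ : ∃ k, j + l1 = k + 1 := ⟨j + l1 - 1, by omega⟩
  have e := (cp_anc hS hγ).uniq hx
  rw [hk] at hγ e ⊢
  simpa using hγ.mul_A e

end cp

variable (Γ U) in
theorem St_finite : ∃ FS : Finset (Set (List U.α) × Set G), ∀ l, ∀ g ∈ Γ.Dom (l + 1),
    St Γ U (l + 1) g ∈ FS := by
  obtain ⟨F, hF, h⟩ := Γ.cross_set (ball_finite U.π 1)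
  refine ⟨(U.finQ.prod (hF.image fun f => {x | f⁻¹ * x ∈ Γ.A})).toFinset, fun l g hg => ?_⟩
  rw [Set.Finite.mem_toFinset]
  refine ⟨⟨_, rfl⟩, ?_⟩
  have hT : 0 < Tm Γ U (l + 1) g := Nat.pos_of_ne_zero fun h0 => by
    have := Tm_spec (Γ := Γ) (U := U) (l + 1) g
    rw [h0, U.B_zero] at this
    exact this (Geo.self_mem_Desc hg)
  obtain ⟨s, hs⟩ : ∃ s, Tm Γ U (l + 1) g = s + 1 := ⟨_, (Nat.succ_pred_eq_of_pos hT).symm⟩
  obtain ⟨γ, hγ⟩ := hg
  have h1 := Tm_spec (Γ := Γ) (U := U) (l + 1) g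
  have h2 : U.B g s ∈ Γ.Desc (l + 1) g := Tm_min (by omega)
  rw [hγ.mem_Desc] at h1 h2
  rw [hs] at h1
  obtain ⟨f, hf, e⟩ := h _ (U.B_step g s) (γ⁻¹ * U.B g (s + 1)) (fun h' => h1 (h'.1
    (by simpa [mul_assoc] using h2)))
  refine ⟨f, hf, ?_⟩
  ext x
  simp only [St, edge, Set.mem_ofPred_eq, ev_pre, hs]
  constructor
  · intro hx
    simpa [mul_assoc] using hγ.mul_A (Γ.A.mul_mem e hx)
  · intro hx
    simpa [mul_assoc] using Γ.A.mul_mem (Γ.A.inv_mem e) (hγ.uniq hx)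

variable (Γ) in
/-- level of an edge datum -/
noncomputable def nu (e : Set G) : ℤ := Γ.n (Classical.epsilon fun x => x ∈ e)

theorem n_suf {l : ℕ} {g : G} (hg : g ∈ Γ.Dom l) :
    Γ.n (ev U.π (sfx Γ U l g)) = nu Γ (edge Γ U l g) + l := by
  obtain ⟨γ, hγ⟩ := hg
  have h1 := Classical.epsilon_spec (p := fun x => x ∈ edge Γ U l g)
    ⟨(ev U.π (pre Γ U l g))⁻¹ * γ, by simpa [edge] using hγ⟩
  have h2 := Γ.n_Pos h1.2
  have e : (ev U.π (pre Γ U l g))⁻¹ * g = ev U.π (sfx Γ U l g) := by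
    rw [inv_mul_eq_iff_eq_mul, ev_pre_suf]
  rw [mul_inv_rev, mul_assoc, e, Γ.n_mul, Γ.n_inv] at h2
  unfold nu; omega

theorem paste_eq (l : ℕ) (g x : G) :
    g * ((ev U.π (sfx Γ U l g))⁻¹ * x) = ev U.π (pre Γ U l g) * x := by
  rw [← mul_assoc, mul_inv_eq_of_eq_mul (ev_pre_suf l g).symm]

end

/-- a normal subgroup centralised by all `K`-th powers -/
structure Cen (G : Type) [Group G] where
  N : Subgroup G
  normal : N.Normal
  K : ℕ
  K_pos : 0 < K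
  comm : ∀ g : G, ∀ x ∈ N, g ^ K * x = x * g ^ K

instance {G : Type} [Group G] (C : Cen G) : C.N.Normal := C.normal

/-- a cocycle without periodic vectors whose kernel on `H` is `N` up to powers -/
structure Coc {G : Type} [Group G] (Γ : Geo G) (C : Cen G) (V : Type) [NormedAddCommGroup V]
    [InnerProductSpace ℝ V] where
  R : V ≃ₗᵢ[ℝ] V
  p : G → V
  N_le : C.N ≤ Γ.H
  p_mul : ∀ x y, p (x * y) = p x + (R ^ Γ.n x) (p y)
  R_ne : ∀ k : ℕ, 0 < k → ∀ v, (R ^ k) v = v → v = 0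
  p_N : ∀ x ∈ C.N, p x = 0
  p_ker : ∀ h ∈ Γ.H, p h = 0 → ∃ k : ℕ, 0 < k ∧ h ^ k ∈ C.N
  nontriv : ∃ a ∈ Γ.H, p a ≠ 0
  proper : ∃ c ∈ Γ.H, c ∉ Γ.A

section
variable {G : Type} [Group G] (U : UA G) (C : Cen G)

/-- finite modulo `N` -/
def FN (W : Set G) : Prop := ∃ S : Set G, S.Finite ∧ ∀ x ∈ W, ∃ s ∈ S, s⁻¹ * x ∈ C.N

/-- states with a nonempty loop valued in `N` -/
def VS (q : Set (List U.α)) : Prop :=
  ∃ ρ : List U.α, ρ ≠ [] ∧ quot q ρ = q ∧ ev U.π ρ ∈ C.N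

/-- the chosen loop -/
noncomputable def rho (q : Set (List U.α)) : List U.α :=
  Classical.epsilon fun ρ => ρ ≠ [] ∧ quot q ρ = q ∧ ev U.π ρ ∈ C.N

theorem rho_spec {q : Set (List U.α)} (h : VS U C q) :
    rho U C q ≠ [] ∧ quot q (rho U C q) = q ∧ ev U.π (rho U C q) ∈ C.N :=
  Classical.epsilon_spec h

/-- the finite type of states -/
abbrev Qt : Type := ↥(Set.range (quot U.L))

instance : Finite (Qt U) := U.finQ.to_subtype

open Classical in
/-- active length of a word read from the state `s` -/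
noncomputable def actw : Set (List U.α) → List U.α → ℕ
  | _, [] => 0
  | s, a :: x => (if VS U C (quot s [a]) then 0 else 1) + actw (quot s [a]) x

/-- the word of a skeleton with exponents `ks` -/
noncomputable def wd (ks : Qt U → ℕ) : List (U.α ⊕ Qt U) → List U.α
  | [] => []
  | Sum.inl a :: r => a :: wd ks r
  | Sum.inr q :: r => rep (rho U C q.1) (ks q) ++ wd ks r

/-- valid skeletons from the state `s` -/
def Valid : Set (List U.α) → List (U.α ⊕ Qt U) → Prop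
  | _, [] => True
  | s, Sum.inl a :: r => Valid (quot s [a]) r
  | s, Sum.inr q :: r => s = q.1 ∧ VS U C s ∧ Valid s r ∧ ∀ ks, ¬ rho U C s <+: wd U C ks r

/-- the marks of a skeleton -/
def marks (sk : List (U.α ⊕ Qt U)) : List (Qt U) := sk.filterMap Sum.getRight?

/-- state at backward time `i` -/
def stB (g : G) (i : ℕ) : Set (List U.α) := quot U.L ((U.w g).take ((U.w g).length - i))

/-- active backward times -/
def active (g : G) (i : ℕ) : Prop := (U.w g).length ≤ i ∨ ¬ VS U C (stB U g i)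

open Classical in
/-- number of active backward times below `i` -/
noncomputable def cnt (g : G) (i : ℕ) : ℕ := Nat.count (active U C g) i

/-- backward path in active time -/
noncomputable def Bp (g : G) (k : ℕ) : G := U.B g (Nat.nth (active U C g) k)

end

section
variable {G : Type} [Group G] (Γ : Geo G) (U : UA G) (C : Cen G)

/-- the path `P` at time `s` is below depth `L` and far -/
def Far (P : G → ℕ → G) (s L : ℕ) (W : Set G) : Set G :=
  {g | g ∈ Γ.Dom L ∧ P g s ∈ Γ.Desc L g ∧ g⁻¹ * P g s ∉ W}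

/-- displacement between two times is near `z` -/
def Ys {V : Type} [NormedAddCommGroup V] (p : G → V) (P : G → ℕ → G) (s1 s2 : ℕ) (z : V)
    (c : ℝ) : Set G :=
  {g | g ∈ Γ.CA ∧ ‖p (g⁻¹ * P g s1) - p (g⁻¹ * P g s2) - z‖ ≤ c}

/-- pair state -/
noncomputable def PSt (a : G) (l : ℕ) (g : G) :
    (Set (List U.α) × Set G) × (Set (List U.α) × Set G) × G :=
  (St Γ U l g, St Γ U l (g * a), (ev U.π (pre Γ U l g))⁻¹ * ev U.π (pre Γ U l (g * a)))

/-- a non-active time between the cuts at levels `l + 1` and `K + (l + 1)` -/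
def Vw (K l : ℕ) : Set G :=
  {g | ∃ i, Tm Γ U (l + 1) g ≤ i ∧ i < Tm Γ U (K + (l + 1)) g ∧ ¬ active U C g i}

end

end Pool.Agent.H89LM
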