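import Pool.Agent.H89LM.Base

/-! Words, skeletons, the mean and tightness of the active length. -/

namespace Pool.Agent.H89LM
open Pool.Agent.MP_5bc3cb_al (ev ev_nil ev_cons ev_append ball ball_finite quot quot_append UA chi
  chi_of_mem chi_of_not chi_nonneg chi_le_one rep Live)
open Filter

section
variable {G : Type} [Group G] {U : UA G} {C : Cen G}

theorem quot_nil {α : Type} (q : Set (List α)) : quot q [] = q := by ext σ; simp [quot]

theorem quot_cons {α : Type} (q : Set (List α)) (a : α) (x : List α) :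
    quot q (a :: x) = quot (quot q [a]) x := by rw [← quot_append]; rfl

theorem quot_rep {α : Type} {q : Set (List α)} {τ : List α} (h : quot q τ = q) (k : ℕ) :
    quot q (rep τ k) = q := by
  induction k with
  | zero => exact quot_nil q
  | succ k ih => rw [rep, quot_append, h, ih]

theorem ev_rep (τ : List U.α) (k : ℕ) : ev U.π (rep τ k) = ev U.π τ ^ k := by
  induction k with
  | zero => simp [rep]
  | succ k ih => rw [rep, ev_append, ih, pow_succ']

theorem length_rep {α : Type} (τ : List α) (k : ℕ) : (rep τ k).length = k * τ.length := by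
  induction k with
  | zero => simp [rep]
  | succ k ih => rw [rep, List.length_append, ih]; ring

theorem rep_add {α : Type} (τ : List α) (j k : ℕ) : rep τ (j + k) = rep τ j ++ rep τ k := by
  induction j with
  | zero => simp [rep]
  | succ j ih => rw [Nat.add_right_comm, rep, rep, ih, List.append_assoc]

theorem Live_of_quot {u x : List U.α} (h : Live U (quot U.L (u ++ x))) : Live U (quot U.L u) := by
  obtain ⟨-, σ, -, hσ⟩ := h
  exact ⟨u, x ++ σ, rfl, by simpa [quot] using hσ⟩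

theorem Live_take (g : G) (i : ℕ) : Live U (quot U.L ((U.w g).take i)) :=
  ⟨_, (U.w g).drop i, rfl, by simpa [quot] using U.w_mem g⟩

theorem Live_of_loop {q : Set (List U.α)} (hq : Live U q) {x y : List U.α}
    (h : quot q (x ++ y) = q) : Live U (quot q x) := by
  obtain ⟨u, σ, rfl, hσ⟩ := hq
  rw [← h] at hσ
  exact ⟨u ++ x, y ++ σ, (quot_append _ _ _).symm, by simpa [quot] using hσ⟩

theorem loop_eq {q : Set (List U.α)} (hq : Live U q) {τ τ' : List U.α} (h : quot q τ = q)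
    (h' : quot q τ' = q) (he : ev U.π τ = ev U.π τ') : τ = τ' := by
  obtain ⟨u, σ, rfl, hσ⟩ := hq
  have h1 : u ++ (τ ++ σ) ∈ U.L := by rw [← h] at hσ; exact hσ
  have h2 : u ++ (τ' ++ σ) ∈ U.L := by rw [← h'] at hσ; exact hσ
  simpa using U.inj h1 h2 (by simp [he])

theorem loop_pre_rep {q : Set (List U.α)} (hq : Live U q) (hV : VS U C q) {τ : List U.α}
    (h : quot q τ = q) {j : ℕ} (hj : τ.length ≤ j) : τ <+: rep (rho U C q) j := by
  obtain ⟨h1, h2, h3⟩ := rho_spec U C hV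
  obtain ⟨K, hK⟩ : ∃ K, C.K = K + 1 := ⟨C.K - 1, by have := C.K_pos; omega⟩
  have e := loop_eq hq (τ := rep τ C.K ++ rep (rho U C q) j) (τ' := rep (rho U C q) j ++ rep τ C.K)
    (by rw [quot_append, quot_rep h, quot_rep h2]) (by rw [quot_append, quot_rep h2, quot_rep h])
    (by rw [ev_append, ev_append, ev_rep τ, ev_rep]; exact C.comm _ _ (C.N.pow_mem h3 j))
  refine List.prefix_of_prefix_length_le (l₃ := rep (rho U C q) j ++ rep τ C.K) ?_
    (List.prefix_append _ _) ?_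
  · rw [← e, hK, rep, List.append_assoc]; exact List.prefix_append _ _
  · rw [length_rep]
    exact hj.trans (Nat.le_mul_of_pos_right _ (List.length_pos_iff.2 h1))

theorem loop_pre {q : Set (List U.α)} (hq : Live U q) (hV : VS U C q) {τ τ' : List U.α}
    (h : quot q τ = q) (h' : quot q τ' = q) (hl : τ.length ≤ τ'.length) : τ <+: τ' :=
  List.prefix_of_prefix_length_le (loop_pre_rep hq hV h hl) (loop_pre_rep hq hV h' le_rfl) hl

theorem loop_dec {q : Set (List U.α)} (hq : Live U q) (hV : VS U C q) {τ : List U.α}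
    (h : quot q τ = q) : ∃ (y : List U.α) (k : ℕ), y.length < (rho U C q).length ∧ quot q y = q ∧
      τ = y ++ rep (rho U C q) k := by
  obtain ⟨h1, h2, -⟩ := rho_spec U C hV
  have hp := List.length_pos_iff.2 h1
  induction hn : τ.length using Nat.strong_induction_on generalizing τ with
  | _ n ih =>
    rcases lt_or_ge τ.length (rho U C q).length with hl | hl
    · exact ⟨τ, 0, hl, h, by simp [rep]⟩
    · obtain ⟨τ', e⟩ := loop_pre hq hV h2 h hl
      have h3 : quot q τ' = q := by rw [← e, quot_append, h2] at h; exact h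
      have hlen : τ.length = (rho U C q).length + τ'.length := by rw [← e, List.length_append]
      obtain ⟨y, k, e1, e2, e3⟩ := ih τ'.length (by omega) h3 rfl
      refine ⟨y, k + 1, e1, e2, ?_⟩
      have h4 : quot q (y ++ rep (rho U C q) (k + 1)) = q := by rw [quot_append, e2, quot_rep h2]
      have h5 : τ.length = (y ++ rep (rho U C q) (k + 1)).length := by
        rw [hlen, e3, List.length_append, List.length_append, length_rep, length_rep]; ring
      exact (loop_pre hq hV h h4 h5.le).eq_of_length h5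

theorem V_rot1 {q : Set (List U.α)} (hq : Live U q) {x y : List U.α} (h : quot q (x ++ y) = q)
    (hne : x ++ y ≠ []) (hV : VS U C (quot q x)) : VS U C q := by
  obtain ⟨h1, h2, h3⟩ := rho_spec U C hV
  have hq' := Live_of_loop hq h
  have h4 : quot (quot q x) (y ++ x) = quot q x := by
    rw [quot_append, ← quot_append q x y, h]
  set m := (rho U C (quot q x)).length with hm
  have hp : 0 < m := List.length_pos_iff.2 h1
  have e : rep (y ++ x) m = rep (rho U C (quot q x)) (y ++ x).length := by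
    have h5 : (rep (y ++ x) m).length = (rep (rho U C (quot q x)) (y ++ x).length).length := by
      rw [length_rep, length_rep, mul_comm]
    exact (loop_pre hq' hV (quot_rep h4 _) (quot_rep h2 _) h5.le).eq_of_length h5
  refine ⟨rep (x ++ y) m, ?_, quot_rep h _, ?_⟩
  · rw [← List.length_pos_iff, length_rep]
    exact Nat.mul_pos hp (List.length_pos_iff.2 hne)
  · have h6 : ev U.π (y ++ x) ^ m ∈ C.N := by
      rw [← ev_rep, e, ev_rep]; exact C.N.pow_mem h3 _
    have h7 := C.normal.conj_mem _ h6 (ev U.π x)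
    rw [← conj_pow] at h7
    rw [ev_rep]
    simpa [mul_assoc] using h7

theorem V_rot {q : Set (List U.α)} (hq : Live U q) {x y : List U.α} (h : quot q (x ++ y) = q)
    (hne : x ++ y ≠ []) : VS U C (quot q x) ↔ VS U C q := by
  refine ⟨V_rot1 hq h hne, fun hV => V_rot1 (Live_of_loop hq h) (x := y) (y := x) ?_ ?_ ?_⟩
  · rw [quot_append, ← quot_append q x y, h]
  · simpa [and_comm] using hne
  · rwa [← quot_append, h]

/-- states along the chosen loop (no liveness needed) -/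
theorem V_rho {q : Set (List U.α)} (hV : VS U C q) {x : List U.α} (hx : x <+: rho U C q) :
    VS U C (quot q x) := by
  obtain ⟨h1, h2, h3⟩ := rho_spec U C hV
  obtain ⟨y, e⟩ := hx
  refine ⟨y ++ x, ?_, by rw [quot_append, ← quot_append q x y, e, h2], ?_⟩
  · rw [← e] at h1; simpa [and_comm] using h1
  · have h7 := C.normal.conj_mem _ h3 (ev U.π x)⁻¹
    rw [← e] at h7
    simpa [mul_assoc] using h7

theorem actw_append (s : Set (List U.α)) (x y : List U.α) :
    actw U C s (x ++ y) = actw U C s x + actw U C (quot s x) y := by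
  induction x generalizing s with
  | nil => simp [actw, quot_nil]
  | cons a x ih => rw [List.cons_append, actw, actw, ih, quot_cons s a x, add_assoc]

theorem cnt_succ_of_active {g : G} {i : ℕ} (h : active U C g i) :
    cnt U C g (i + 1) = cnt U C g i + 1 := by
  classical simp [cnt, Nat.count_succ, h]

theorem cnt_succ_of_not {g : G} {i : ℕ} (h : ¬ active U C g i) :
    cnt U C g (i + 1) = cnt U C g i := by
  classical simp [cnt, Nat.count_succ, h]

theorem cnt_mono (g : G) {i j : ℕ} (h : i ≤ j) : cnt U C g i ≤ cnt U C g j := by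
  classical exact Nat.count_monotone _ h

theorem active_infinite (g : G) : {i | active U C g i}.Infinite :=
  (Set.Ici_infinite (U.w g).length).mono fun _ hi => Or.inl hi

theorem cnt_nth (g : G) (k : ℕ) : cnt U C g (Nat.nth (active U C g) k) = k := by
  classical exact Nat.count_nth_of_infinite (active_infinite g) k

theorem active_nth (g : G) (k : ℕ) : active U C g (Nat.nth (active U C g) k) :=
  Nat.nth_mem_of_infinite (active_infinite g) k

theorem nth_cnt {g : G} {i : ℕ} (h : active U C g i) :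
    Nat.nth (active U C g) (cnt U C g i) = i := by
  classical exact Nat.nth_count h

theorem nth_lt_of_lt_cnt {g : G} {i k : ℕ} (h : k < cnt U C g i) :
    Nat.nth (active U C g) k < i := by
  classical exact Nat.nth_lt_of_lt_count h

theorem cnt_add (g : G) {i : ℕ} (hi : i ≤ (U.w g).length) :
    cnt U C g i + actw U C U.L ((U.w g).take ((U.w g).length - i)) = actw U C U.L (U.w g) := by
  induction i with
  | zero => simp [cnt]
  | succ i ih =>
    rw [← ih (by omega)]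
    have hl : (U.w g).length - (i + 1) < (U.w g).length := by omega
    have e : (U.w g).take ((U.w g).length - i) =
        (U.w g).take ((U.w g).length - (i + 1)) ++ [(U.w g)[(U.w g).length - (i + 1)]] := by
      rw [← List.take_succ_eq_append_getElem hl]; congr 1; omega
    have e2 : quot (quot U.L ((U.w g).take ((U.w g).length - (i + 1))))
        [(U.w g)[(U.w g).length - (i + 1)]] = stB U g i := by rw [stB, e, quot_append]
    rw [e, actw_append, actw, actw, e2]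
    by_cases h : VS U C (stB U g i)
    · rw [cnt_succ_of_not (fun h' => h'.elim (by omega) fun h'' => h'' h), if_pos h]; omega
    · rw [cnt_succ_of_active (Or.inr h), if_neg h]; omega

theorem FN.mono {W W' : Set G} (h : FN C W') (hW : W ⊆ W') : FN C W := by
  obtain ⟨S, hS, h⟩ := h; exact ⟨S, hS, fun x hx => h x (hW hx)⟩

theorem FN_finite {W : Set G} (h : W.Finite) : FN C W :=
  ⟨W, h, fun x hx => ⟨x, hx, by simp⟩⟩

theorem FN.iUnion {ι : Type} [Finite ι] {W : ι → Set G} (h : ∀ i, FN C (W i)) :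
    FN C (⋃ i, W i) := by
  choose S hS h using h
  refine ⟨⋃ i, S i, Set.finite_iUnion hS, fun x hx => ?_⟩
  obtain ⟨i, hi⟩ := Set.mem_iUnion.1 hx
  obtain ⟨s, hs, e⟩ := h i x hi
  exact ⟨s, Set.mem_iUnion.2 ⟨i, hs⟩, e⟩

theorem FN.union {W W' : Set G} (h : FN C W) (h' : FN C W') : FN C (W ∪ W') := by
  obtain ⟨S, hS, h⟩ := h
  obtain ⟨S', hS', h'⟩ := h'
  refine ⟨S ∪ S', hS.union hS', ?_⟩
  rintro x (hx | hx)
  · obtain ⟨f, hf, e⟩ := h x hx; exact ⟨f, Or.inl hf, e⟩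
  · obtain ⟨f, hf, e⟩ := h' x hx; exact ⟨f, Or.inr hf, e⟩

open Pointwise in
theorem FN.mul {W W' : Set G} (h : FN C W) (h' : FN C W') : FN C (W * W') := by
  obtain ⟨S, hS, h⟩ := h
  obtain ⟨S', hS', h'⟩ := h'
  refine ⟨S * S', hS.mul hS', ?_⟩
  rintro _ ⟨x, hx, y, hy, rfl⟩
  obtain ⟨s, hs, e⟩ := h x hx
  obtain ⟨s', hs', e'⟩ := h' y hy
  refine ⟨s * s', ⟨s, hs, s', hs', rfl⟩, ?_⟩
  simpa [mul_assoc] using C.N.mul_mem (C.normal.conj_mem _ e s'⁻¹) e'

open Pointwise in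
theorem FN.inv {W : Set G} (h : FN C W) : FN C W⁻¹ := by
  obtain ⟨S, hS, h⟩ := h
  refine ⟨S⁻¹, hS.inv, fun x hx => ?_⟩
  obtain ⟨s, hs, e⟩ := h _ hx
  refine ⟨s⁻¹, by simpa using hs, ?_⟩
  simpa [mul_assoc] using C.normal.conj_mem _ (C.N.inv_mem e) s

variable {Γ : Geo G}

theorem Desc_mul_right {d : ℕ} {g y h : G} (hh : h ∈ Γ.H) :
    y * h ∈ Γ.Desc d g ↔ y ∈ Γ.Desc d g := by
  simp only [Geo.Desc, Set.mem_ofPred_eq, ← mul_assoc, Γ.Hs_mul_H_iff hh]

theorem FN.TB (hN : C.N ≤ Γ.H) {W : Set G} (h : FN C W) : Γ.TB W := by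
  obtain ⟨S, hS, h⟩ := h
  exact ⟨S, hS, fun x hx => (h x hx).imp fun _ hs => ⟨hs.1, hN hs.2⟩⟩

theorem FN.cross_TB (hN : C.N ≤ Γ.H) {S : Set G} (hS : FN C S) (d : ℕ) : ∃ W, Γ.TB W ∧
    ∀ g ∈ Γ.Dom d, ∀ y, ∀ κ ∈ S, g⁻¹ * y ∉ W → (y * κ ∈ Γ.Desc d g ↔ y ∈ Γ.Desc d g) := by
  obtain ⟨S0, hS0, h⟩ := hS
  obtain ⟨W, hW, h1⟩ := Γ.cross_TB hS0 d
  refine ⟨W, hW, fun g hg y κ hκ hy => ?_⟩
  obtain ⟨s, hs, e⟩ := h κ hκ
  rw [← h1 g hg y s hs hy, ← Desc_mul_right (y := y * s) (hN e)]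
  simp [mul_assoc]

theorem FN.margin (hN : C.N ≤ Γ.H) {S : Set G} (hS : FN C S) : ∃ K, ∀ l, ∀ g ∈ Γ.Dom (K + l),
    ∀ y ∈ Γ.Desc l g, ∀ κ ∈ S, y * κ ∈ Γ.Desc (K + l) g := by
  obtain ⟨S0, hS0, h⟩ := hS
  obtain ⟨K, h1⟩ := Γ.margin hS0
  refine ⟨K, fun l g hg y hy κ hκ => ?_⟩
  obtain ⟨s, hs, e⟩ := h κ hκ
  simpa [mul_assoc] using (Desc_mul_right (hN e)).2 (h1 l g hg y hy s hs)

variable {V : Type} [NormedAddCommGroup V] [InnerProductSpace ℝ V] (X : Coc Γ C V)

theorem Coc.p_one : X.p 1 = 0 := X.p_N 1 C.N.one_mem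

theorem Coc.p_mul_N (g : G) {x : G} (hx : x ∈ C.N) : X.p (g * x) = X.p g := by
  rw [X.p_mul, X.p_N x hx, map_zero, add_zero]

theorem Coc.p_mul_H {h : G} (hh : h ∈ Γ.H) (g : G) : X.p (h * g) = X.p h + X.p g := by
  rw [X.p_mul, Γ.n_H h hh, zpow_zero]; rfl

theorem Coc.p_pow {h : G} (hh : h ∈ Γ.H) (k : ℕ) : X.p (h ^ k) = (k : ℝ) • X.p h := by
  induction k with
  | zero => simp [X.p_one]
  | succ k ih => rw [pow_succ', X.p_mul_H hh, ih]; push_cast; rw [add_smul, one_smul, add_comm]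

theorem FN.p_finite {S : Set G} (hS : FN C S) : (X.p '' S).Finite := by
  obtain ⟨S0, hS0, h⟩ := hS
  refine (hS0.image X.p).subset ?_
  rintro _ ⟨x, hx, rfl⟩
  obtain ⟨s, hs, e⟩ := h x hx
  exact ⟨s, hs, by rw [← X.p_mul_N s e, mul_inv_cancel_left]⟩

theorem FN.p_bdd {S : Set G} (hS : FN C S) : ∃ c : ℝ, 0 ≤ c ∧ ∀ x ∈ S, ‖X.p x‖ ≤ c := by
  obtain ⟨c, hc⟩ := ((hS.p_finite X).image norm).bddAbove
  exact ⟨max c 0, le_max_right _ _, fun x hx =>
    (hc ⟨_, ⟨x, hx, rfl⟩, rfl⟩).trans (le_max_left _ _)⟩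

end

end Pool.Agent.H89LM

namespace Pool.Agent.H89LM
open Pool.Agent.MP_5bc3cb_al (ev ev_nil ev_cons ev_append ball ball_finite quot quot_append UA chi
  chi_of_mem chi_of_not chi_nonneg chi_le_one rep Live)
open Filter

section
variable {G : Type} [Group G]
open Topology

theorem mn_letter (U : UA G) :
    ∃ c : ℕ, ∀ g a, (U.w (g * U.π a)).length ≤ (U.w g).length + c := by
  obtain ⟨S, hS, h⟩ := U.ft
  obtain ⟨C, hC⟩ := U.len_bound hS
  refine ⟨C, fun g a => hC _ g _ fun i hi => ?_⟩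
  have := h g a i
  rw [List.take_of_length_le hi, U.ev_w] at this
  exact this

theorem len_mul (U : UA G) (f : G) : ∃ c : ℕ, ∀ g, (U.w (g * f)).length ≤ (U.w g).length + c := by
  obtain ⟨c, hc⟩ := mn_letter U
  rw [← U.ev_w f]
  induction U.w f with
  | nil => exact ⟨0, fun g => by simp⟩
  | cons a u ih =>
    obtain ⟨c', h'⟩ := ih
    refine ⟨c + c', fun g => ?_⟩
    have h1 := h' (g * U.π a)
    have h2 := hc g a
    rw [ev_cons, ← mul_assoc]; omega

theorem mn_word {α : Type} [Finite α] (π : α → G) (φ : G → ℝ) (h1 : φ 1 = 0)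
    (hmul : ∀ x y, φ (x * y) ≤ φ x + φ y) :
    ∃ D : ℝ, 0 < D ∧ ∀ u : List α, φ (ev π u) ≤ D * u.length := by
  obtain ⟨D, hD⟩ := (Set.finite_range fun a => φ (π a)).bddAbove
  refine ⟨max D 1, lt_max_of_lt_right one_pos, fun u => ?_⟩
  induction u with
  | nil => simp [h1]
  | cons a u ih =>
    have h2 : φ (π a) ≤ D := hD ⟨a, rfl⟩
    have h3 := hmul (π a) (ev π u)
    have h4 := le_max_left D 1
    rw [ev_cons, List.length_cons]; push_cast; linarith

theorem mn_nf (Γ : Geo G) {R : ℕ} {g : G} (hg : g ∈ Γ.Cone R) :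
    ∃ l : List (Fin Γ.d), ∃ h ∈ Γ.H, l.length = R ∧ g = ev (fun i => Γ.rA i * Γ.t) l * h := by
  induction R generalizing g with
  | zero => exact ⟨[], g, hg, rfl, by simp⟩
  | succ R ih =>
    obtain ⟨x, hx, h', hh', rfl⟩ := hg
    obtain ⟨l, h, hh, hl, rfl⟩ := ih hx
    obtain ⟨i, hi⟩ := Γ.rA_cover h hh
    refine ⟨l ++ [i], _, Γ.H.mul_mem (Γ.B_le (Γ.A_t _ hi)) hh', by simp [hl], ?_⟩
    simp [mul_assoc]

/-- weight -/
noncomputable def mn_wt (Γ : Geo G) (U : UA G) (ε : ℝ) (g : G) : ℝ :=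
  (Γ.d : ℝ) ^ (-Γ.n g) * Real.exp (-ε * (U.w g).length)

theorem mn_wt_pos (Γ : Geo G) (U : UA G) (ε : ℝ) (g : G) : 0 < mn_wt Γ U ε g := by
  have := Γ.d_pos
  unfold mn_wt; positivity

theorem mn_wt_le (Γ : Geo G) (U : UA G) {ε : ℝ} (hε : 0 ≤ ε) {g g' : G} {z : ℤ} {c : ℕ}
    (hn : Γ.n g' = Γ.n g + z) (hl : (U.w g').length ≤ (U.w g).length + c) :
    mn_wt Γ U ε g ≤ (Γ.d : ℝ) ^ z * Real.exp (ε * c) * mn_wt Γ U ε g' := by
  have hd : (0 : ℝ) < Γ.d := by exact_mod_cast Γ.d_pos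
  unfold mn_wt
  rw [mul_mul_mul_comm, ← zpow_add₀ hd.ne', ← Real.exp_add, hn]
  have : z + -(Γ.n g + z) = -Γ.n g := by ring
  rw [this]
  refine mul_le_mul_of_nonneg_left (Real.exp_le_exp.2 ?_) (by positivity)
  have h : ((U.w g').length : ℝ) ≤ (U.w g).length + c := by exact_mod_cast hl
  nlinarith

theorem mn_wt_mul (Γ : Geo G) (U : UA G) (ε : ℝ) (x y : G) : mn_wt Γ U ε x * mn_wt Γ U ε y =
    (Γ.d : ℝ) ^ (-(Γ.n x + Γ.n y)) *
      Real.exp (-ε * (((U.w x).length + (U.w y).length : ℕ) : ℝ)) := by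
  have hd : (0 : ℝ) < Γ.d := by exact_mod_cast Γ.d_pos
  unfold mn_wt
  rw [mul_mul_mul_comm, ← zpow_add₀ hd.ne', ← Real.exp_add, neg_add, Nat.cast_add, mul_add]

theorem mn_summable (Γ : Geo G) (U : UA G) (ℓ : G → ℝ) (h1 : ℓ 1 = 0)
    (hmul : ∀ x y, ℓ (x * y) ≤ ℓ x + ℓ y) (hinv : ∀ x, ℓ x⁻¹ = ℓ x)
    (hsum : ∀ ε : ℝ, 0 < ε → Summable fun h : Γ.H => Real.exp (-ε * ℓ h)) (ε : ℝ) (hε : 0 < ε) :
    Summable (Γ.CA.indicator (mn_wt Γ U ε)) := by
  have hd : (0 : ℝ) < Γ.d := by exact_mod_cast Γ.d_pos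
  obtain ⟨C, hC, hCw⟩ := mn_word (fun i => Γ.rA i * Γ.t) ℓ h1 hmul
  obtain ⟨D, hD, hDw⟩ := mn_word U.π (fun g => (C + 1) * Γ.n g + ℓ g) (by simp [Γ.n_one, h1])
    fun x y => by
      have := hmul x y
      rw [Γ.n_mul]; push_cast; linarith
  obtain ⟨δ, hδ, rfl⟩ : ∃ δ, 0 < δ ∧ ε = δ * D := ⟨ε / D, by positivity, by field_simp⟩
  rw [← summable_subtype_iff_indicator]
  have h3 := MP_5bc3cb_al.summable_list_pow Γ.d ((Γ.d : ℝ)⁻¹ * Real.exp (-δ)) (by positivity) (by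
    rw [← mul_assoc, mul_inv_cancel₀ hd.ne', one_mul]
    exact Real.exp_lt_one_iff.2 (by linarith))
  have h2 := h3.mul_of_nonneg (hsum δ hδ) (fun _ => by positivity) (fun _ => by positivity)
  have hex : ∀ g : Γ.CA, ∃ x : List (Fin Γ.d) × Γ.H, Γ.n g = x.1.length ∧
      (g : G) = ev (fun i => Γ.rA i * Γ.t) x.1 * x.2 := by
    rintro ⟨g, R, hR⟩
    obtain ⟨l, h, hh, hl, e⟩ := mn_nf Γ hR
    exact ⟨(l, ⟨h, hh⟩), by simp [Γ.n_Cone hR, hl], e⟩
  choose sec hn he using hex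
  have hinj : Function.Injective sec := fun g g' h => Subtype.ext (by rw [he, he, h])
  refine Summable.of_nonneg_of_le (fun g => (mn_wt_pos Γ U _ _).le) (fun g => ?_)
    (h2.comp_injective hinj)
  have h6 := hDw (U.w g)
  simp only [U.ev_w] at h6
  simp only [Function.comp, mn_wt]
  rw [hn] at h6 ⊢
  rw [mul_pow, ← Real.exp_nat_mul, mul_assoc, ← Real.exp_add, zpow_neg, zpow_natCast, inv_pow]
  refine mul_le_mul_of_nonneg_left (Real.exp_le_exp.2 ?_) (by positivity)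
  have h3 := hmul (ev (fun i => Γ.rA i * Γ.t) (sec g).1)⁻¹ g
  rw [hinv] at h3
  have h4 := hCw (sec g).1
  have h5 : (ev (fun i => Γ.rA i * Γ.t) (sec g).1)⁻¹ * g = (sec g).2 := by
    rw [inv_mul_eq_iff_eq_mul]; exact he g
  rw [h5] at h3
  push_cast at h6
  nlinarith

theorem mn_chi_summable {X : Type} {W : X → ℝ} (h0 : ∀ x, 0 ≤ W x) (hs : Summable W)
    (E : Set X) : Summable fun x => W x * chi E x :=
  Summable.of_nonneg_of_le (fun g => mul_nonneg (h0 g) (chi_nonneg _ _))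
    (fun g => mul_le_of_le_one_right (h0 g) (chi_le_one _ _)) hs

theorem mn_est {X : Type} {W : X → ℝ} (h0 : ∀ x, 0 ≤ W x) (hs : Summable W) {E E' : Set X}
    {Φ : X → X} {c : ℝ} (hc : 0 ≤ c) (hinj : Set.InjOn Φ E)
    (h : ∀ x ∈ E, Φ x ∈ E' ∧ W x ≤ c * W (Φ x)) :
    ∑' x, W x * chi E x ≤ c * ∑' x, W x * chi E' x := by
  have e : (fun x => W x * chi E x) = E.indicator W := by
    funext x; by_cases hx : x ∈ E <;> simp [chi, hx]
  rw [e, ← tsum_subtype, ← tsum_mul_left]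
  refine Summable.tsum_le_tsum_of_inj (fun x : E => Φ x)
    (fun x y hxy => Subtype.ext (hinj x.2 y.2 hxy))
    (fun x _ => mul_nonneg hc (mul_nonneg (h0 x) (chi_nonneg _ _))) (fun x => ?_) (hs.subtype _)
    ((mn_chi_summable h0 hs E').mul_left c)
  rw [chi_of_mem (h x x.2).1, mul_one]
  exact (h x x.2).2

theorem mn_prod {X : Type} {W : X → ℝ} (h0 : ∀ x, 0 ≤ W x) (hs : Summable W) (E E' : Set X) :
    (∑' x, W x * chi E x) * ∑' x, W x * chi E' x =
      ∑' z : X × X, W z.1 * W z.2 * chi (E ×ˢ E') z := by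
  have h1 := mn_chi_summable h0 hs E
  have h2 := mn_chi_summable h0 hs E'
  rw [h1.tsum_mul_tsum h2 (h1.mul_of_nonneg h2 (fun x => mul_nonneg (h0 x) (chi_nonneg _ _))
    fun x => mul_nonneg (h0 x) (chi_nonneg _ _))]
  refine tsum_congr fun z => ?_
  by_cases a : z.1 ∈ E <;> by_cases b : z.2 ∈ E' <;> simp [chi, a, b, Set.indicator]

theorem exists_mean (Γ : Geo G) (U : UA G) (ℓ : G → ℝ) (h0 : ∀ x, 0 ≤ ℓ x) (h1 : ℓ 1 = 0)
    (hmul : ∀ x y, ℓ (x * y) ≤ ℓ x + ℓ y) (hinv : ∀ x, ℓ x⁻¹ = ℓ x)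
    (hsum : ∀ ε : ℝ, 0 < ε → Summable fun h : Γ.H => Real.exp (-ε * ℓ h)) :
    Nonempty (Mean Γ U) := by
  have hd : (0 : ℝ) < Γ.d := by exact_mod_cast Γ.d_pos
  let ε : ℕ → ℝ := fun k => 1 / ((k : ℝ) + 1)
  have hε : ∀ k, 0 < ε k := fun k => by positivity
  let W : ℕ → G → ℝ := fun k => Γ.CA.indicator (mn_wt Γ U (ε k))
  have hW0 : ∀ k g, 0 ≤ W k g := fun k g =>
    Set.indicator_nonneg (fun g _ => (mn_wt_pos Γ U _ _).le) g
  have hWs : ∀ k, Summable (W k) := fun k => mn_summable Γ U ℓ h1 hmul hinv hsum _ (hε k)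
  have hs : ∀ k E, Summable fun g => W k g * chi E g := fun k E =>
    mn_chi_summable (hW0 k) (hWs k) E
  have hZ : ∀ k, 0 < ∑' g, W k g := fun k => (hWs k).tsum_pos (hW0 k) 1 (by
    have : (1 : G) ∈ Γ.CA := ⟨0, Γ.H.one_mem⟩
    simp only [W, Set.indicator_of_mem this]; exact mn_wt_pos Γ U _ _)
  let av : ℕ → Set G → ℝ := fun k E => (∑' g, W k g * chi E g) / ∑' g, W k g
  let 𝒰 : Ultrafilter ℕ := Ultrafilter.of atTop
  have hlim : ∀ E, ∃ x, Tendsto (fun k => av k E) 𝒰 (𝓝 x) := fun E => by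
    obtain ⟨x, -, hx⟩ := (isCompact_Icc (a := (0 : ℝ)) (b := 1)).ultrafilter_le_nhds
      (𝒰.map fun k => av k E) (by
        rw [Filter.le_principal_iff, Ultrafilter.coe_map, Filter.mem_map]
        refine Filter.univ_mem' fun k => ⟨div_nonneg (tsum_nonneg fun g =>
          mul_nonneg (hW0 k g) (chi_nonneg _ _)) (hZ k).le, (div_le_one (hZ k)).2 ?_⟩
        exact (hs k E).tsum_le_tsum
          (fun g => mul_le_of_le_one_right (hW0 k g) (chi_le_one _ _)) (hWs k))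
    exact ⟨x, hx⟩
  choose m hm using hlim
  have key : ∀ (E E' : Set G) (Φ : G → G) (z : ℤ) (c : ℕ), E ⊆ Γ.CA → E' ⊆ Γ.CA →
      Set.InjOn Φ E → (∀ g ∈ E, Φ g ∈ E' ∧ Γ.n (Φ g) = Γ.n g + z ∧
        (U.w (Φ g)).length ≤ (U.w g).length + c) → m E ≤ (Γ.d : ℝ) ^ z * m E' := by
    intro E E' Φ z c hE hE' hi h
    have h1 : Tendsto (fun k => (Γ.d : ℝ) ^ z * Real.exp (ε k * c) * av k E') 𝒰
        (𝓝 ((Γ.d : ℝ) ^ z * Real.exp (0 * c) * m E')) := by
      refine Tendsto.mul (Tendsto.const_mul _ ?_) (hm E')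
      exact (Real.continuous_exp.tendsto _).comp
        ((tendsto_one_div_add_atTop_nhds_zero_nat.mono_left (Ultrafilter.of_le _)).mul_const _)
    rw [zero_mul, Real.exp_zero, mul_one] at h1
    refine le_of_tendsto_of_tendsto' (hm E) h1 fun k => ?_
    simp only [av, ← mul_div_assoc]
    refine div_le_div_of_nonneg_right ?_ (hZ k).le
    refine mn_est (hW0 k) (hWs k) (by positivity) hi fun g hg => ⟨(h g hg).1, ?_⟩
    simp only [W, Set.indicator_of_mem (hE hg), Set.indicator_of_mem (hE' (h g hg).1)]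
    exact mn_wt_le Γ U (hε k).le (h g hg).2.1 (h g hg).2.2
  refine ⟨⟨m, fun s c E h => ?_, ?_, ?_, fun E E' f hE hE' h => ?_,
    fun E E' Φ c hE hE' hi h => ?_, fun E1 E2 E1' E2' Φ a1 a2 a3 a4 hi h => ?_⟩⟩
  · refine ge_of_tendsto' (tendsto_finsetSum s fun i _ => (hm (E i)).const_mul (c i)) fun k => ?_
    simp only [av, ← mul_div_assoc, ← Finset.sum_div, ← tsum_mul_left]
    refine div_nonneg ?_ (hZ k).le
    rw [← Summable.tsum_finsetSum fun i _ => (hs k (E i)).mul_left (c i)]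
    refine tsum_nonneg fun g => ?_
    have := mul_nonneg (hW0 k g) (h g)
    rw [Finset.mul_sum] at this
    refine this.trans_eq (Finset.sum_congr rfl fun i _ => by ring)
  · refine tendsto_nhds_unique (hm _) (tendsto_const_nhds.congr fun k => ?_)
    simp [av, chi, (hZ k).ne']
  · refine tendsto_nhds_unique (hm _) (tendsto_const_nhds.congr fun k => ?_)
    have : ∀ g, W k g * chi Γ.CAᶜ g = 0 := fun g => by
      by_cases hg : g ∈ Γ.CA <;> simp [W, chi, hg]
    simp [av, this]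
  · obtain ⟨c, hc⟩ := len_mul U f
    exact key E E' (· * f) _ c hE hE' (mul_left_injective f).injOn
      fun g hg => ⟨h g hg, Γ.n_mul g f, hc g⟩
  · simpa using key E E' Φ 0 c hE hE' hi fun g hg => by simpa using h g hg
  · refine le_of_tendsto_of_tendsto' ((hm E1).mul (hm E2)) ((hm E1').mul (hm E2')) fun k => ?_
    simp only [av, div_mul_div_comm]
    refine div_le_div_of_nonneg_right ?_ (mul_pos (hZ k) (hZ k)).le
    rw [mn_prod (hW0 k) (hWs k), mn_prod (hW0 k) (hWs k)]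
    refine (mn_est (W := fun z : G × G => W k z.1 * W k z.2)
      (fun z => mul_nonneg (hW0 k _) (hW0 k _)) ((hWs k).mul_of_nonneg (hWs k) (hW0 k) (hW0 k))
      zero_le_one hi fun x hx => ⟨(h x hx).1, ?_⟩).trans_eq (one_mul _)
    obtain ⟨b1, b2, b3⟩ := h x hx
    simp only [W, Set.indicator_of_mem (a1 hx.1), Set.indicator_of_mem (a2 hx.2),
      Set.indicator_of_mem (a3 b1.1), Set.indicator_of_mem (a4 b1.2), mn_wt_mul, b2, b3, one_mul,
      le_refl]

end

end Pool.Agent.H89LM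

namespace Pool.Agent.H89LM
open Pool.Agent.MP_5bc3cb_al (ev ev_nil ev_cons ev_append ball ball_finite quot quot_append UA chi
  chi_of_mem chi_of_not chi_nonneg chi_le_one rep Live)
open Filter

section
variable {G : Type} [Group G] {U : UA G} {C : Cen G}

theorem wa_marks_inl (a : U.α) (r : List (U.α ⊕ Qt U)) : marks U (Sum.inl a :: r) = marks U r :=
  rfl

theorem wa_marks_inr (q : Qt U) (r : List (U.α ⊕ Qt U)) :
    marks U (Sum.inr q :: r) = q :: marks U r := by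
  simp [marks]

theorem W1 {s : Set (List U.α)} {sk : List (U.α ⊕ Qt U)} (h : Valid U C s sk) (ks ks' : Qt U → ℕ) :
    quot s (wd U C ks sk) = quot s (wd U C ks' sk) := by
  induction sk generalizing s with
  | nil => rfl
  | cons c r ih =>
    rcases c with a | q
    · simp only [wd]
      rw [quot_cons, quot_cons s a (wd U C ks' r)]
      exact ih h
    · obtain ⟨rfl, hV, hr, -⟩ := h
      simp only [wd]
      rw [quot_append, quot_append, quot_rep (rho_spec U C hV).2.1, quot_rep (rho_spec U C hV).2.1]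
      exact ih hr

theorem wa_rel {x y : G} : x⁻¹ * y ∈ C.N ↔ QuotientGroup.mk' C.N x = QuotientGroup.mk' C.N y :=
  QuotientGroup.eq.symm

theorem wa_rep {q : Set (List U.α)} (hV : VS U C q) (k : ℕ) :
    QuotientGroup.mk' C.N (ev U.π (rep (rho U C q) k)) = 1 := by
  rw [ev_rep]
  exact (QuotientGroup.eq_one_iff _).2 (C.N.pow_mem (rho_spec U C hV).2.2 k)

theorem W2 {s : Set (List U.α)} {sk : List (U.α ⊕ Qt U)} (h : Valid U C s sk) (ks ks' : Qt U → ℕ) :
    (ev U.π (wd U C ks sk))⁻¹ * ev U.π (wd U C ks' sk) ∈ C.N := by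
  rw [wa_rel]
  induction sk generalizing s with
  | nil => rfl
  | cons c r ih =>
    rcases c with a | q
    · simp only [wd]
      rw [ev_cons, ev_cons, map_mul, map_mul, ih h]
    · obtain ⟨rfl, hV, hr, -⟩ := h
      simp only [wd]
      rw [ev_append, ev_append, map_mul, map_mul, wa_rep hV, wa_rep hV, ih hr]

theorem wa_len (ks : Qt U → ℕ) (sk : List (U.α ⊕ Qt U)) :
    ((marks U sk).map fun q => ks q * (rho U C q.1).length).sum ≤ (wd U C ks sk).length ∧
    (wd U C ks sk).length ≤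
      ((marks U sk).map fun q => ks q * (rho U C q.1).length).sum + sk.length := by
  induction sk with
  | nil => simp [marks, wd]
  | cons c r ih =>
    rcases c with a | q
    · simp only [wd, wa_marks_inl, List.length_cons]
      omega
    · simp only [wd, wa_marks_inr, List.length_cons, List.map_cons, List.sum_cons,
        List.length_append, length_rep]
      omega

theorem W3 {sk1 sk2 : List (U.α ⊕ Qt U)} (h : marks U sk1 = marks U sk2) (ks : Qt U → ℕ) :
    (wd U C ks sk2).length ≤ (wd U C ks sk1).length + sk2.length := by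
  have h1 := (wa_len (C := C) ks sk1).1
  have h2 := (wa_len (C := C) ks sk2).2
  rw [h] at h1
  omega

theorem W3z (sk : List (U.α ⊕ Qt U)) : (wd U C (fun _ => 0) sk).length ≤ sk.length := by
  simpa using (wa_len (C := C) (fun _ => 0) sk).2

theorem wa_le {ρ w w' : List U.α} (hw : ¬ ρ <+: w) {k k' : ℕ} (he : rep ρ k ++ w = rep ρ k' ++ w') :
    k' ≤ k := by
  by_contra hlt
  obtain ⟨j, rfl⟩ : ∃ j, k' = k + (j + 1) := ⟨k' - k - 1, by omega⟩
  rw [rep_add, List.append_assoc, List.append_cancel_left_eq, rep, List.append_assoc] at he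
  exact hw ⟨_, he.symm⟩

theorem wa_eq {s : Set (List U.α)} {sk : List (U.α ⊕ Qt U)} (h : Valid U C s sk)
    {ks ks' : Qt U → ℕ} (he : wd U C ks sk = wd U C ks' sk) : ∀ q ∈ marks U sk, ks q = ks' q := by
  induction sk generalizing s with
  | nil => simp [marks]
  | cons c r ih =>
    rcases c with a | q
    · simp only [wd, List.cons.injEq, true_and] at he
      rw [wa_marks_inl]
      exact ih h he
    · obtain ⟨rfl, hV, hr, hn⟩ := h
      simp only [wd] at he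
      have e : ks q = ks' q := le_antisymm (wa_le (hn ks') he.symm) (wa_le (hn ks) he)
      rw [e, List.append_cancel_left_eq] at he
      rw [wa_marks_inr]
      exact List.forall_mem_cons.2 ⟨e, ih hr he⟩

theorem wa_congr {sk : List (U.α ⊕ Qt U)} {ks ks' : Qt U → ℕ}
    (h : ∀ q ∈ marks U sk, ks q = ks' q) : wd U C ks sk = wd U C ks' sk := by
  induction sk with
  | nil => rfl
  | cons c r ih =>
    rcases c with a | q
    · rw [wa_marks_inl] at h
      simp only [wd, ih h]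
    · rw [wa_marks_inr, List.forall_mem_cons] at h
      simp only [wd, ih h.2, h.1]

theorem W4 {s : Set (List U.α)} {sk1 sk2 : List (U.α ⊕ Qt U)} (h2 : Valid U C s sk2)
    (h : marks U sk1 = marks U sk2) {ks ks' : Qt U → ℕ} (he : wd U C ks sk2 = wd U C ks' sk2) :
    wd U C ks sk1 = wd U C ks' sk1 :=
  wa_congr (h ▸ wa_eq h2 he)

theorem wa_split {α : Type} {x u w : List α} (h : x <+: u ++ w) :
    x <+: u ∨ ∃ x', x' ≠ [] ∧ x = u ++ x' ∧ x' <+: w := by
  rcases List.prefix_or_prefix_of_prefix h (List.prefix_append u w) with h1 | ⟨x', rfl⟩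
  · exact Or.inl h1
  · rcases eq_or_ne x' [] with rfl | hne
    · exact Or.inl (by simp)
    · exact Or.inr ⟨x', hne, rfl, (List.prefix_append_right_inj u).1 h⟩

theorem wa_loop {q : Set (List U.α)} (hV : VS U C q) (k : ℕ) {x : List U.α} (hx : x ≠ [])
    (hp : x <+: rep (rho U C q) k) : ∃ x0, x0 ≠ [] ∧ x0 <+: rho U C q ∧ quot q x0 = quot q x ∧
      QuotientGroup.mk' C.N (ev U.π x0) = QuotientGroup.mk' C.N (ev U.π x) := by
  induction k generalizing x with
  | zero => exact absurd (List.prefix_nil.1 hp) hx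
  | succ k ih =>
    rcases wa_split (show x <+: rho U C q ++ rep (rho U C q) k from hp) with h | ⟨x', h1, rfl, h2⟩
    · exact ⟨x, hx, h, rfl, rfl⟩
    · obtain ⟨x0, a, b, c, d⟩ := ih h1 h2
      refine ⟨x0, a, b, by rw [quot_append, (rho_spec U C hV).2.1, c], ?_⟩
      rw [ev_append, map_mul, d, QuotientGroup.mk'_apply C.N (ev U.π (rho U C q)),
        (QuotientGroup.eq_one_iff _).2 (rho_spec U C hV).2.2, one_mul]

theorem W5 {s : Set (List U.α)} {sk : List (U.α ⊕ Qt U)} (h : Valid U C s sk) {ks0 : Qt U → ℕ}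
    (h0 : ∀ q, 1 ≤ ks0 q) (ks : Qt U → ℕ) {x : List U.α} (hx : x ≠ []) (hp : x <+: wd U C ks sk) :
    ∃ x0, x0 ≠ [] ∧ x0 <+: wd U C ks0 sk ∧ quot s x0 = quot s x ∧
      (ev U.π x0)⁻¹ * ev U.π x ∈ C.N := by
  simp only [wa_rel]
  induction sk generalizing s x with
  | nil => exact absurd (List.prefix_nil.1 hp) hx
  | cons c r ih =>
    rcases c with a | q
    · rcases wa_split (show x <+: [a] ++ wd U C ks r from hp) with h1 | ⟨x', h1, rfl, h2⟩
      · exact ⟨x, hx, h1.trans (List.prefix_append [a] _), rfl, rfl⟩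
      · obtain ⟨x0, -, b, c, d⟩ := ih h h1 h2
        refine ⟨[a] ++ x0, by simp, (List.prefix_append_right_inj [a]).2 b, ?_, ?_⟩
        · rw [quot_append, quot_append, c]
        · rw [ev_append, ev_append, map_mul, map_mul, d]
    · obtain ⟨rfl, hV, hr, -⟩ := h
      rcases wa_split (show x <+: rep (rho U C q.1) (ks q) ++ wd U C ks r from hp) with
        h1 | ⟨x', h1, rfl, h2⟩
      · obtain ⟨x0, a, b, c, d⟩ := wa_loop hV _ hx h1
        refine ⟨x0, a, b.trans ?_, c, d⟩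
        obtain ⟨j, hj⟩ : ∃ j, ks0 q = j + 1 := ⟨ks0 q - 1, by have := h0 q; omega⟩
        simp only [wd]
        rw [hj, rep, List.append_assoc]
        exact List.prefix_append _ _
      · obtain ⟨x0, a, b, c, d⟩ := ih hr h1 h2
        refine ⟨rep (rho U C q.1) (ks0 q) ++ x0, by simp [a],
          (List.prefix_append_right_inj _).2 b, ?_, ?_⟩
        · rw [quot_append, quot_append, quot_rep (rho_spec U C hV).2.1,
            quot_rep (rho_spec U C hV).2.1, c]
        · rw [ev_append, ev_append, map_mul, map_mul, wa_rep hV, wa_rep hV, d]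

theorem wa_zero {s : Set (List U.α)} {y : List U.α} (h : ∀ x, x <+: y → VS U C (quot s x)) :
    actw U C s y = 0 := by
  induction y generalizing s with
  | nil => rfl
  | cons a y ih =>
    rw [actw, if_pos (h [a] (List.prefix_append [a] y)), zero_add]
    refine ih fun x hx => ?_
    rw [← quot_cons]
    exact h _ (List.cons_prefix_cons.2 ⟨rfl, hx⟩)

theorem wa_act {q : Set (List U.α)} (hV : VS U C q) (k : ℕ) :
    actw U C q (rep (rho U C q) k) = 0 := by
  induction k with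
  | zero => rfl
  | succ k ih =>
    rw [rep, actw_append, (rho_spec U C hV).2.1, ih, wa_zero fun x hx => V_rho hV hx]

theorem W6 {s : Set (List U.α)} {sk : List (U.α ⊕ Qt U)} (h : Valid U C s sk) (ks ks' : Qt U → ℕ) :
    actw U C s (wd U C ks sk) = actw U C s (wd U C ks' sk) := by
  induction sk generalizing s with
  | nil => rfl
  | cons c r ih =>
    rcases c with a | q
    · simp only [wd, actw]
      rw [ih h]
    · obtain ⟨rfl, hV, hr, -⟩ := h
      simp only [wd]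
      rw [actw_append, actw_append, wa_act hV, wa_act hV, quot_rep (rho_spec U C hV).2.1,
        quot_rep (rho_spec U C hV).2.1, ih hr]

end

end Pool.Agent.H89LM

namespace Pool.Agent.H89LM
open Pool.Agent.MP_5bc3cb_al (ev ev_nil ev_cons ev_append ball ball_finite quot quot_append UA chi
  chi_of_mem chi_of_not chi_nonneg chi_le_one rep Live)
open Filter

section
variable {G : Type} [Group G] {U : UA G} {C : Cen G}

theorem wb_wd (ks : Qt U → ℕ) (y : List U.α) (r : List (U.α ⊕ Qt U)) :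
    wd U C ks (y.map Sum.inl ++ r) = y ++ wd U C ks r := by
  induction y with
  | nil => rfl
  | cons a y ih => rw [List.map_cons, List.cons_append, wd, ih, List.cons_append]

theorem wb_valid (s : Set (List U.α)) (y : List U.α) (r : List (U.α ⊕ Qt U))
    (h : Valid U C (quot s y) r) : Valid U C s (y.map Sum.inl ++ r) := by
  induction y generalizing s with
  | nil => rwa [quot_nil] at h
  | cons a y ih => exact ih _ (by rwa [quot_cons] at h)

theorem wb_marks (y : List U.α) (r : List (U.α ⊕ Qt U)) :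
    marks U (y.map Sum.inl ++ r) = marks U r := by
  induction y with
  | nil => rfl
  | cons a y ih => exact ih

theorem wb_congr {ks ks' : Qt U → ℕ} (r : List (U.α ⊕ Qt U))
    (h : ∀ q ∈ marks U r, ks q = ks' q) : wd U C ks r = wd U C ks' r := by
  induction r with
  | nil => rfl
  | cons b r ih =>
    cases b with
    | inl a => rw [wd, wd, ih h]
    | inr q =>
      rw [wd, wd, h q List.mem_cons_self, ih fun q' hq' => h q' (List.mem_cons_of_mem _ hq')]

variable (U C) in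
/-- the inductive statement -/
def wb_R (m e : ℕ) (u x : List U.α) (T : Finset (Qt U)) : Prop :=
  ∃ (sk : List (U.α ⊕ Qt U)) (ks : Qt U → ℕ), Valid U C (quot U.L u) sk ∧ (∀ q, 1 ≤ ks q) ∧
    wd U C ks sk = x ∧ sk.length ≤ actw U C (quot U.L u) x + e + T.card * (m + 1) ∧
    (marks U sk).length ≤ T.card ∧ ∀ q ∈ marks U sk, q ∈ T

variable (U C) in
/-- the inductive statement with its hypotheses -/
def wb_Q (m : ℕ) (x : List U.α) : Prop := ∀ (u : List U.α) (T : Finset (Qt U)),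
  Live U (quot U.L (u ++ x)) → (∀ y, y <+: x → y ≠ [] → VS U C (quot U.L (u ++ y)) →
    (⟨_, u ++ y, rfl⟩ : Qt U) ∈ T) → wb_R U C m 1 u x T

theorem wb_V {m : ℕ} (hm : ∀ q : Qt U, (rho U C q.1).length ≤ m) {u x : List U.α}
    {T : Finset (Qt U)} (ih : ∀ z : List U.α, z.length ≤ x.length → wb_Q U C m z)
    (hl : Live U (quot U.L (u ++ x))) (hV : VS U C (quot U.L u))
    (hT : ∀ y, y <+: x → VS U C (quot U.L (u ++ y)) → (⟨_, u ++ y, rfl⟩ : Qt U) ∈ T) :
    wb_R U C m 0 u x T := by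
  classical
  let q : Qt U := ⟨_, u, rfl⟩
  have hq : q ∈ T := by simpa using hT [] List.nil_prefix (by simpa using hV)
  obtain ⟨τ, hτ, hmax⟩ := Finset.exists_max_image
    (x.inits.toFinset.filter fun τ => quot (quot U.L u) τ = quot U.L u) List.length
    ⟨[], by simp [quot_nil]⟩
  simp only [Finset.mem_filter, List.mem_toFinset, List.mem_inits] at hτ hmax
  obtain ⟨⟨z, rfl⟩, h1⟩ := hτ
  have hne : ∀ y, y <+: z → y ≠ [] → quot (quot U.L u) y ≠ quot U.L u := fun y hy hy0 e => by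
    have := hmax (τ ++ y) ⟨(List.prefix_append_right_inj _).2 hy, by rw [quot_append, h1, e]⟩
    have h2 := List.length_pos_iff.2 hy0
    rw [List.length_append] at this
    omega
  have e1 : ∀ y, quot U.L (u ++ (τ ++ y)) = quot U.L (u ++ y) := fun y => by
    rw [quot_append, quot_append, h1, quot_append]
  obtain ⟨r, ks, a1, a2, a3, a4, a5, a6⟩ := ih z (by simp) u (T.erase q) (by rwa [e1] at hl)
    fun y hy hy0 hv => Finset.mem_erase.2 ⟨fun e => hne y hy hy0 (by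
      rw [← quot_append]; exact congrArg Subtype.val e), by
        have := hT (τ ++ y) ((List.prefix_append_right_inj _).2 hy) (by rwa [e1])
        rwa [show (⟨_, u ++ (τ ++ y), rfl⟩ : Qt U) = ⟨_, u ++ y, rfl⟩ from Subtype.ext (e1 y)]
          at this⟩
  obtain ⟨y, k, b1, b2, b3⟩ := loop_dec (Live_of_quot hl) hV h1
  have c1 := Finset.card_erase_add_one hq
  have c2 : y.length < m := b1.trans_le (hm q)
  have c3 : actw U C (quot U.L u) z ≤ actw U C (quot U.L u) (τ ++ z) := by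
    rw [actw_append, h1]; omega
  have c4 : T.card * (m + 1) = (T.erase q).card * (m + 1) + (m + 1) := by rw [← c1]; ring
  rcases Nat.eq_zero_or_pos k with rfl | hk
  · refine ⟨y.map Sum.inl ++ r, ks, wb_valid _ _ _ (by rwa [b2]), a2, ?_, ?_, ?_, ?_⟩
    · rw [wb_wd, a3, b3, rep, List.append_nil]
    · rw [List.length_append, List.length_map]; omega
    · rw [wb_marks]; omega
    · rw [wb_marks]; exact fun q' hq' => Finset.mem_of_mem_erase (a6 q' hq')
  · refine ⟨y.map Sum.inl ++ Sum.inr q :: r, Function.update ks q k, wb_valid _ _ _ ?_,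
      fun q' => ?_, ?_, ?_, ?_, ?_⟩
    · rw [b2]
      refine ⟨rfl, hV, a1, fun ks' hp => ?_⟩
      obtain ⟨x0, d1, d2, d3, -⟩ := W5 a1 a2 ks' (rho_spec U C hV).1 hp
      exact hne x0 (a3 ▸ d2) d1 (d3.trans (rho_spec U C hV).2.1)
    · rw [Function.update_apply]; split_ifs; exacts [hk, a2 q']
    · rw [wb_wd, wd, Function.update_self, b3, List.append_assoc, ← a3,
        wb_congr r fun q' hq' => Function.update_of_ne (Finset.ne_of_mem_erase (a6 q' hq')) k ks]
    · rw [List.length_append, List.length_map, List.length_cons]; omega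
    · rw [wb_marks, show marks U (Sum.inr q :: r) = q :: marks U r from rfl, List.length_cons]
      omega
    · rw [wb_marks, show marks U (Sum.inr q :: r) = q :: marks U r from rfl]
      exact List.forall_mem_cons.2 ⟨hq, fun q' hq' => Finset.mem_of_mem_erase (a6 q' hq')⟩

theorem wb_all {m : ℕ} (hm : ∀ q : Qt U, (rho U C q.1).length ≤ m) (x : List U.α) :
    wb_Q U C m x := by
  induction hn : x.length using Nat.strong_induction_on generalizing x with
  | _ n ih =>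
    intro u T hl hT
    cases x with
    | nil => exact ⟨[], fun _ => 1, trivial, fun _ => le_rfl, rfl, by simp, by simp [marks],
        by simp [marks]⟩
    | cons a x =>
      have ih' : ∀ z : List U.α, z.length ≤ x.length → wb_Q U C m z := fun z hz =>
        ih _ (by rw [← hn, List.length_cons]; omega) z rfl
      have hl' : Live U (quot U.L (u ++ [a] ++ x)) := by simpa using hl
      have hT' : ∀ y, y <+: x → VS U C (quot U.L (u ++ [a] ++ y)) →
          (⟨_, u ++ [a] ++ y, rfl⟩ : Qt U) ∈ T := fun y hy hv => by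
        simpa using hT (a :: y) (List.cons_prefix_cons.2 ⟨rfl, hy⟩) (by simp) (by simpa using hv)
      by_cases hV : VS U C (quot U.L (u ++ [a]))
      · obtain ⟨r, ks, a1, a2, a3, a4, a5⟩ := wb_V hm ih' hl' hV hT'
        rw [quot_append] at a1 a4
        refine ⟨Sum.inl a :: r, ks, a1, a2, by rw [wd, a3], ?_, a5⟩
        rw [List.length_cons, actw]; omega
      · obtain ⟨r, ks, a1, a2, a3, a4, a5⟩ := ih' x le_rfl _ T hl' fun y hy _ => hT' y hy
        rw [quot_append] at a1 a4 hV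
        refine ⟨Sum.inl a :: r, ks, a1, a2, by rw [wd, a3], ?_, a5⟩
        rw [List.length_cons, actw, if_neg hV]; omega

variable (U C) in
theorem W7 : ∃ c : ℕ, ∀ u x : List U.α, Live U (quot U.L (u ++ x)) →
    ∃ (sk : List (U.α ⊕ Qt U)) (ks : Qt U → ℕ), Valid U C (quot U.L u) sk ∧ (∀ q, 1 ≤ ks q) ∧
      wd U C ks sk = x ∧ sk.length ≤ actw U C (quot U.L u) x + c ∧ (marks U sk).length ≤ c := by
  obtain ⟨m, hm⟩ := Finite.exists_le fun q : Qt U => (rho U C q.1).length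
  have := Fintype.ofFinite (Qt U)
  refine ⟨1 + (Finset.univ : Finset (Qt U)).card * (m + 1) + (Finset.univ : Finset (Qt U)).card,
    fun u x hl => ?_⟩
  obtain ⟨r, ks, a1, a2, a3, a4, a5, -⟩ := wb_all hm x u Finset.univ hl
    fun _ _ _ _ => Finset.mem_univ _
  exact ⟨r, ks, a1, a2, a3, by omega, by omega⟩

end

end Pool.Agent.H89LM

namespace Pool.Agent.H89LM
open Pool.Agent.MP_5bc3cb_al (ev ev_nil ev_cons ev_append ball ball_finite quot quot_append UA chi
  chi_of_mem chi_of_not chi_nonneg chi_le_one rep Live)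
open Filter

section
variable {G : Type} [Group G] {U : UA G} {C : Cen G}

theorem bf_split (g : G) {i j : ℕ} (hij : i ≤ j) : ∃ x, (U.w g).take ((U.w g).length - i) =
    (U.w g).take ((U.w g).length - j) ++ x ∧ (U.B g j)⁻¹ * U.B g i = ev U.π x ∧
      quot (stB U g j) x = stB U g i := by
  obtain ⟨x, hx⟩ : (U.w g).take ((U.w g).length - j) <+: (U.w g).take ((U.w g).length - i) :=
    List.take_prefix_take_left (by omega)
  exact ⟨x, hx.symm, by simp [UA.B, UA.F, ← hx], by rw [stB, stB, ← quot_append, hx]⟩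

variable (U C) in
theorem segB (c : ℕ) : ∃ S, FN C S ∧ ∀ g i j, i ≤ j → cnt U C g j ≤ cnt U C g i + c →
    (U.B g j)⁻¹ * U.B g i ∈ S := by
  obtain ⟨c0, h⟩ := W7 U C
  refine ⟨{x | ∃ s ∈ ball U.π (c + c0), s⁻¹ * x ∈ C.N}, ⟨_, ball_finite _ _, fun x hx => hx⟩, ?_⟩
  have key : ∀ g i j, i ≤ j → j ≤ (U.w g).length → cnt U C g j ≤ cnt U C g i + c →
      ∃ s ∈ ball U.π (c + c0), s⁻¹ * ((U.B g j)⁻¹ * U.B g i) ∈ C.N := by
    intro g i j hij hj hc
    obtain ⟨x, hx, hB, -⟩ := bf_split (U := U) g hij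
    have h1 := cnt_add (C := C) g (hij.trans hj)
    have h2 := cnt_add (C := C) g hj
    rw [hx, actw_append] at h1
    obtain ⟨sk, ks, e1, -, e3, e4, -⟩ := h _ x (by rw [← hx]; exact Live_take g _)
    refine ⟨_, ⟨_, (W3z (C := C) sk).trans (by omega), rfl⟩, ?_⟩
    rw [hB, ← e3]; exact W2 e1 _ _
  intro g i j hij hc
  rcases le_total j (U.w g).length with hj | hj
  · exact key g i j hij hj hc
  rw [U.B_of_le hj, ← U.B_of_le (le_refl (U.w g).length)]
  rcases le_total i (U.w g).length with hi | hi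
  · exact key g i _ hi le_rfl ((cnt_mono g hj).trans hc)
  · rw [U.B_of_le hi, ← U.B_of_le (le_refl (U.w g).length)]
    simpa using key g _ _ le_rfl le_rfl (Nat.le_add_right _ _)

theorem bf_loop {g : G} {i j : ℕ} (hj : ¬ active U C g j) (he : stB U g i = stB U g j) {t : ℕ}
    (h1 : i ≤ t) (h2 : t ≤ j) : ¬ active U C g t := by
  simp only [active, not_or, not_not, not_le] at hj ⊢
  refine ⟨by omega, ?_⟩
  rcases eq_or_lt_of_le h2 with rfl | hlt
  · exact hj.2
  obtain ⟨x, e1, -, e2⟩ := bf_split (U := U) g h2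
  obtain ⟨y, -, -, e3⟩ := bf_split (U := U) g h1
  rw [← e2, V_rot (q := stB U g j) (Live_take g _) (y := y) (by rw [quot_append, e2, e3, he]) ?_]
  · exact hj.2
  · have := congrArg List.length e1
    simp only [List.length_take, List.length_append] at this
    rw [← List.length_pos_iff, List.length_append]; omega

theorem bf_cnt {g : G} {i t : ℕ} (h1 : i ≤ t) (h : ∀ j, i ≤ j → j < t → ¬ active U C g j) :
    cnt U C g t = cnt U C g i := by
  induction t, h1 using Nat.le_induction with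
  | base => rfl
  | succ t ht ih => rw [cnt_succ_of_not (h t ht (by omega)), ih fun j e1 e2 => h j e1 (by omega)]

open Pointwise in
theorem bf_key {S0 : Set G} (hS0 : S0.Finite) (c1 : ℕ) : ∃ D, ∀ g g' : G,
    (∀ i, (U.B g i)⁻¹ * U.B g' i ∈ S0) → (U.w g).length ≤ (U.w g').length + c1 →
    ∀ s, cnt U C g' s ≤ cnt U C g s + D := by
  classical
  obtain ⟨S1, hS1, h1⟩ := segB U C 0
  obtain ⟨S2, hS2, h2⟩ := (hS1.union hS1.inv).mul (FN_finite hS0)
  let T := U.finQ.toFinset ×ˢ U.finQ.toFinset ×ˢ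
    (hS2.image (QuotientGroup.mk : G → G ⧸ C.N)).toFinset
  refine ⟨c1 + T.card, fun g g' hB hl s => ?_⟩
  have hr : ∀ q, ∃ r, (∃ i, ¬ active U C g i ∧ stB U g i = q) →
      ¬ active U C g r ∧ stB U g r = q := fun q => by
    by_cases h : ∃ i, ¬ active U C g i ∧ stB U g i = q
    · obtain ⟨i, hi⟩ := h; exact ⟨i, fun _ => hi⟩
    · exact ⟨0, fun h' => absurd h' h⟩
  choose r hr using hr
  let I := (Finset.range s).filter fun i =>
    ¬ active U C g i ∧ ¬ VS U C (stB U g' i) ∧ i < (U.w g').length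
  have hI : I.card ≤ T.card := by
    refine Finset.card_le_card_of_injOn (fun i => (stB U g i, stB U g' i,
      (((U.B g (r (stB U g i)))⁻¹ * U.B g' i : G) : G ⧸ C.N))) (fun i hi => ?_) ?_
    · simp only [I, Finset.coe_filter, Set.mem_ofPred_eq] at hi
      simp only [T, Finset.coe_product, Set.mem_prod, Set.Finite.coe_toFinset]
      refine ⟨⟨_, rfl⟩, ⟨_, rfl⟩, ?_⟩
      obtain ⟨e1, e2⟩ := hr _ ⟨i, hi.2.1, rfl⟩
      have e3 : (U.B g (r (stB U g i)))⁻¹ * U.B g i ∈ S1 ∪ S1⁻¹ := by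
        rcases le_total i (r (stB U g i)) with h | h
        · exact Or.inl (h1 g _ _ h (bf_cnt h fun j a b => bf_loop e1 e2.symm a b.le).le)
        · right
          simpa using h1 g _ _ h (bf_cnt h fun j a b => bf_loop hi.2.1 e2 a b.le).le
      obtain ⟨x, hx, e4⟩ := h2 _ ⟨_, e3, _, hB i, rfl⟩
      refine ⟨x, hx, QuotientGroup.eq.2 ?_⟩
      simpa [mul_assoc] using e4
    · have key : ∀ i ∈ I, ∀ i' ∈ I, i < i' → stB U g' i = stB U g' i' →
          (U.B g' i')⁻¹ * U.B g' i ∈ C.N → False := by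
        intro i _ i' hi' hlt e1 e2
        simp only [I, Finset.mem_filter] at hi'
        obtain ⟨x, a1, a2, a3⟩ := bf_split (U := U) g' hlt.le
        refine hi'.2.2.1 ⟨x, ?_, a3.trans e1, a2 ▸ e2⟩
        have := congrArg List.length a1
        simp only [List.length_take, List.length_append] at this
        rw [← List.length_pos_iff]; omega
      intro i hi i' hi' he
      simp only [Prod.mk.injEq] at he
      obtain ⟨e1, e2, e3⟩ := he
      rw [e1, QuotientGroup.eq] at e3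
      by_contra hne
      rcases lt_or_gt_of_ne hne with hlt | hlt
      · exact key i hi i' hi' hlt e2 (by simpa [mul_assoc] using C.N.inv_mem e3)
      · exact key i' hi' i hi hlt e2.symm (by simpa [mul_assoc] using e3)
  have hsub : (Finset.range s).filter (active U C g') ⊆
      ((Finset.range s).filter (active U C g) ∪ Finset.Ico (U.w g').length (U.w g).length) ∪ I := by
    intro i hi
    simp only [I, Finset.mem_filter, Finset.mem_union, Finset.mem_Ico] at hi ⊢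
    by_cases ha : active U C g i
    · exact Or.inl (Or.inl ⟨hi.1, ha⟩)
    rcases lt_or_ge i (U.w g').length with h | h
    · exact Or.inr ⟨hi.1, ha, hi.2.resolve_left (by omega), h⟩
    · exact Or.inl (Or.inr ⟨h, not_le.1 fun h' => ha (Or.inl h')⟩)
  have h3 := (Finset.card_le_card hsub).trans ((Finset.card_union_le _ _).trans
    (Nat.add_le_add_right (Finset.card_union_le _ _) _))
  rw [Nat.card_Ico] at h3
  have h4 : ∀ g, cnt U C g s = ((Finset.range s).filter (active U C g)).card := fun g =>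
    Nat.count_eq_card_filter_range _ _
  rw [h4, h4]
  omega

open Pointwise in
variable (U C) in
theorem bftp (f : G) : ∃ S, FN C S ∧ ∀ g k, (Bp U C g k)⁻¹ * Bp U C (g * f) k ∈ S := by
  obtain ⟨S0, hS0, h0⟩ := U.bft f
  obtain ⟨c1, hc1⟩ := len_mul U f
  obtain ⟨c2, hc2⟩ := len_mul U f⁻¹
  obtain ⟨D1, hD1⟩ := bf_key (U := U) (C := C) hS0 c2
  obtain ⟨D2, hD2⟩ := bf_key (U := U) (C := C) hS0.inv c1
  obtain ⟨S, hS, h⟩ := segB U C (D1 + D2)
  refine ⟨S0 * (S ∪ S⁻¹), (FN_finite hS0).mul (hS.union hS.inv), fun g k => ?_⟩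
  have e1 := hD1 g (g * f) (h0 g) (by simpa using hc2 (g * f)) (Nat.nth (active U C g) k)
  have e2 := hD2 (g * f) g (fun i => by simpa using h0 g i) (hc1 g) (Nat.nth (active U C g) k)
  have e3 := cnt_nth (U := U) (C := C) (g * f) k
  rw [cnt_nth] at e1 e2
  refine ⟨_, h0 g (Nat.nth (active U C g) k),
    (U.B (g * f) (Nat.nth (active U C g) k))⁻¹ * Bp U C (g * f) k, ?_, by simp [Bp, mul_assoc]⟩
  rcases le_total (Nat.nth (active U C (g * f)) k) (Nat.nth (active U C g) k) with hl | hl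
  · exact Or.inl (h _ _ _ hl (by omega))
  · right
    simpa [Bp] using h _ _ _ hl (by omega)

end

end Pool.Agent.H89LM

namespace Pool.Agent.H89LM
open Pool.Agent.MP_5bc3cb_al (ev ev_nil ev_cons ev_append ball ball_finite quot quot_append UA chi
  chi_of_mem chi_of_not chi_nonneg chi_le_one rep Live)
open Filter

section
variable {G : Type} [Group G] {Γ : Geo G} {U : UA G} {C : Cen G} (M : Mean Γ U)

open Pointwise

theorem fa_shift (Γ : Geo G) (P : G → ℕ → G)
    (hP : ∀ f, ∃ S, FN C S ∧ ∀ g s, (P g s)⁻¹ * P (g * f) s ∈ S) :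
    ∃ S : Set G, FN C S ∧ ∀ g i s,
    (P g s)⁻¹ * P (g * Γ.t * Γ.rB i) s ∈ S := by
  choose S hS h using hP
  refine ⟨⋃ i, S (Γ.t * Γ.rB i), FN.iUnion fun i => hS _, fun g i s => ?_⟩
  rw [mul_assoc g]
  exact Set.mem_iUnion.2 ⟨i, h _ g s⟩

/-- the backward path at time `s` branches off at depth `r + 1` and is far -/
def fa_Zs (Γ : Geo G) (P : G → ℕ → G) (s r : ℕ) (W : Set G) : Set G :=
  {g | g ∈ Γ.Dom (r + 1) ∧ P g s ∈ Γ.Desc (r + 1) g ∧ P g s ∉ Γ.Desc r g ∧
    g⁻¹ * P g s ∉ W}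

theorem fa_B1 (hN : C.N ≤ Γ.H) (P : G → ℕ → G)
    (hP : ∀ f, ∃ S, FN C S ∧ ∀ g s, (P g s)⁻¹ * P (g * f) s ∈ S) (r : ℕ) {W' : Set G} (hW' : Γ.TB W') : ∃ W, Γ.TB W ∧ ∀ s,
    M.m (fa_Zs Γ P s r W) ≤ M.m (fa_Zs Γ P s (r + 1) W') := by
  obtain ⟨S, hS, h⟩ := fa_shift Γ P hP
  obtain ⟨W1, hW1, h1⟩ := hS.cross_TB hN r
  obtain ⟨W2, hW2, h2⟩ := hS.cross_TB hN (r + 1)
  refine ⟨W1 ∪ W2 ∪ (Set.range fun i => Γ.t * Γ.rB i) * W' * S⁻¹,
    (hW1.union hW2).union (((Geo.TB_finite (Set.finite_range _)).mul hW').mul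
      ((hS.TB hN).inv)), fun s => ?_⟩
  refine M.shift_le (fun g hg => Geo.Dom_sub_CA hg.1) ?_
  rintro g ⟨hd, e1, e2, e3⟩ i
  simp only [Set.mem_union, not_or] at e3
  have hd' := Geo.Dom_mono (Nat.le_succ r) hd
  have k1 := h1 g hd' _ _ (h g i s) e3.1.1
  have k2 := h2 g hd _ _ (h g i s) e3.1.2
  rw [mul_inv_cancel_left] at k1 k2
  refine ⟨Geo.Dom_shift hd (Γ.rB_mem i), (Geo.Desc_shift hd (Γ.rB_mem i)).2 (k2.2 e1),
    fun h' => e2 (k1.1 ((Geo.Desc_shift hd' (Γ.rB_mem i)).1 h')), fun h' => e3.2 ?_⟩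
  exact ⟨_, ⟨_, ⟨i, rfl⟩, _, h', rfl⟩, _, Set.inv_mem_inv.2 (h g i s), by simp [mul_assoc]⟩

theorem fa_B2 (hN : C.N ≤ Γ.H) (P : G → ℕ → G)
    (hP : ∀ f, ∃ S, FN C S ∧ ∀ g s, (P g s)⁻¹ * P (g * f) s ∈ S) (j r : ℕ) : ∃ W, Γ.TB W ∧ ∀ s,
    M.m (fa_Zs Γ P s r W) ≤ M.m (fa_Zs Γ P s (r + j) ∅) := by
  induction j generalizing r with
  | zero => exact ⟨∅, Geo.TB_finite Set.finite_empty, fun s => le_rfl⟩
  | succ j ih =>
    obtain ⟨W', hW', h'⟩ := ih (r + 1)
    obtain ⟨W, hW, h⟩ := fa_B1 M hN P hP r hW'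
    refine ⟨W, hW, fun s => (h s).trans ?_⟩
    rw [show r + (j + 1) = r + 1 + j by ring]
    exact h' s

theorem fa_B3 (hN : C.N ≤ Γ.H) (P : G → ℕ → G)
    (hP : ∀ f, ∃ S, FN C S ∧ ∀ g s, (P g s)⁻¹ * P (g * f) s ∈ S) (r : ℕ) {η : ℝ} (hη : 0 < η) : ∃ W, Γ.TB W ∧ ∀ s, M.m (fa_Zs Γ P s r W) ≤ η := by
  obtain ⟨J, hJ⟩ := Pool.Agent.MP_5bc3cb_al.exists_nat_small hη
  choose W hW h using fun j => fa_B2 M hN P hP j r
  refine ⟨⋃ j ∈ Set.Iio J, W j, Geo.TB.biUnion (Set.finite_Iio J) fun j _ => hW j, fun s => ?_⟩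
  refine hJ _ (M.wander J (fun j => fa_Zs Γ P s (r + j) ∅) _ (fun j hj => ?_) ?_)
  · refine (M.mono ?_).trans (h j s)
    rintro g ⟨e1, e2, e3, e4⟩
    exact ⟨e1, e2, e3, fun h' => e4 (Set.mem_biUnion (Set.mem_Iio.2 hj) h')⟩
  · rintro i j hij - g ⟨-, e1, -⟩ ⟨e2, -, e3, -⟩
    exact e3 (Geo.Desc_mono (by omega) (Geo.Dom_mono (Nat.le_succ _) e2) e1)

theorem fa_B0 (hN : C.N ≤ Γ.H) (hc : ∃ c ∈ Γ.H, c ∉ Γ.A) (P : G → ℕ → G)
    (hP : ∀ f, ∃ S, FN C S ∧ ∀ g s, (P g s)⁻¹ * P (g * f) s ∈ S) {η : ℝ} (hη : 0 < η) : ∃ W, Γ.TB W ∧ ∀ s, M.m (Far Γ P s 0 W) ≤ η := by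
  obtain ⟨W', hW', h'⟩ := fa_B3 M hN P hP 0 hη
  obtain ⟨c, hc1, hc2⟩ := hc
  obtain ⟨S, hS, h⟩ := hP c
  obtain ⟨W1, hW1, h1⟩ := hS.cross_TB hN 0
  refine ⟨W1 ∪ {c} * W' * S⁻¹, hW1.union (((Geo.TB_finite (Set.finite_singleton _)).mul
    hW').mul ((hS.TB hN).inv)), fun s => ?_⟩
  refine le_trans ?_ (h' s)
  refine (M.mono_ae (E' := Far Γ P s 0 (W1 ∪ {c} * W' * S⁻¹) ∩ Γ.Dom 1)
    ((M.ae_Dom 1).mono fun g hg h => ⟨h, hg⟩)).trans (M.H_le hc1 ?_)
  rintro g ⟨⟨hd, e1, e3⟩, hd1⟩ hg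
  simp only [Set.mem_union, not_or] at e3
  have k1 := (h1 g hd _ _ (h g s) e3.1).2 e1
  rw [mul_inv_cancel_left] at k1
  refine ⟨Geo.Dom_mul_H hd1 hc1, (Geo.Desc_mul_H hd1 hc1).2
    (Geo.Desc_mono (Nat.zero_le 1) hd1 k1), fun h2 => ?_, fun h2 => e3.2 ?_⟩
  · rw [(Geo.Anc_zero hg).mem_Desc] at k1
    rw [(Geo.Anc_zero (Geo.CA_mul_H hg hc1)).mem_Desc] at h2
    exact hc2 (Γ.sep hc1 k1 (by simpa [mul_assoc] using h2))
  · exact ⟨_, ⟨_, rfl, _, h2, rfl⟩, _, Set.inv_mem_inv.2 (h g s), by simp [mul_assoc]⟩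

theorem far_small (hN : C.N ≤ Γ.H) (hc : ∃ c ∈ Γ.H, c ∉ Γ.A) (P : G → ℕ → G)
    (hP : ∀ f, ∃ S, FN C S ∧ ∀ g s, (P g s)⁻¹ * P (g * f) s ∈ S) (L : ℕ) {η : ℝ} (hη : 0 < η) :
    ∃ W, Γ.TB W ∧ ∀ s, M.m (Far Γ P s L W) ≤ η := by
  induction L generalizing η with
  | zero => exact fa_B0 M hN hc P hP hη
  | succ L ih =>
    obtain ⟨W1, hW1, h1⟩ := ih (half_pos hη)
    obtain ⟨W2, hW2, h2⟩ := fa_B3 M hN P hP L (half_pos hη)
    refine ⟨W1 ∪ W2, hW1.union hW2, fun s => ?_⟩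
    refine (M.union_le (E1 := Far Γ P s L W1) (E2 := fa_Zs Γ P s L W2) ?_).trans
      (by linarith [h1 s, h2 s])
    rintro g ⟨e1, e2, e3⟩
    simp only [Set.mem_union, not_or] at e3
    by_cases h : P g s ∈ Γ.Desc L g
    · exact Or.inl ⟨Geo.Dom_mono (Nat.le_succ L) e1, h, e3.1⟩
    · exact Or.inr ⟨e1, e2, h, e3.2⟩

end

end Pool.Agent.H89LM

namespace Pool.Agent.H89LM
open Pool.Agent.MP_5bc3cb_al (ev ev_nil ev_cons ev_append ball ball_finite quot quot_append UA chi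
  chi_of_mem chi_of_not chi_nonneg chi_le_one rep Live)
open Filter

section
variable {G : Type} [Group G] {Γ : Geo G} {U : UA G} {C : Cen G} (M : Mean Γ U)

theorem sa_step {V : Type} [NormedAddCommGroup V] [InnerProductSpace ℝ V]
    (X : Coc Γ C V) (P : G → ℕ → G)
    (hP : ∀ f, ∃ S, FN C S ∧ ∀ g s, (P g s)⁻¹ * P (g * f) s ∈ S) :
    ∃ c0 : ℝ, 0 ≤ c0 ∧ ∀ s1 s2 z c,
      M.m (Ys Γ X.p P s1 s2 z c) ≤ M.m (Ys Γ X.p P s1 s2 (X.R⁻¹ z) (c + c0)) := by
  choose S hS h0 using hP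
  obtain ⟨b, hb0, hb⟩ := (FN.iUnion fun i : Fin Γ.d => hS (Γ.t * Γ.rB i)).p_bdd X
  have h : ∀ g i s, ‖X.p ((P g s)⁻¹ * P (g * Γ.t * Γ.rB i) s)‖ ≤ b := fun g i s => by
    rw [mul_assoc g]
    exact hb _ (Set.mem_iUnion.2 ⟨i, h0 _ g s⟩)
  refine ⟨2 * b, by positivity, fun s1 s2 z c => M.shift_le (fun g hg => hg.1) ?_⟩
  rintro g ⟨hg, e⟩ i
  refine ⟨Geo.CA_shift hg (Γ.rB_mem i), ?_⟩
  have key : ∀ s, X.p ((g * Γ.t * Γ.rB i)⁻¹ * P (g * Γ.t * Γ.rB i) s) =
      X.p (Γ.t * Γ.rB i)⁻¹ + X.R⁻¹ (X.p (g⁻¹ * P g s) + (X.R ^ Γ.n (g⁻¹ * P g s))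
        (X.p ((P g s)⁻¹ * P (g * Γ.t * Γ.rB i) s))) := fun s => by
    have : (g * Γ.t * Γ.rB i)⁻¹ * P (g * Γ.t * Γ.rB i) s = (Γ.t * Γ.rB i)⁻¹ *
        ((g⁻¹ * P g s) * ((P g s)⁻¹ * P (g * Γ.t * Γ.rB i) s)) := by group
    rw [this, X.p_mul, X.p_mul (g⁻¹ * P g s), Γ.n_inv, Γ.n_mul, Γ.n_t, Γ.n_H _ (Γ.rB_mem i),
      add_zero, zpow_neg, zpow_one]
  rw [key, key]
  set a1 := (X.R ^ Γ.n (g⁻¹ * P g s1)) (X.p ((P g s1)⁻¹ * P (g * Γ.t * Γ.rB i) s1))
  set a2 := (X.R ^ Γ.n (g⁻¹ * P g s2)) (X.p ((P g s2)⁻¹ * P (g * Γ.t * Γ.rB i) s2))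
  have h1 : ‖a1‖ ≤ b := by
    simp only [a1, LinearIsometryEquiv.norm_map]; exact h g i s1
  have h2 : ‖a2‖ ≤ b := by
    simp only [a2, LinearIsometryEquiv.norm_map]; exact h g i s2
  have : X.p (Γ.t * Γ.rB i)⁻¹ + X.R⁻¹ (X.p (g⁻¹ * P g s1) + a1) -
      (X.p (Γ.t * Γ.rB i)⁻¹ + X.R⁻¹ (X.p (g⁻¹ * P g s2) + a2)) - X.R⁻¹ z =
      X.R⁻¹ ((X.p (g⁻¹ * P g s1) - X.p (g⁻¹ * P g s2) - z) + (a1 - a2)) := by
    simp only [map_add, map_sub]; abel
  rw [this, LinearIsometryEquiv.norm_map]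
  refine (norm_add_le _ _).trans ?_
  linarith [norm_sub_le a1 a2]

theorem sa_gap1 {V : Type} [NormedAddCommGroup V] [InnerProductSpace ℝ V] [FiniteDimensional ℝ V]
    (T : V ≃ₗᵢ[ℝ] V) (hT : ∀ v, T v = v → v = 0) :
    ∃ δ : ℝ, 0 < δ ∧ ∀ z, δ * ‖z‖ ≤ ‖z - T z‖ := by
  obtain ⟨K, hK, h⟩ := LinearMap.exists_antilipschitzWith
    (LinearMap.id - T.toLinearEquiv.toLinearMap : V →ₗ[ℝ] V) (by
      rw [LinearMap.ker_eq_bot']
      intro v hv
      exact hT v (sub_eq_zero.1 hv).symm)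
  have hK' : (0 : ℝ) < K := by exact_mod_cast hK
  refine ⟨(K : ℝ)⁻¹, inv_pos.2 hK', fun z => ?_⟩
  have h1 := h.le_mul_dist z 0
  rw [map_zero, dist_zero_right, dist_zero_right] at h1
  rw [inv_mul_le_iff₀ hK']
  exact h1

theorem sa_gap {V : Type} [NormedAddCommGroup V] [InnerProductSpace ℝ V] [FiniteDimensional ℝ V]
    (X : Coc Γ C V) (J : ℕ) :
    ∃ δ : ℝ, 0 < δ ∧ ∀ k, 0 < k → k < J → ∀ z, δ * ‖z‖ ≤ ‖z - (X.R⁻¹ ^ k) z‖ := by
  induction J with
  | zero => exact ⟨1, one_pos, fun k _ h => absurd h (Nat.not_lt_zero k)⟩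
  | succ J ih =>
    obtain ⟨δ, hδ, h⟩ := ih
    rcases Nat.eq_zero_or_pos J with rfl | hJ
    · exact ⟨1, one_pos, fun k h1 h2 => by omega⟩
    obtain ⟨δ', hδ', h'⟩ := sa_gap1 (X.R⁻¹ ^ J) fun v hv => X.R_ne J hJ v (by
      have e : (X.R ^ J) ((X.R⁻¹ ^ J) v) = v := by
        change (X.R ^ J * X.R⁻¹ ^ J) v = v
        rw [inv_pow, mul_inv_cancel]; rfl
      rwa [hv] at e)
    refine ⟨min δ δ', lt_min hδ hδ', fun k h1 h2 z => ?_⟩
    rcases Nat.lt_succ_iff_lt_or_eq.1 h2 with h3 | rfl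
    · exact (mul_le_mul_of_nonneg_right (min_le_left _ _) (norm_nonneg z)).trans (h k h1 h3 z)
    · exact (mul_le_mul_of_nonneg_right (min_le_right _ _) (norm_nonneg z)).trans (h' z)

theorem stepA {V : Type} [NormedAddCommGroup V] [InnerProductSpace ℝ V] [FiniteDimensional ℝ V]
    (X : Coc Γ C V) (P : G → ℕ → G)
    (hP : ∀ f, ∃ S, FN C S ∧ ∀ g s, (P g s)⁻¹ * P (g * f) s ∈ S) {η : ℝ} (hη : 0 < η) :
    ∃ ρ : ℝ, ∀ z : V, ρ ≤ ‖z‖ → ∀ s1 s2, M.m (Ys Γ X.p P s1 s2 z 0) ≤ η := by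
  obtain ⟨J, hJ⟩ := Pool.Agent.MP_5bc3cb_al.exists_nat_small hη
  obtain ⟨c0, hc0, h⟩ := sa_step M X P hP
  obtain ⟨δ, hδ, hgap⟩ := sa_gap X J
  refine ⟨(2 * (J * c0) + 1) / δ, fun z hz s1 s2 => ?_⟩
  rw [div_le_iff₀ hδ] at hz
  refine hJ _ (M.wander J (fun j => Ys Γ X.p P s1 s2 ((X.R⁻¹ ^ j) z) (J * c0)) _
    (fun j hj => ?_) ?_)
  · have : ∀ j : ℕ, M.m (Ys Γ X.p P s1 s2 z 0) ≤
        M.m (Ys Γ X.p P s1 s2 ((X.R⁻¹ ^ j) z) (j * c0)) := by
      intro j
      induction j with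
      | zero => simp
      | succ j ih =>
        refine ih.trans ((h _ _ _ _).trans_eq ?_)
        rw [pow_succ']; push_cast; rw [add_mul, one_mul]; rfl
    refine (this j).trans (M.mono fun g hg => ⟨hg.1, hg.2.trans ?_⟩)
    exact mul_le_mul_of_nonneg_right (by exact_mod_cast hj.le) hc0
  · rintro i j hij hj g ⟨-, e1⟩ ⟨-, e2⟩
    obtain ⟨k, rfl⟩ := Nat.exists_eq_add_of_le hij.le
    have h1 := hgap k (by omega) (by omega) z
    set x := X.p (g⁻¹ * P g s1) - X.p (g⁻¹ * P g s2)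
    have h2 : (x - (X.R⁻¹ ^ (i + k)) z) - (x - (X.R⁻¹ ^ i) z) =
        (X.R⁻¹ ^ i) (z - (X.R⁻¹ ^ k) z) := by
      have : (X.R⁻¹ ^ (i + k)) z = (X.R⁻¹ ^ i) ((X.R⁻¹ ^ k) z) := by rw [pow_add]; rfl
      rw [this, map_sub]; abel
    have h3 := norm_sub_le (x - (X.R⁻¹ ^ (i + k)) z) (x - (X.R⁻¹ ^ i) z)
    rw [h2, LinearIsometryEquiv.norm_map] at h3
    linarith

end

end Pool.Agent.H89LM

namespace Pool.Agent.H89LM
open Pool.Agent.MP_5bc3cb_al (ev ev_nil ev_cons ev_append ball ball_finite quot quot_append UA chi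
  chi_of_mem chi_of_not chi_nonneg chi_le_one rep Live)
open Filter

section
variable {G : Type} [Group G] {Γ : Geo G} {U : UA G} {C : Cen G} (M : Mean Γ U)

omit M in
theorem ti_window {V : Type} [NormedAddCommGroup V] [InnerProductSpace ℝ V] (X : Coc Γ C V)
    (ρ : ℝ) (q : Set (List U.α)) : ∃ υ : List U.α, Live U q → ¬ VS U C q →
    ∀ τ, quot q τ = q → ev U.π τ ∈ Γ.H → τ ≠ [] → υ.length ≤ τ.length →
      υ <+: τ ∧ ρ ≤ ‖X.p (ev U.π υ)‖ := by
  by_cases hex : Live U q ∧ ¬ VS U C q ∧ ∃ τ0, quot q τ0 = q ∧ ev U.π τ0 ∈ Γ.H ∧ τ0 ≠ []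
  · obtain ⟨hq, hV, τ0, h0, hH, hne⟩ := hex
    have hp : 0 < ‖X.p (ev U.π τ0)‖ := norm_pos_iff.2 fun h => by
      obtain ⟨k, hk, hN⟩ := X.p_ker _ hH h
      refine hV ⟨rep τ0 k, ?_, quot_rep h0 k, by rwa [ev_rep]⟩
      rw [← List.length_pos_iff, length_rep]
      exact Nat.mul_pos hk (List.length_pos_iff.2 hne)
    obtain ⟨k, hk⟩ := exists_nat_gt (ρ / ‖X.p (ev U.π τ0)‖)
    rw [div_lt_iff₀ hp] at hk
    refine ⟨rep τ0 k, fun _ _ τ hτ hτH _ hl => ⟨?_, ?_⟩⟩
    · have e := loop_eq hq (τ := τ ++ rep τ0 k) (τ' := rep τ0 k ++ τ)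
        (by rw [quot_append, hτ, quot_rep h0]) (by rw [quot_append, quot_rep h0, hτ]) (by
        rw [ev_append, ev_append, ev_rep]; exact Γ.comm _ hτH _ (Γ.H.pow_mem hH k))
      exact List.prefix_of_prefix_length_le (List.prefix_append _ τ)
        (e ▸ List.prefix_append τ _) hl
    · rw [ev_rep, X.p_pow hH, norm_smul, Real.norm_natCast]; exact hk.le
  · exact ⟨[], fun hq hV τ hτ hH hne _ => absurd ⟨hq, hV, τ, hτ, hH, hne⟩ hex⟩

omit M in
theorem ti_run {g : G} {a b : ℕ} (h : ∀ j, a ≤ j → j ≤ b → active U C g j) {m : ℕ}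
    (hm : a + m ≤ b) : cnt U C g (b - m) + m = cnt U C g b := by
  induction m with
  | zero => simp
  | succ m ih =>
    rw [← ih (by omega), show b - m = b - (m + 1) + 1 by omega,
      cnt_succ_of_active (h _ (by omega) (by omega))]
    omega

theorem tight {V : Type} [NormedAddCommGroup V] [InnerProductSpace ℝ V] [FiniteDimensional ℝ V]
    (X : Coc Γ C V) (L : ℕ) {δ : ℝ} (hδ : 0 < δ) : ∃ T : ℕ,
    M.m {g | g ∈ Γ.Dom L ∧ ∀ s ≤ T, Bp U C g s ∈ Γ.Desc L g} ≤ δ := by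
  classical
  obtain ⟨W, ⟨F, hF, hW⟩, hfar⟩ := far_small M X.N_le X.proper (Bp U C) (bftp U C) L
    (η := δ / 4) (by positivity)
  let D := hF.toFinset ×ˢ U.finQ.toFinset
  obtain ⟨ρ, hρ⟩ := stepA M X (Bp U C) (bftp U C) (η := δ / 4 / (D.card + 1)) (by positivity)
  choose υ hυ using ti_window (U := U) X ρ
  let Wn := (U.finQ.toFinset.sup fun q => (υ q).length) + 1
  let Y : ℕ → G × Set (List U.α) → Set G := fun s c => {g | ρ ≤ ‖X.p (ev U.π (υ c.2))‖ ∧
    g ∈ Ys Γ X.p (Bp U C) (s - (υ c.2).length) s ((X.R ^ Γ.n c.1) (X.p (ev U.π (υ c.2)))) 0}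
  have hY : ∀ s c, M.m (Y s c) ≤ δ / 4 / (D.card + 1) := fun s c => by
    by_cases h : ρ ≤ ‖X.p (ev U.π (υ c.2))‖
    · refine (M.mono fun g hg => hg.2).trans (hρ _ ?_ _ _)
      rwa [LinearIsometryEquiv.norm_map]
    · refine (M.mono (E' := ∅) fun g hg => h hg.1).trans ?_
      rw [M.m_empty]; positivity
  let Bad : ℕ → Set G := fun s => {g | g ∈ Far Γ (Bp U C) s L W ∨ ∃ c ∈ D, g ∈ Y s c}
  have hBad : ∀ s, M.m (Bad s) ≤ δ / 2 := fun s => by
    have h1 := M.union_le (E := Bad s) (E1 := Far Γ (Bp U C) s L W)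
      (E2 := {g | ∃ c ∈ D, g ∈ Y s c}) fun g hg => hg
    have h2 := M.cover_le D {g | ∃ c ∈ D, g ∈ Y s c} (Y s) fun g hg => hg
    have h3 := Finset.sum_le_sum fun c (_ : c ∈ D) => hY s c
    simp only [Finset.sum_const, nsmul_eq_mul] at h3
    have h4 : (D.card : ℝ) * (δ / 4 / (D.card + 1)) ≤ δ / 4 := by
      rw [mul_div_assoc', div_le_iff₀ (by positivity)]; nlinarith
    linarith [hfar s]
  refine ⟨2 * (D.card * Wn), ?_⟩
  set N := D.card * Wn with hN
  have key := M.count_le (Finset.range (2 * N + 1))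
    {g | g ∈ Γ.Dom L ∧ ∀ s ≤ 2 * N, Bp U C g s ∈ Γ.Desc L g} Bad (N + 1) ?_
  · have h3 := Finset.sum_le_sum fun s (_ : s ∈ Finset.range (2 * N + 1)) => hBad s
    simp only [Finset.sum_const, nsmul_eq_mul, Finset.card_range] at h3
    push_cast at h3
    have hN0 : (0 : ℝ) ≤ N := Nat.cast_nonneg N
    by_contra hc
    push Not at hc
    nlinarith
  rintro g ⟨hg, hB⟩
  have hf : ∀ s, ∃ f, g⁻¹ * Bp U C g s ∈ W → f ∈ F ∧ f⁻¹ * (g⁻¹ * Bp U C g s) ∈ Γ.H := fun s => by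
    by_cases h : g⁻¹ * Bp U C g s ∈ W
    · obtain ⟨f, h1, h2⟩ := hW _ h
      exact ⟨f, fun _ => ⟨h1, h2⟩⟩
    · exact ⟨1, fun h' => absurd h' h⟩
  choose f hf using hf
  have hnear : ∀ s ≤ 2 * N, g ∉ Bad s → g⁻¹ * Bp U C g s ∈ W := fun s hs h => by
    by_contra h'
    exact h (Or.inl ⟨hg, hB s hs, h'⟩)
  let cls : ℕ → G × Set (List U.α) := fun s => (f s, stB U g (Nat.nth (active U C g) s))
  have hcls : ∀ s ≤ 2 * N, g ∉ Bad s → cls s ∈ D := fun s hs h => by
    simp only [D, cls, Finset.mem_product, Set.Finite.mem_toFinset]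
    exact ⟨(hf s (hnear s hs h)).1, _, rfl⟩
  have hgood : ∀ s s', s + Wn ≤ s' → s' ≤ 2 * N → g ∉ Bad s → g ∉ Bad s' → cls s = cls s' →
      False := by
    intro s s' hss hs' hb hb' he
    have hWn : 0 < Wn := Nat.succ_pos _
    have h1 := (hf s (hnear s (by omega) hb)).2
    have h2 := (hf s' (hnear s' hs' hb')).2
    have hBs' := hB s' hs'
    have hc1 := cnt_nth (U := U) (C := C) g s
    have hc2 := cnt_nth (U := U) (C := C) g s'
    have hact := active_nth (U := U) (C := C) g s'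
    have hab : Nat.nth (active U C g) s < Nat.nth (active U C g) s' :=
      nth_lt_of_lt_cnt (by rw [hc2]; omega)
    simp only [cls, Prod.mk.injEq, stB] at he
    simp only [Bp] at h1 h2 hBs'
    set a := Nat.nth (active U C g) s with ha
    set b := Nat.nth (active U C g) s' with hbb
    have hlen : b < (U.w g).length := by
      by_contra h
      rw [U.B_of_le (not_lt.1 h)] at hBs'
      exact Geo.one_not_Desc _ _ hBs'
    set i := (U.w g).length - b with hi
    set q := quot U.L ((U.w g).take i) with hq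
    have hV : ¬ VS U C q := hact.resolve_left (by omega)
    set τ := ((U.w g).drop i).take (b - a) with hτ
    have htk : ∀ j, a ≤ j → j ≤ b →
        (U.w g).take ((U.w g).length - j) = (U.w g).take i ++ τ.take (b - j) := fun j e1 e2 => by
      rw [hτ, List.take_take, min_eq_left (by omega), ← List.take_add]; congr 1; omega
    have hτlen : τ.length = b - a := by
      simp only [hτ, List.length_take, List.length_drop]; omega
    have htake : (U.w g).take ((U.w g).length - a) = (U.w g).take i ++ τ := by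
      rw [htk a le_rfl hab.le, List.take_of_length_le hτlen.le]
    have hBj : ∀ j, a ≤ j → j ≤ b → U.B g j = U.B g b * ev U.π (τ.take (b - j)) :=
      fun j e1 e2 => by
        simp only [UA.B, UA.F]; rw [htk j e1 e2, ev_append]
    have hBs : U.B g a = U.B g b * ev U.π τ := by
      rw [hBj a le_rfl hab.le, List.take_of_length_le hτlen.le]
    have hloop : quot q τ = q := by rw [hq, ← quot_append, ← htake, he.2]
    have hτH : ev U.π τ ∈ Γ.H := by
      rw [hBs, he.1, ← mul_assoc, ← mul_assoc, mul_assoc _ g⁻¹] at h1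
      exact (Γ.H.mul_mem_cancel_left h2).1 h1
    have hlive : Live U q := Live_take g i
    have hne : τ ≠ [] := by intro h; rw [h] at hτlen; simp at hτlen; omega
    have hall : ∀ j, a ≤ j → j ≤ b → active U C g j := fun j e1 e2 => Or.inr fun h => by
      rw [stB, htk j e1 e2, quot_append, ← hq,
        V_rot hlive (y := τ.drop (b - j)) (by rwa [List.take_append_drop])
          (by rwa [List.take_append_drop])] at h
      exact hV h
    have hba := ti_run hall (m := b - a) (by omega)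
    rw [show b - (b - a) = a by omega, hc1, hc2] at hba
    have hle : (υ q).length < Wn := Nat.lt_succ_of_le (Finset.le_sup
      (f := fun q => (υ q).length) (U.finQ.mem_toFinset.2 ⟨_, rfl⟩))
    obtain ⟨⟨r, hr⟩, hρ'⟩ := hυ q hlive hV τ hloop hτH hne (by omega)
    have hnth : Nat.nth (active U C g) (s' - (υ q).length) = b - (υ q).length := by
      have e := ti_run hall (m := (υ q).length) (by omega)
      rw [← nth_cnt (hall (b - (υ q).length) (by omega) (by omega))]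
      congr 1; omega
    have hBυ : Bp U C g (s' - (υ q).length) = U.B g b * ev U.π (υ q) := by
      rw [Bp, hnth, hBj _ (by omega) (by omega),
        show b - (b - (υ q).length) = (υ q).length by omega, ← hr, List.take_left' rfl]
    refine hb' (Or.inr ⟨cls s', hcls s' hs' hb', hρ', Geo.Dom_sub_CA hg, ?_⟩)
    have hn : Γ.n (g⁻¹ * U.B g b) = Γ.n (f s') := by
      have := Γ.n_H _ h2
      rw [Γ.n_mul, Γ.n_inv] at this; omega
    change ‖X.p (g⁻¹ * Bp U C g (s' - (υ q).length)) - X.p (g⁻¹ * U.B g b) -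
      (X.R ^ Γ.n (f s')) (X.p (ev U.π (υ q)))‖ ≤ 0
    rw [hBυ, ← mul_assoc, X.p_mul, hn]; simp
  have hcard : ((Finset.range (2 * N + 1)).filter fun s => g ∉ Bad s).card ≤
      (D ×ˢ Finset.range Wn).card := by
    refine Finset.card_le_card_of_injOn (fun s => (cls s, s % Wn)) (fun s hs => ?_) ?_
    · simp only [Finset.coe_filter, Finset.mem_range, Set.mem_ofPred_eq] at hs
      simp only [Finset.coe_product, Set.mem_prod, Finset.mem_coe, Finset.mem_range]
      exact ⟨hcls s (by omega) hs.2, Nat.mod_lt _ (Nat.succ_pos _)⟩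
    · intro s hs s' hs' he
      simp only [Finset.coe_filter, Finset.mem_range, Set.mem_ofPred_eq] at hs hs'
      simp only [Prod.mk.injEq] at he
      by_contra hne
      rcases lt_or_gt_of_ne hne with hlt | hlt
      · have := Nat.le_of_dvd (by omega) ((Nat.modEq_iff_dvd' hlt.le).1 he.2)
        exact hgood s s' (by omega) (by omega) hs.2 hs'.2 he.1
      · have := Nat.le_of_dvd (by omega) ((Nat.modEq_iff_dvd' hlt.le).1 he.2.symm)
        exact hgood s' s (by omega) (by omega) hs'.2 hs.2 he.1.symm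
  rw [Finset.card_product, Finset.card_range, ← hN] at hcard
  have h1 := Finset.card_filter_add_card_filter_not (s := Finset.range (2 * N + 1))
    (fun s => g ∈ Bad s)
  rw [Finset.card_range] at h1
  have h2 : ∑ s ∈ Finset.range (2 * N + 1), chi (Bad s) g =
      ((Finset.range (2 * N + 1)).filter fun s => g ∈ Bad s).card := by
    rw [Finset.card_filter]; push_cast
    refine Finset.sum_congr rfl fun s _ => ?_
    split_ifs with h
    · exact chi_of_mem h
    · exact chi_of_not h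
  rw [h2]
  exact_mod_cast (by omega)

end

end Pool.Agent.H89LM

namespace Pool.Agent.H89LM
open Pool.Agent.MP_5bc3cb_al (ev ev_nil ev_cons ev_append ball ball_finite quot quot_append UA chi
  chi_of_mem chi_of_not chi_nonneg chi_le_one rep Live)
open Filter

section
variable {G : Type} [Group G] {Γ : Geo G} {U : UA G} {C : Cen G} (M : Mean Γ U)

omit M in
theorem al_cnt (l : ℕ) (g : G) : cnt U C g (Tm Γ U l g) =
    actw U C (quot U.L (pre Γ U l g)) (sfx Γ U l g) := by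
  have h1 := cnt_add (C := C) g (Tm_le_len (Γ := Γ) (U := U) l g)
  have h2 := actw_append (C := C) U.L (pre Γ U l g) (sfx Γ U l g)
  rw [pre_suf] at h2
  change _ + actw U C U.L (pre Γ U l g) = _ at h1
  omega

omit M in
theorem al_pump (hN : C.N ≤ Γ.H) {l : ℕ} {g : G} (hg : g ∈ Γ.Dom (l + 1))
    {sk : List (U.α ⊕ Qt U)} (hv : Valid U C (quot U.L (pre Γ U (l + 1) g)) sk)
    {ks0 : Qt U → ℕ} (h0 : ∀ q, 1 ≤ ks0 q) (hs : sfx Γ U (l + 1) g = wd U C ks0 sk)
    (ks : Qt U → ℕ) : ∃ g', sfx Γ U (l + 1) g' = wd U C ks sk ∧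
      St Γ U (l + 1) g' = St Γ U (l + 1) g := by
  have hν := hN (W2 hv ks0 ks)
  set ν := (ev U.π (wd U C ks0 sk))⁻¹ * ev U.π (wd U C ks sk) with hνd
  have e : ev U.π (pre Γ U (l + 1) g ++ wd U C ks sk) = g * ν := by
    conv_rhs => rw [← ev_pre_suf (Γ := Γ) (U := U) (l + 1) g, hs, hνd]
    simp [mul_assoc]
  have hw : U.w (g * ν) = pre Γ U (l + 1) g ++ wd U C ks sk := by
    refine U.w_eq_of_mem ?_ e
    have h1 : [] ∈ quot (quot U.L (pre Γ U (l + 1) g)) (wd U C ks0 sk) := by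
      rw [← hs, ← quot_append, pre_suf]; simpa [quot] using U.w_mem g
    rw [W1 hv ks0 ks] at h1
    simpa [quot] using h1
  have hc := cut_char (Γ := Γ) (l := l + 1) hw (by
    rw [Geo.Desc_mul_H hg hν]; exact Tm_spec _ _) fun σ1 σ2 hσ hne => by
      rw [Geo.Desc_mul_H hg hν]
      obtain ⟨x0, e1, ⟨y, e2⟩, -, e4⟩ := W5 hv h0 ks hne ⟨σ2, hσ.symm⟩
      simpa [mul_assoc] using (Desc_mul_right (hN e4)).2 (suf_inside (hs.trans e2.symm) e1)
  refine ⟨g * ν, hc.2, ?_⟩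
  simp only [St, edge, hc.1, Prod.mk.injEq, true_and]
  ext x
  exact ⟨fun h => by simpa using Geo.Anc.mul_H h (Γ.H.inv_mem hν), fun h => Geo.Anc.mul_H h hν⟩

variable (Γ U C) in
/-- the family of a skeleton -/
def al_Cell (l : ℕ) (q : Set (List U.α) × Set G) (sk : List (U.α ⊕ Qt U)) : Set G :=
  {g | g ∈ Γ.Dom (l + 1) ∧ St Γ U (l + 1) g = q ∧
    ∃ ks : Qt U → ℕ, (∀ q, 1 ≤ ks q) ∧ sfx Γ U (l + 1) g = wd U C ks sk}

theorem al_le (hN : C.N ≤ Γ.H) {l : ℕ} {q : Set (List U.α) × Set G}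
    {sk1 sk2 : List (U.α ⊕ Qt U)} (h2 : Valid U C q.1 sk2) (hm : marks U sk1 = marks U sk2)
    (hne : (al_Cell Γ U C l q sk2).Nonempty) :
    M.m (al_Cell Γ U C l q sk1) ≤ M.m (al_Cell Γ U C l q sk2) := by
  obtain ⟨g2, hd2, rfl, ks0, h0, hs⟩ := hne
  choose γ hγ1 hγ2 using al_pump hN hd2 h2 h0 hs
  have hκ : ∀ g, ∃ ks : Qt U → ℕ, g ∈ al_Cell Γ U C l (St Γ U (l + 1) g2) sk1 →
      (∀ q, 1 ≤ ks q) ∧ sfx Γ U (l + 1) g = wd U C ks sk1 := fun g => by
    by_cases h : g ∈ al_Cell Γ U C l (St Γ U (l + 1) g2) sk1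
    · obtain ⟨ks, hks⟩ := h.2.2; exact ⟨ks, fun _ => hks⟩
    · exact ⟨ks0, fun h' => absurd h' h⟩
  choose κ hκ using hκ
  have key : ∀ g ∈ al_Cell Γ U C l (St Γ U (l + 1) g2) sk1, ∀ g', g' = ev U.π (pre Γ U (l + 1) g) *
      ev U.π (sfx Γ U (l + 1) (γ (κ g))) → g' ∈ Γ.Dom (l + 1) ∧
      pre Γ U (l + 1) g' = pre Γ U (l + 1) g ∧ sfx Γ U (l + 1) g' = wd U C (κ g) sk2 ∧
      St Γ U (l + 1) g' = St Γ U (l + 1) g := by
    rintro g hg _ rfl
    have hS : St Γ U (l + 1) g = St Γ U (l + 1) (γ (κ g)) := hg.2.1.trans (hγ2 _).symm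
    have hd : g ∈ Γ.Dom (0 + (l + 1)) := by simpa using hg.1
    exact ⟨by simpa using cp_dom hS hd, by simpa using cp_pre hS hd,
      (cp_suf hS hg.1).trans (hγ1 _),
      by simpa using cp_St hS (Nat.succ_pos _) hd (Nat.succ_pos _)⟩
  refine M.inj _ _ (fun g => ev U.π (pre Γ U (l + 1) g) * ev U.π (sfx Γ U (l + 1) (γ (κ g))))
    sk2.length (fun g hg => Geo.Dom_sub_CA hg.1) (fun g hg => Geo.Dom_sub_CA hg.1)
    (fun g hg g' hg' he => ?_) fun g hg => ?_
  · obtain ⟨-, a1, a2, -⟩ := key g hg _ rfl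
    obtain ⟨-, b1, b2, -⟩ := key g' hg' _ he
    rw [← ev_pre_suf (Γ := Γ) (U := U) (l + 1) g, ← ev_pre_suf (Γ := Γ) (U := U) (l + 1) g',
      ← a1, b1, (hκ g hg).2, (hκ g' hg').2, W4 h2 hm (a2.symm.trans b2)]
  · obtain ⟨a0, a1, a2, a3⟩ := key g hg _ rfl
    generalize ev U.π (pre Γ U (l + 1) g) * ev U.π (sfx Γ U (l + 1) (γ (κ g))) = g' at *
    refine ⟨⟨a0, a3.trans hg.2.1, κ g, (hκ g hg).1, a2⟩, ?_, ?_⟩
    · rw [← ev_pre_suf (Γ := Γ) (U := U) (l + 1) g', Γ.n_mul, n_suf a0, a1,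
        show edge Γ U (l + 1) g' = edge Γ U (l + 1) g from congrArg Prod.snd a3, ← n_suf hg.1,
        ← Γ.n_mul, ev_pre_suf]
    · rw [← pre_suf (Γ := Γ) (l + 1) g', ← pre_suf (Γ := Γ) (l + 1) g, List.length_append,
        List.length_append, a1, a2, (hκ g hg).2, add_assoc]
      exact Nat.add_le_add_left (W3 hm _) _

omit M in
theorem al_val {l : ℕ} {q : Set (List U.α) × Set G} {sk : List (U.α ⊕ Qt U)}
    (h : Valid U C q.1 sk) {g : G} (hg : g ∈ al_Cell Γ U C l q sk) :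
    cnt U C g (Tm Γ U (l + 1) g) = actw U C q.1 (wd U C (fun _ => 0) sk) := by
  obtain ⟨-, rfl, ks, -, hs⟩ := hg
  rw [al_cnt, hs]; exact W6 h _ _

theorem al_fin (hN : C.N ≤ Γ.H) (l : ℕ) (q : Set (List U.α) × Set G) (μ : List (Qt U)) :
    ∃ b, ∀ sk, Valid U C q.1 sk → marks U sk = μ → M.m (al_Cell Γ U C l q sk) ≠ 0 →
      actw U C q.1 (wd U C (fun _ => 0) sk) ≤ b := by
  classical
  have hfin : {v | ∃ sk, Valid U C q.1 sk ∧ marks U sk = μ ∧ M.m (al_Cell Γ U C l q sk) ≠ 0 ∧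
      actw U C q.1 (wd U C (fun _ => 0) sk) = v}.Finite := by
    by_contra hinf
    obtain ⟨-, sk0, -, h2, h3, -⟩ := Set.Infinite.nonempty hinf
    refine h3 (le_antisymm (Mean.le_of_forall_nat fun J => ?_) (M.nonneg _))
    obtain ⟨s, hs, hJ⟩ := Set.Infinite.exists_subset_card_eq hinf J
    choose sk e1 e2 e3 e4 using fun v : s => hs v.2
    have h4 := M.disj_le Finset.univ (fun v : s => al_Cell Γ U C l q (sk v)) Set.univ
      (fun _ _ => Set.subset_univ _) fun i _ j _ g h1 h2 => Subtype.ext (by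
        rw [← e4 i, ← e4 j, ← al_val (e1 i) h1, ← al_val (e1 j) h2])
    have h5 := Finset.sum_le_sum fun (v : s) (_ : v ∈ Finset.univ) =>
      al_le M hN (sk1 := sk0) (e1 v) (h2.trans (e2 v).symm) (l := l) (by
        rw [Set.nonempty_iff_ne_empty]; intro h; exact e3 v (by rw [h, M.m_empty]))
    rw [M.m_univ] at h4
    simpa [hJ] using h5.trans h4
  obtain ⟨b, hb⟩ := hfin.bddAbove
  exact ⟨b, fun sk h1 h2 h3 => hb ⟨sk, h1, h2, h3, rfl⟩⟩

theorem alen_bdd (hN : C.N ≤ Γ.H) (l : ℕ)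
    (ht : ∀ δ : ℝ, 0 < δ → ∃ T : ℕ, M.m {g | T < cnt U C g (Tm Γ U (l + 1) g)} ≤ δ) :
    ∃ b, ∀ᶠ g in M.ae, cnt U C g (Tm Γ U (l + 1) g) ≤ b := by
  classical
  obtain ⟨FS, hFS⟩ := St_finite Γ U
  obtain ⟨c, hc⟩ := W7 U C
  choose b hb using al_fin M hN l
  let FM := (List.finite_length_le (Qt U) c).toFinset
  refine ⟨(FS ×ˢ FM).sup fun x => b x.1 x.2, ?_⟩
  set b0 := (FS ×ˢ FM).sup fun x => b x.1 x.2 with hb0
  rw [M.ae_iff]
  refine le_antisymm (le_of_forall_pos_le_add fun δ hδ => ?_) (M.nonneg _)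
  obtain ⟨T, hT⟩ := ht δ hδ
  let FK := (FS ×ˢ (List.finite_length_le (U.α ⊕ Qt U) (T + c)).toFinset).filter
    fun x => M.m (al_Cell Γ U C l x.1 x.2) = 0
  have h0 : M.m {g | ∃ x ∈ FK, g ∈ al_Cell Γ U C l x.1 x.2} ≤ 0 :=
    (M.cover_le FK _ (fun x => al_Cell Γ U C l x.1 x.2) fun g hg => hg).trans
      (Finset.sum_eq_zero fun x hx => (Finset.mem_filter.1 hx).2).le
  have h1 := M.union_le
    (E := {g | g ∈ Γ.Dom (l + 1) ∧ ¬ cnt U C g (Tm Γ U (l + 1) g) ≤ b0})
    (E1 := {g | ∃ x ∈ FK, g ∈ al_Cell Γ U C l x.1 x.2})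
    (E2 := {g | T < cnt U C g (Tm Γ U (l + 1) g)}) fun g hg => by
      by_cases h : T < cnt U C g (Tm Γ U (l + 1) g)
      · exact Or.inr h
      obtain ⟨sk, ks, e1, e2, e3, e4, e5⟩ := hc (pre Γ U (l + 1) g) (sfx Γ U (l + 1) g)
        (by rw [pre_suf]; exact ⟨_, [], rfl, by simpa [quot] using U.w_mem g⟩)
      have hcell : g ∈ al_Cell Γ U C l (St Γ U (l + 1) g) sk := ⟨hg.1, rfl, ks, e2, e3.symm⟩
      rw [← al_cnt] at e4
      refine Or.inl ⟨(St Γ U (l + 1) g, sk), Finset.mem_filter.2 ⟨Finset.mem_product.2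
        ⟨hFS l g hg.1, (Set.Finite.mem_toFinset _).2 (by simp only [Set.mem_ofPred_eq]; omega)⟩,
        ?_⟩, hcell⟩
      by_contra hm
      refine hg.2 ((al_val (q := St Γ U (l + 1) g) e1 hcell).trans_le
        ((hb _ _ sk e1 rfl hm).trans ?_))
      exact Finset.le_sup (f := fun x => b x.1 x.2) (b := (St Γ U (l + 1) g, marks U sk))
        (Finset.mem_product.2 ⟨hFS l g hg.1, (Set.Finite.mem_toFinset _).2 e5⟩)
  have h2 := M.mono_ae (E := {g | ¬ cnt U C g (Tm Γ U (l + 1) g) ≤ b0})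
    (E' := {g | g ∈ Γ.Dom (l + 1) ∧ ¬ cnt U C g (Tm Γ U (l + 1) g) ≤ b0})
    ((M.ae_Dom (l + 1)).mono fun g hg h => ⟨hg, h⟩)
  linarith

end

end Pool.Agent.H89LM
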