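import Pool.Agent.H89LM.PartA

/-! The chain of cut states, the contradiction and the concrete groups. -/

namespace Pool.Agent.H89LM
open Pool.Agent.MP_5bc3cb_al (ev ev_nil ev_cons ev_append ball ball_finite quot quot_append UA chi
  chi_of_mem chi_of_not chi_nonneg chi_le_one rep Live)
open Filter

section
variable {G : Type} [Group G] {Γ : Geo G} {U : UA G} {C : Cen G} (M : Mean Γ U)

theorem ho_le {S Y : Type} (Q : ℕ → G → S) (Z : ℕ → G → Y)
    (hS : ∀ l1 l2 g1 g2, Q l1 g1 = Q l2 g2 → St Γ U (l1 + 1) g1 = St Γ U (l2 + 1) g2)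
    (hcp : ∀ l1 l2 g1 g2, g1 ∈ Γ.Dom (1 + (l1 + 1)) → Q l1 g1 = Q l2 g2 →
      Q l2 (ev U.π (pre Γ U (l1 + 1) g1) * ev U.π (sfx Γ U (l2 + 1) g2)) = Q l1 g1 ∧
      Z l2 (ev U.π (pre Γ U (l1 + 1) g1) * ev U.π (sfx Γ U (l2 + 1) g2)) = Z l1 g1)
    (l1 l2 : ℕ) (q : S) (B B' : Set Y) :
    M.m {g | Q l1 g = q ∧ Z l1 g ∈ B} * M.m {g | Q l2 g = q ∧ Z l2 g ∈ B'} ≤
      M.m {g | Q l1 g = q ∧ Z l1 g ∈ B'} * M.m {g | Q l2 g = q ∧ Z l2 g ∈ B} := by
  have h1 : ∀ (l : ℕ) (E : Set G), M.m E ≤ M.m (E ∩ Γ.Dom (1 + (l + 1))) := fun l E =>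
    M.mono_ae ((M.ae_Dom _).mono fun g hg h => ⟨h, hg⟩)
  have h2 : ∀ (l : ℕ) (E : Set G), E ∩ Γ.Dom (1 + (l + 1)) ⊆ Γ.CA := fun l E g hg =>
    Geo.Dom_sub_CA hg.2
  have h3 : ∀ l l' g g', g ∈ Γ.Dom (1 + (l + 1)) → Q l g = Q l' g' →
      pre Γ U (l' + 1) (ev U.π (pre Γ U (l + 1) g) * ev U.π (sfx Γ U (l' + 1) g')) =
        pre Γ U (l + 1) g ∧
      sfx Γ U (l' + 1) (ev U.π (pre Γ U (l + 1) g) * ev U.π (sfx Γ U (l' + 1) g')) =
        sfx Γ U (l' + 1) g' := fun l l' g g' hg e => by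
    have hg' := Geo.Dom_mono (Nat.le_add_left (l + 1) 1) hg
    exact ⟨by simpa using cp_pre (j := 0) (hS _ _ _ _ e) (by simpa using hg'),
      cp_suf (hS _ _ _ _ e) hg'⟩
  refine (mul_le_mul (h1 l1 _) (h1 l2 _) (M.nonneg _) (M.nonneg _)).trans
    ((M.swap _ _ _ _ (fun x => (ev U.π (pre Γ U (l2 + 1) x.2) * ev U.π (sfx Γ U (l1 + 1) x.1),
      ev U.π (pre Γ U (l1 + 1) x.1) * ev U.π (sfx Γ U (l2 + 1) x.2))) (h2 l1 _) (h2 l2 _)
      (h2 l1 {g | Q l1 g = q ∧ Z l1 g ∈ B'}) (h2 l2 {g | Q l2 g = q ∧ Z l2 g ∈ B}) ?_ ?_).trans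
      (mul_le_mul (M.mono Set.inter_subset_left) (M.mono Set.inter_subset_left) (M.nonneg _)
        (M.nonneg _)))
  · rintro ⟨g1, g2⟩ ⟨⟨a1, a2⟩, a3, a4⟩ ⟨g1', g2'⟩ ⟨⟨b1, b2⟩, b3, b4⟩ e
    obtain ⟨e1, e2⟩ := Prod.mk.inj e
    obtain ⟨c1, c2⟩ := h3 l1 l2 g1 g2 a2 (a1.1.trans a3.1.symm)
    obtain ⟨c3, c4⟩ := h3 l2 l1 g2 g1 a4 (a3.1.trans a1.1.symm)
    obtain ⟨d1, d2⟩ := h3 l1 l2 g1' g2' b2 (b1.1.trans b3.1.symm)
    obtain ⟨d3, d4⟩ := h3 l2 l1 g2' g1' b4 (b3.1.trans b1.1.symm)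
    rw [e2] at c1 c2
    rw [e1] at c3 c4
    refine Prod.ext ?_ ?_
    · change g1 = g1'
      rw [← ev_pre_suf (Γ := Γ) (U := U) (l1 + 1) g1, ← c1, ← c4, d1, d4, ev_pre_suf]
    · change g2 = g2'
      rw [← ev_pre_suf (Γ := Γ) (U := U) (l2 + 1) g2, ← c3, ← c2, d3, d2, ev_pre_suf]
  · rintro ⟨g1, g2⟩ ⟨⟨a1, a2⟩, a3, a4⟩
    have e1 : Q l1 g1 = Q l2 g2 := a1.1.trans a3.1.symm
    obtain ⟨c1, c2⟩ := hcp l1 l2 g1 g2 a2 e1
    obtain ⟨c3, c4⟩ := hcp l2 l1 g2 g1 a4 e1.symm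
    refine ⟨⟨⟨⟨c3.trans a3.1, c4 ▸ a3.2⟩, cp_dom (hS _ _ _ _ e1.symm) a4⟩,
      ⟨c1.trans a1.1, c2 ▸ a1.2⟩, cp_dom (hS _ _ _ _ e1) a2⟩, ?_, ?_⟩
    · have n1 := congrArg Γ.n (ev_pre_suf (Γ := Γ) (U := U) (l1 + 1) g1)
      have n2 := congrArg Γ.n (ev_pre_suf (Γ := Γ) (U := U) (l2 + 1) g2)
      simp only [Γ.n_mul] at n1 n2 ⊢
      omega
    · have n1 := congrArg List.length (pre_suf (Γ := Γ) (U := U) (l1 + 1) g1)
      have n2 := congrArg List.length (pre_suf (Γ := Γ) (U := U) (l2 + 1) g2)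
      simp only [cp_w (hS _ _ _ _ e1), cp_w (hS _ _ _ _ e1.symm), List.length_append] at n1 n2 ⊢
      omega

theorem homog {S Y : Type} (Q : ℕ → G → S) (Z : ℕ → G → Y)
    (hS : ∀ l1 l2 g1 g2, Q l1 g1 = Q l2 g2 → St Γ U (l1 + 1) g1 = St Γ U (l2 + 1) g2)
    (hcp : ∀ l1 l2 g1 g2, g1 ∈ Γ.Dom (1 + (l1 + 1)) → Q l1 g1 = Q l2 g2 →
      Q l2 (ev U.π (pre Γ U (l1 + 1) g1) * ev U.π (sfx Γ U (l2 + 1) g2)) = Q l1 g1 ∧
      Z l2 (ev U.π (pre Γ U (l1 + 1) g1) * ev U.π (sfx Γ U (l2 + 1) g2)) = Z l1 g1)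
    (l1 l2 : ℕ) (q : S) (B : Set Y) :
    M.m {g | Q l1 g = q ∧ Z l1 g ∈ B} * M.m {g | Q l2 g = q} =
      M.m {g | Q l1 g = q} * M.m {g | Q l2 g = q ∧ Z l2 g ∈ B} := by
  have h1 := ho_le M Q Z hS hcp l1 l2 q B Set.univ
  have h2 := ho_le M Q Z hS hcp l1 l2 q Set.univ B
  simp only [Set.mem_univ, and_true] at h1 h2
  exact le_antisymm h1 h2

theorem ho_cnt (l : ℕ) (g : G) :
    cnt U C g (Tm Γ U l g) + actw U C U.L (pre Γ U l g) = actw U C U.L (U.w g) :=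
  cnt_add g (Tm_le_len l g)

theorem ho_step (hb : ∀ l, ∃ b, ∀ᶠ g in M.ae, cnt U C g (Tm Γ U (l + 1) g) ≤ b) :
    ∃ b, ∀ l, ∀ᶠ g in M.ae,
      cnt U C g (Tm Γ U (l + 2) g) ≤ cnt U C g (Tm Γ U (l + 1) g) + b := by
  obtain ⟨FS, hFS⟩ := St_finite Γ U
  let Z : ℕ → G → ℕ := fun l g =>
    actw U C U.L (pre Γ U (l + 1) g) - actw U C U.L (pre Γ U (1 + (l + 1)) g)
  have hZ : ∀ l g, Z l g =
      cnt U C g (Tm Γ U (l + 2) g) - cnt U C g (Tm Γ U (l + 1) g) := fun l g => by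
    have h1 := ho_cnt (Γ := Γ) (U := U) (C := C) (l + 1) g
    have h2 := ho_cnt (Γ := Γ) (U := U) (C := C) (l + 2) g
    simp only [Z, show 1 + (l + 1) = l + 2 by ring]
    omega
  have key : ∀ q, ∃ b, ∀ l, M.m {g | St Γ U (l + 1) g = q ∧ Z l g ∈ Set.Ioi b} = 0 := by
    intro q
    by_cases h : ∀ l, M.m {g | St Γ U (l + 1) g = q} = 0
    · exact ⟨0, fun l => le_antisymm ((M.mono fun g hg => hg.1).trans (h l).le) (M.nonneg _)⟩
    push Not at h
    obtain ⟨l0, h0⟩ := h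
    obtain ⟨b, hb⟩ := hb (l0 + 1)
    refine ⟨b, fun l => ?_⟩
    have h1 := homog M (fun l => St Γ U (l + 1)) Z (fun _ _ _ _ h => h)
      (fun l1 l2 g1 g2 h1 hS => by
        have h1' := Geo.Dom_mono (Nat.le_add_left (l1 + 1) 1) h1
        refine ⟨?_, ?_⟩
        · simpa using cp_St (j := 0) hS (Nat.succ_pos _) (by simpa using h1') (Nat.succ_pos _)
        · simp only [Z]
          rw [cp_pre hS h1]
          congr 2
          simpa using cp_pre (j := 0) hS (by simpa using h1')) l l0 q (Set.Ioi b)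
    have h2 : M.m {g | St Γ U (l0 + 1) g = q ∧ Z l0 g ∈ Set.Ioi b} = 0 := by
      rw [← M.ae_not_mem]
      filter_upwards [hb] with g hg h
      have h3 : b < Z l0 g := h.2
      rw [hZ] at h3
      rw [show l0 + 1 + 1 = l0 + 2 by ring] at hg
      omega
    rw [h2, mul_zero] at h1
    exact (mul_eq_zero.1 h1).resolve_right h0
  choose b hb using key
  refine ⟨FS.sup b, fun l => ?_⟩
  have h1 : ∀ᶠ g in M.ae, ∀ q ∈ FS, g ∉ {g | St Γ U (l + 1) g = q ∧ Z l g ∈ Set.Ioi (b q)} :=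
    (Filter.eventually_all_finset _).2 fun q _ => M.ae_not_mem.2 (hb q l)
  filter_upwards [h1, M.ae_Dom (l + 1)] with g h1 hg
  have h2 := hFS l g hg
  have h3 : ¬ b (St Γ U (l + 1) g) < Z l g := fun h => h1 _ h2 ⟨rfl, h⟩
  have h4 : b (St Γ U (l + 1) g) ≤ FS.sup b := Finset.le_sup h2
  rw [hZ] at h3
  omega

theorem steps_bdd (hb : ∀ l, ∃ b, ∀ᶠ g in M.ae, cnt U C g (Tm Γ U (l + 1) g) ≤ b) (K : ℕ) :
    ∃ b, ∀ l, ∀ᶠ g in M.ae,
      cnt U C g (Tm Γ U (K + (l + 1)) g) ≤ cnt U C g (Tm Γ U (l + 1) g) + b := by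
  obtain ⟨b, hb⟩ := ho_step M hb
  induction K with
  | zero => exact ⟨0, fun l => by simp⟩
  | succ K ih =>
    obtain ⟨b', hb'⟩ := ih
    refine ⟨b' + b, fun l => ?_⟩
    filter_upwards [hb' l, hb (K + l)] with g h1 h2
    rw [show K + 1 + (l + 1) = K + l + 2 by ring]
    rw [← add_assoc] at h1
    omega

end

end Pool.Agent.H89LM

namespace Pool.Agent.H89LM
open Pool.Agent.MP_5bc3cb_al (ev ev_nil ev_cons ev_append ball ball_finite quot quot_append UA chi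
  chi_of_mem chi_of_not chi_nonneg chi_le_one rep Live)
open Filter

section
variable {G : Type} [Group G] {Γ : Geo G} {U : UA G} {C : Cen G} (M : Mean Γ U)

theorem wi_loop {g : G} {i i' j : ℕ} (h1 : i < i') (h2 : ¬ active U C g i')
    (he : stB U g i = stB U g i') (h3 : i ≤ j) (h4 : j ≤ i') : ¬ active U C g j := by
  rw [active, not_or, not_le, not_not] at h2 ⊢
  obtain ⟨x, hx⟩ : (U.w g).take ((U.w g).length - i') <+: (U.w g).take ((U.w g).length - j) :=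
    List.take_prefix_take_left (by omega)
  obtain ⟨y, hy⟩ : (U.w g).take ((U.w g).length - j) <+: (U.w g).take ((U.w g).length - i) :=
    List.take_prefix_take_left (by omega)
  have e1 : quot (stB U g i') x = stB U g j := by rw [stB, stB, ← quot_append, hx]
  have e2 : quot (stB U g i') (x ++ y) = stB U g i' := by
    rw [quot_append, e1, ← he, stB, stB, ← quot_append, hy]
  have e3 : x ++ y ≠ [] := by
    intro h
    have k1 := congrArg List.length hx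
    have k2 := congrArg List.length hy
    have k3 := congrArg List.length h
    simp only [List.length_append, List.length_take, List.length_nil] at k1 k2 k3
    omega
  exact ⟨by omega, e1 ▸ (V_rot (Live_take g _) e2 e3).2 h2.2⟩

theorem wi_cnt {g : G} {i t : ℕ} (h1 : i ≤ t) (h : ∀ j, i ≤ j → j < t → ¬ active U C g j) :
    cnt U C g t = cnt U C g i := by
  induction t, h1 using Nat.le_induction with
  | base => rfl
  | succ t ht ih =>
    rw [cnt_succ_of_not (h t ht (by omega)), ih fun j k1 k2 => h j k1 (by omega)]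

theorem win_sum (hN : C.N ≤ Γ.H) (K : ℕ) :
    ∃ D : ℝ, ∀ J, ∑ l ∈ Finset.range J, M.m (Vw Γ U C K l) ≤ D := by
  classical
  obtain ⟨S, hS, hB⟩ := segB U C 0
  obtain ⟨K0, hK⟩ := hS.inv.margin hN
  have := Fintype.ofFinite (Qt U)
  refine ⟨(Fintype.card (Qt U) * (K + K0 + 1) : ℕ), fun J => ?_⟩
  have key : ∀ g ∈ Γ.Dom (K0 + K + J + 1), ((Finset.range J).filter fun l => g ∈ Vw Γ U C K l).card ≤
      Fintype.card (Qt U) * (K + K0 + 1) := by
    intro g hg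
    have h0 : ∀ l, ∃ i, g ∈ Vw Γ U C K l →
        Tm Γ U (l + 1) g ≤ i ∧ i < Tm Γ U (K + (l + 1)) g ∧ ¬ active U C g i := fun l => by
      by_cases h : g ∈ Vw Γ U C K l
      · exact h.imp fun _ hi _ => hi
      · exact ⟨0, fun k => absurd k h⟩
    choose i hi using h0
    have hgood : ∀ l l', l + (K + K0 + 1) ≤ l' → l' < J → g ∈ Vw Γ U C K l → g ∈ Vw Γ U C K l' →
        stB U g (i l) ≠ stB U g (i l') := by
      intro l l' h1 h2 h3 h4 he
      obtain ⟨-, a2, -⟩ := hi l h3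
      obtain ⟨b1, -, b3⟩ := hi l' h4
      have d1 : g ∈ Γ.Dom (l' + 1) := Geo.Dom_mono (by omega) hg
      have t1 : Tm Γ U (K + (l + 1)) g ≤ Tm Γ U (l' + 1) g := Tm_mono (by omega) d1
      have c1 : cnt U C g (Tm Γ U (l' + 1) g) = cnt U C g (i l) :=
        wi_cnt (by omega) fun j k1 k2 => wi_loop (by omega) b3 he k1 (by omega)
      have s1 := hB g (i l) (Tm Γ U (l' + 1) g) (by omega) (by omega)
      have s2 := hK (K + (l + 1)) g (Geo.Dom_mono (by omega) hg) _ (Tm_min a2)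
        ((U.B g (i l))⁻¹ * U.B g (Tm Γ U (l' + 1) g)) (by simpa using s1)
      rw [mul_inv_cancel_left] at s2
      exact Tm_spec (l' + 1) g (Geo.Desc_mono (by omega) d1 s2)
    have hcard : ((Finset.range J).filter fun l => g ∈ Vw Γ U C K l).card ≤
        ((Finset.univ : Finset (Qt U)) ×ˢ Finset.range (K + K0 + 1)).card := by
      refine Finset.card_le_card_of_injOn
        (fun l => ((⟨stB U g (i l), _, rfl⟩ : Qt U), l % (K + K0 + 1))) (fun l _ => ?_) ?_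
      · simp only [Finset.coe_product, Set.mem_prod, Finset.mem_coe, Finset.mem_range]
        exact ⟨Finset.mem_univ _, Nat.mod_lt _ (Nat.succ_pos _)⟩
      · intro l hl l' hl' he
        simp only [Finset.coe_filter, Finset.mem_range, Set.mem_ofPred_eq] at hl hl'
        simp only [Prod.mk.injEq, Subtype.mk.injEq] at he
        by_contra hne
        rcases lt_or_gt_of_ne hne with hlt | hlt
        · have := Nat.le_of_dvd (by omega) ((Nat.modEq_iff_dvd' hlt.le).1 he.2)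
          exact hgood l l' (by omega) hl'.1 hl.2 hl'.2 he.1
        · have := Nat.le_of_dvd (by omega) ((Nat.modEq_iff_dvd' hlt.le).1 he.2.symm)
          exact hgood l' l (by omega) hl.1 hl'.2 hl.2 he.1.symm
    rwa [Finset.card_product, Finset.card_range, Finset.card_univ] at hcard
  have h := M.le_ae (Finset.range J) {()} (fun _ => 1) (Vw Γ U C K)
    (fun _ => ((Fintype.card (Qt U) * (K + K0 + 1) : ℕ) : ℝ)) (fun _ => Set.univ)
    ((M.ae_Dom (K0 + K + J + 1)).mono fun g hg => by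
      have h2 : ∑ l ∈ Finset.range J, 1 * chi (Vw Γ U C K l) g =
          ((Finset.range J).filter fun l => g ∈ Vw Γ U C K l).card := by
        rw [Finset.card_filter]; push_cast
        refine Finset.sum_congr rfl fun s _ => ?_
        rw [one_mul]
        split_ifs with h
        · exact chi_of_mem h
        · exact chi_of_not h
      rw [h2, Finset.sum_singleton, chi_of_mem (Set.mem_univ g), mul_one]
      exact_mod_cast key g hg)
  simpa [M.m_univ] using h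

end

end Pool.Agent.H89LM

namespace Pool.Agent.H89LM
open Pool.Agent.MP_5bc3cb_al (ev ev_nil ev_cons ev_append ball ball_finite quot quot_append UA chi
  chi_of_mem chi_of_not chi_nonneg chi_le_one rep Live)
open Filter

section
variable {G : Type} [Group G] {Γ : Geo G} {U : UA G} {C : Cen G} (M : Mean Γ U)

theorem pa_inter {S : Set G} {K l : ℕ} (hK : ∀ l, ∀ g ∈ Γ.Dom (K + l), ∀ y ∈ Γ.Desc l g,
      ∀ κ ∈ S, y * κ ∈ Γ.Desc (K + l) g) {g a : G} (hg : g ∈ Γ.Dom (K + (l + 1))) (ha : a ∈ Γ.H)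
    (h : ∀ s, (U.B g s)⁻¹ * U.B (g * a) s ∈ S) :
    Tm Γ U (l + 1) g ≤ Tm Γ U (K + (l + 1)) (g * a) := by
  refine Tm_le fun h2 => Tm_spec (Γ := Γ) (U := U) (K + (l + 1)) (g * a) ?_
  have := hK _ g hg _ h2 _ (h (Tm Γ U (K + (l + 1)) (g * a)))
  rw [mul_inv_cancel_left] at this
  exact (Geo.Desc_mul_H (d := K + l) hg ha).2 this

theorem pa_act {g : G} {T : ℕ} (k : ℕ) (h : ∀ i, T ≤ i → i < T + k → active U C g i) :
    cnt U C g (T + k) = cnt U C g T + k := by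
  induction k with
  | zero => rfl
  | succ k ih =>
    rw [← add_assoc, cnt_succ_of_active (h _ (by omega) (by omega)),
      ih fun i h1 h2 => h i h1 (by omega), add_assoc]

theorem pa_win {K l b : ℕ} {g : G} (hV : g ∉ Vw Γ U C K l)
    (h : cnt U C g (Tm Γ U (K + (l + 1)) g) ≤ cnt U C g (Tm Γ U (l + 1) g) + b) :
    Tm Γ U (K + (l + 1)) g ≤ Tm Γ U (l + 1) g + b := by
  rcases le_total (Tm Γ U (K + (l + 1)) g) (Tm Γ U (l + 1) g) with h1 | h1
  · omega
  · obtain ⟨k, hk⟩ := Nat.exists_eq_add_of_le h1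
    rw [hk, pa_act k fun i h2 h3 => not_not.1 fun h4 => hV ⟨i, h2, hk ▸ h3, h4⟩] at h
    omega

open Pointwise in
theorem pair_bdd (hN : C.N ≤ Γ.H)
    (hb : ∀ l, ∃ b, ∀ᶠ g in M.ae, cnt U C g (Tm Γ U (l + 1) g) ≤ b) {a : G} (ha : a ∈ Γ.H) :
    ∃ (FQ : Finset _) (Bad : ℕ → Set G) (D : ℝ) (S : Set G),
      (∀ J, ∑ l ∈ Finset.range J, M.m (Bad l) ≤ D) ∧ FN C S ∧
      ∀ l, ∀ᶠ g in M.ae, (PSt Γ U a (l + 1) g).2.2 ∈ S ∧ (g ∉ Bad l → PSt Γ U a (l + 1) g ∈ FQ) := by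
  obtain ⟨FS, hFS⟩ := St_finite Γ U
  obtain ⟨S0, hS0, h0⟩ := U.bft a
  obtain ⟨K, hK⟩ := Γ.margin (hS0.union hS0.inv)
  obtain ⟨b, hb'⟩ := steps_bdd M hb K
  obtain ⟨S1, hS1, h1⟩ := segB U C b
  obtain ⟨D, hD⟩ := win_sum M hN K
  refine ⟨FS ×ˢ FS ×ˢ (((ball_finite U.π b).union (ball_finite U.π b).inv).mul hS0).toFinset,
    fun l => Vw Γ U C K l ∪ {g | g * a ∈ Vw Γ U C K l}, D + D, S1⁻¹ * S0 ∪ S0 * S1,
    fun J => ?_, (hS1.inv.mul (FN_finite hS0)).union ((FN_finite hS0).mul hS1), fun l => ?_⟩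
  · refine le_trans (Finset.sum_le_sum fun l _ => (M.union_le (E1 := Vw Γ U C K l)
      (E2 := {g | g * a ∈ Vw Γ U C K l}) fun g hg => hg)) ?_
    simp only [M.H_eq _ ha, Finset.sum_add_distrib]
    exact add_le_add (hD J) (hD J)
  filter_upwards [hb' l, M.ae_mul_H (hb' l) ha, M.ae_Dom (K + (l + 1))] with g h2 h3 hg
  have hga : g * a ∈ Γ.Dom (K + (l + 1)) := Geo.Dom_mul_H (d := K + l) hg ha
  have i1 := pa_inter (U := U) hK hg ha fun s => Or.inl (h0 g s)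
  have i2 := pa_inter (U := U) hK hga (Γ.H.inv_mem ha) fun s => Or.inr (by simpa using h0 g s)
  rw [mul_inv_cancel_right] at i2
  refine ⟨?_, fun hB => ?_⟩
  · simp only [PSt, ev_pre]
    rcases le_total (Tm Γ U (l + 1) g) (Tm Γ U (l + 1) (g * a)) with h | h
    · refine Or.inl ⟨_, Set.inv_mem_inv.2 (h1 g _ _ h ((cnt_mono g i2).trans h2)), _,
        h0 g (Tm Γ U (l + 1) (g * a)), ?_⟩
      simp [mul_assoc]
    · refine Or.inr ⟨_, h0 g (Tm Γ U (l + 1) g), _,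
        h1 (g * a) _ _ h ((cnt_mono _ i1).trans h3), ?_⟩
      simp [mul_assoc]
  · have j1 := pa_win (fun h => hB (Or.inl h)) h2
    have j2 := pa_win (fun h => hB (Or.inr h)) h3
    simp only [PSt, Finset.mem_product, Set.Finite.mem_toFinset]
    refine ⟨hFS l g (Geo.Dom_mono (Nat.le_add_left _ K) hg),
      hFS l _ (Geo.Dom_mono (Nat.le_add_left _ K) hga), _,
      U.B_seg g (i := Tm Γ U (l + 1) g) (j := Tm Γ U (l + 1) (g * a)) (by omega) (by omega),
      _, h0 g (Tm Γ U (l + 1) (g * a)), ?_⟩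
    simp [ev_pre, mul_assoc]

end

end Pool.Agent.H89LM

namespace Pool.Agent.H89LM
open Pool.Agent.MP_5bc3cb_al (ev ev_nil ev_cons ev_append ball ball_finite quot quot_append UA chi
  chi_of_mem chi_of_not chi_nonneg chi_le_one rep Live)
open Filter

section
variable {G : Type} [Group G] {Γ : Geo G} {U : UA G} {C : Cen G} (M : Mean Γ U)

omit [Group G] in
theorem dr_sum {β : Type} (F : Finset β) (X : G → β) (ψ : β → ℝ) {g : G} (hg : X g ∈ F) :
    ∑ x ∈ F, ψ x * chi {g | X g = x} g = ψ (X g) := by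
  rw [Finset.sum_eq_single_of_mem _ hg fun x _ hx => by
    rw [chi_of_not (E := {g | X g = x}) (fun h => hx (Eq.symm h)), mul_zero],
    chi_of_mem (E := {g' | X g' = X g}) rfl, mul_one]

omit [Group G] in
theorem dr_sum0 {β : Type} (F : Finset β) (X : G → β) (ψ : β → ℝ) {g : G} (hg : X g ∉ F) :
    ∑ x ∈ F, ψ x * chi {g | X g = x} g = 0 :=
  Finset.sum_eq_zero fun x hx => by
    rw [chi_of_not (E := {g | X g = x}) (fun h => hg ((show X g = x from h) ▸ hx)), mul_zero]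

theorem dr_gen {V β : Type} [NormedAddCommGroup V] [InnerProductSpace ℝ V] {a : G}
    (ha : a ∈ Γ.H) (F : Finset V) (Y : G → V) (FQ : Finset β) (P : G → β) (φ : β → V) (v : V)
    {c : ℝ} (hc : 0 ≤ c) (Bad : Set G) (hY : ∀ᶠ g in M.ae, Y g ∈ F)
    (h : ∀ᶠ g in M.ae, v + Y (g * a) = Y g + φ (P g) ∧ ‖φ (P g)‖ ≤ c ∧ (g ∉ Bad → P g ∈ FQ)) :
    ‖∑ q ∈ FQ, M.m {g | P g = q} • φ q - v‖ ≤ c * M.m Bad := by
  set z : V := v - ∑ q ∈ FQ, M.m {g | P g = q} • φ q with hz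
  have h1 := M.le_ae (({()} : Finset Unit).disjSum F) (F.disjSum (FQ.disjSum ({()} : Finset Unit)))
    (Sum.elim (fun _ => inner ℝ z v) fun x => inner ℝ z x)
    (Sum.elim (fun _ => Set.univ) fun x => {g | Y (g * a) = x})
    (Sum.elim (fun x => inner ℝ z x) (Sum.elim (fun q => inner ℝ z (φ q)) fun _ => ‖z‖ * c))
    (Sum.elim (fun x => {g | Y g = x}) (Sum.elim (fun q => {g | P g = q}) fun _ => Bad)) (by
      filter_upwards [hY, M.ae_mul_H hY ha, h] with g h1 h2 ⟨e, hφ, hB⟩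
      simp only [Finset.sum_disjSum, Sum.elim_inl, Sum.elim_inr, Finset.sum_singleton]
      rw [dr_sum F (fun g => Y (g * a)) (fun x => inner ℝ z x) h2,
        dr_sum F Y (fun x => inner ℝ z x) h1, chi_of_mem (Set.mem_univ g), mul_one,
        ← inner_add_right, e, inner_add_right]
      refine add_le_add_right ?_ _
      by_cases hP : P g ∈ FQ
      · rw [dr_sum FQ P (fun q => inner ℝ z (φ q)) hP]
        exact le_add_of_nonneg_right (mul_nonneg (mul_nonneg (norm_nonneg _) hc) (chi_nonneg _ _))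
      · rw [dr_sum0 FQ P (fun q => inner ℝ z (φ q)) hP, zero_add,
          chi_of_mem (not_not.1 fun hg => hP (hB hg)), mul_one]
        exact (real_inner_le_norm _ _).trans (mul_le_mul_of_nonneg_left hφ (norm_nonneg _)))
  simp only [Finset.sum_disjSum, Sum.elim_inl, Sum.elim_inr, Finset.sum_singleton, M.m_univ,
    mul_one] at h1
  have h2 : ∑ x ∈ F, inner ℝ z x * M.m {g | Y (g * a) = x} =
      ∑ x ∈ F, inner ℝ z x * M.m {g | Y g = x} :=
    Finset.sum_congr rfl fun x _ => by rw [← M.H_eq {g | Y g = x} ha]; rfl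
  have h3 : inner ℝ z z = inner ℝ z v - ∑ q ∈ FQ, inner ℝ z (φ q) * M.m {g | P g = q} := by
    conv_lhs => rw [hz, inner_sub_right, ← hz, inner_sum]
    simp only [real_inner_smul_right, mul_comm]
  rw [real_inner_self_eq_norm_sq] at h3
  have h4 : ‖z‖ * ‖z‖ ≤ ‖z‖ * (c * M.m Bad) := by nlinarith
  rw [norm_sub_rev, ← hz]
  rcases (norm_nonneg z).eq_or_lt with h0 | h0
  · rw [← h0]; exact mul_nonneg hc (M.nonneg _)
  · exact le_of_mul_le_mul_left h4 h0

theorem dr_key {V : Type} [NormedAddCommGroup V] [InnerProductSpace ℝ V] (X : Coc Γ C V) {a : G}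
    (ha : a ∈ Γ.H) {l : ℕ} {g : G} (hg : g ∈ Γ.Dom l) :
    (X.R ^ l) (X.p a) + (X.R ^ l) (X.p (ev U.π (sfx Γ U l (g * a)))⁻¹) =
      (X.R ^ l) (X.p (ev U.π (sfx Γ U l g))⁻¹) +
        (X.R ^ (-nu Γ (PSt Γ U a l g).1.2)) (X.p (PSt Γ U a l g).2.2) := by
  have e : a * (ev U.π (sfx Γ U l (g * a)))⁻¹ = (ev U.π (sfx Γ U l g))⁻¹ *
      ((ev U.π (pre Γ U l g))⁻¹ * ev U.π (pre Γ U l (g * a))) := by
    rw [← mul_assoc, ← mul_inv_rev, ev_pre_suf, mul_inv_eq_iff_eq_mul, mul_assoc, ev_pre_suf,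
      inv_mul_cancel_left]
  have e2 := congrArg X.p e
  rw [X.p_mul_H ha, X.p_mul, Γ.n_inv, n_suf hg] at e2
  have e3 : X.R ^ l * X.R ^ (-(nu Γ (edge Γ U l g) + l)) = X.R ^ (-nu Γ (edge Γ U l g)) := by
    rw [← zpow_natCast, ← zpow_add]; congr 1; ring
  rw [← map_add, e2, map_add]
  congr 1
  exact congrArg (fun T : V ≃ₗᵢ[ℝ] V => T _) e3

theorem drift {V : Type} [NormedAddCommGroup V] [InnerProductSpace ℝ V] (X : Coc Γ C V)
    (hb : ∀ l, ∃ b, ∀ᶠ g in M.ae, cnt U C g (Tm Γ U (l + 1) g) ≤ b) {a : G} (ha : a ∈ Γ.H)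
    {S : Set G} (hS : FN C S) : ∃ c : ℝ, 0 ≤ c ∧ ∀ (l : ℕ) (FQ : Finset _) (Bad : Set G),
      (∀ᶠ g in M.ae, (PSt Γ U a (l + 1) g).2.2 ∈ S ∧ (g ∉ Bad → PSt Γ U a (l + 1) g ∈ FQ)) →
      ‖∑ q ∈ FQ, M.m {g | PSt Γ U a (l + 1) g = q} • (X.R ^ (-nu Γ q.1.2)) (X.p q.2.2) -
        (X.R ^ l) (X.R (X.p a))‖ ≤ c * M.m Bad := by
  obtain ⟨c, hc, hcS⟩ := hS.p_bdd X
  refine ⟨c, hc, fun l FQ Bad h => ?_⟩
  obtain ⟨b, hb⟩ := hb l
  obtain ⟨S1, hS1, h1⟩ := segB U C b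
  have hF := (hS1.inv.p_finite X).image (X.R ^ (l + 1))
  refine dr_gen M ha hF.toFinset
    (fun g => (X.R ^ (l + 1)) (X.p (ev U.π (sfx Γ U (l + 1) g))⁻¹)) FQ (PSt Γ U a (l + 1))
    (fun q => (X.R ^ (-nu Γ q.1.2)) (X.p q.2.2)) _ hc Bad ?_ ?_
  · filter_upwards [hb] with g hg
    rw [Set.Finite.mem_toFinset]
    refine ⟨_, ⟨_, ?_, rfl⟩, rfl⟩
    have h2 := h1 g 0 (Tm Γ U (l + 1) g) (Nat.zero_le _) (hg.trans (Nat.le_add_left _ _))
    rw [U.B_zero, ← ev_pre] at h2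
    rw [Set.mem_inv, inv_inv, ← inv_mul_cancel_left (ev U.π (pre Γ U (l + 1) g))
      (ev U.π (sfx Γ U (l + 1) g)), ev_pre_suf]
    exact h2
  · filter_upwards [h, M.ae_Dom (l + 1)] with g ⟨h2, h3⟩ hg
    refine ⟨?_, ?_, h3⟩
    · rw [← dr_key X ha hg, pow_succ]; rfl
    · rw [LinearIsometryEquiv.norm_map]; exact hcS _ h2

end

end Pool.Agent.H89LM

namespace Pool.Agent.H89LM
open Pool.Agent.MP_5bc3cb_al (ev ev_nil ev_cons ev_append ball ball_finite quot quot_append UA chi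
  chi_of_mem chi_of_not chi_nonneg chi_le_one rep Live)
open Filter

section

theorem pe_succ {V : Type} [NormedAddCommGroup V] [InnerProductSpace ℝ V] (R : V ≃ₗᵢ[ℝ] V)
    (k : ℕ) (v : V) : (R ^ (k + 1)) v = R ((R ^ k) v) := by
  rw [pow_succ']
  rfl

theorem pe_inj {F V : Type} [Fintype F] [NormedAddCommGroup V] [InnerProductSpace ℝ V]
    (P : F → F → ℝ) (hP : ∀ i j, 0 ≤ P i j) (hs : ∀ i, ∑ j, P i j ≤ 1)
    (R : V ≃ₗᵢ[ℝ] V) (hne : ∀ k : ℕ, 0 < k → ∀ v, (R ^ k) v = v → v = 0)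
    (χ : F → V) (h : ∀ i, R (χ i) = ∑ j, P i j • χ j) : χ = 0 := by
  classical
  by_contra hχ
  obtain ⟨i0, hi0⟩ := Function.ne_iff.1 hχ
  obtain ⟨i1, -, hmax⟩ := Finset.exists_max_image Finset.univ (fun i => ‖χ i‖) ⟨i0, by simp⟩
  set r := ‖χ i1‖ with hr
  have hr0 : 0 < r := (norm_pos_iff.2 hi0).trans_le (hmax i0 (Finset.mem_univ _))
  have step : ∀ i, ‖χ i‖ = r → ∃ j, χ j = R (χ i) := by
    intro i hi
    by_contra hc
    push Not at hc
    set v := R (χ i) with hv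
    have hvn : ‖v‖ = r := by rw [hv, R.norm_map, hi]
    have hlt : ∀ j, inner ℝ v (χ j) < r ^ 2 := fun j => by
      have h1 : 0 < ‖v - χ j‖ ^ 2 := pow_pos (norm_pos_iff.2 (sub_ne_zero.2 (hc j).symm)) 2
      have h2 := hmax j (Finset.mem_univ _)
      have h3 : ‖χ j‖ ^ 2 ≤ r ^ 2 := pow_le_pow_left₀ (norm_nonneg _) h2 2
      rw [norm_sub_sq_real, hvn] at h1
      linarith
    have h1 : ∑ j, P i j * inner ℝ v (χ j) = r ^ 2 := by
      have e0 : v = ∑ j, P i j • χ j := h i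
      rw [← hvn, ← real_inner_self_eq_norm_sq,
        show inner ℝ v v = inner ℝ v (∑ j, P i j • χ j) by rw [← e0], inner_sum]
      exact Finset.sum_congr rfl fun j _ => (real_inner_smul_right _ _ _).symm
    have h2 : ∀ j, P i j = 0 := by
      by_contra h0
      push Not at h0
      obtain ⟨j0, hj0⟩ := h0
      have h3 : ∑ j, P i j * inner ℝ v (χ j) < ∑ j, P i j * r ^ 2 :=
        Finset.sum_lt_sum (fun j _ => mul_le_mul_of_nonneg_left (hlt j).le (hP i j))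
          ⟨j0, Finset.mem_univ _, mul_lt_mul_of_pos_left (hlt j0) ((hP i j0).lt_of_ne' hj0)⟩
      rw [← Finset.sum_mul, h1] at h3
      nlinarith [hs i, pow_pos hr0 2]
    simp only [h2, zero_mul, Finset.sum_const_zero] at h1
    exact (pow_pos hr0 2).ne h1
  have iter : ∀ k : ℕ, ∃ j, χ j = (R ^ k) (χ i1) := by
    intro k
    induction k with
    | zero => exact ⟨i1, rfl⟩
    | succ k ih =>
      obtain ⟨j, hj⟩ := ih
      obtain ⟨j', hj'⟩ := step j (by rw [hj, LinearIsometryEquiv.norm_map])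
      exact ⟨j', by rw [hj', hj, pe_succ]⟩
  choose f hf using iter
  obtain ⟨a, b, hab, he⟩ := Finite.exists_ne_map_eq_of_infinite f
  wlog hlt : a < b generalizing a b
  · exact this b a hab.symm he.symm (by omega)
  obtain ⟨k, rfl⟩ := Nat.exists_eq_add_of_lt hlt
  have h1 : (R ^ a) (χ i1) = (R ^ a) ((R ^ (k + 1)) (χ i1)) := by
    rw [← hf, he, hf, add_assoc, pow_add]
    rfl
  exact norm_pos_iff.1 hr0 (hne (k + 1) (Nat.succ_pos k) _ ((R ^ a).injective h1).symm)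

theorem perron {F V : Type} [Fintype F] [NormedAddCommGroup V] [InnerProductSpace ℝ V]
    [FiniteDimensional ℝ V] (P : F → F → ℝ) (hP : ∀ i j, 0 ≤ P i j) (hs : ∀ i, ∑ j, P i j ≤ 1)
    (R : V ≃ₗᵢ[ℝ] V) (hne : ∀ k : ℕ, 0 < k → ∀ v, (R ^ k) v = v → v = 0)
    (μ : ℕ → F → ℝ) (hμ : ∀ l i, |μ l i| ≤ 1) (η : ℕ → ℝ) (D : ℝ)
    (hη : ∀ J, ∑ l ∈ Finset.range J, η l ≤ D)
    (hstep : ∀ l j, |μ (l + 1) j - ∑ i, μ l i * P i j| ≤ η l) (φ : F → V) (c : V)
    (hc : ∀ l, ‖∑ i, μ l i • φ i - (R ^ l) c‖ ≤ η l) : c = 0 := by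
  classical
  let T : (F → V) →ₗ[ℝ] (F → V) :=
    { toFun := fun χ i => R (χ i) - ∑ j, P i j • χ j
      map_add' := fun x y => by
        ext i
        simp only [Pi.add_apply, map_add, smul_add, Finset.sum_add_distrib]
        abel
      map_smul' := fun a x => by
        ext i
        simp only [Pi.smul_apply, RingHom.id_apply, smul_sub, Finset.smul_sum, map_smul]
        congr 1
        exact Finset.sum_congr rfl fun j _ => smul_comm _ _ _ }
  have hinj : Function.Injective T := (injective_iff_map_eq_zero T).2 fun χ h =>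
    pe_inj P hP hs R hne χ fun i => sub_eq_zero.1 (congrFun h i)
  obtain ⟨χ, hχ⟩ := LinearMap.injective_iff_surjective.1 hinj φ
  have hχ' : ∀ i, R (χ i) = φ i + ∑ j, P i j • χ j := fun i =>
    sub_eq_iff_eq_add.1 (congrFun hχ i)
  let a : ℕ → V := fun l => ∑ i, μ l i • χ i
  set C := ∑ i, ‖χ i‖ with hC
  have hC0 : 0 ≤ C := Finset.sum_nonneg fun i _ => norm_nonneg _
  have h1 : ∀ l, ‖a (l + 1) - R (a l) + (R ^ l) c‖ ≤ (C + 1) * η l := by
    intro l
    have e1 : R (a l) = ∑ i, μ l i • φ i + ∑ j, (∑ i, μ l i * P i j) • χ j := by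
      simp only [a, map_sum, map_smul, hχ', smul_add, Finset.sum_add_distrib, Finset.smul_sum,
        Finset.sum_smul, mul_smul]
      rw [Finset.sum_comm]
    have e2 : a (l + 1) - R (a l) + (R ^ l) c =
        ∑ j, (μ (l + 1) j - ∑ i, μ l i * P i j) • χ j - (∑ i, μ l i • φ i - (R ^ l) c) := by
      rw [e1]
      simp only [a, sub_smul, Finset.sum_sub_distrib]
      abel
    have e3 : ‖∑ j, (μ (l + 1) j - ∑ i, μ l i * P i j) • χ j‖ ≤ C * η l := by
      rw [hC, Finset.sum_mul]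
      refine (norm_sum_le _ _).trans (Finset.sum_le_sum fun j _ => ?_)
      rw [norm_smul, Real.norm_eq_abs, mul_comm]
      exact mul_le_mul_of_nonneg_left (hstep l j) (norm_nonneg _)
    rw [e2]
    refine (norm_sub_le _ _).trans ?_
    linarith [hc l]
  have h2 : ∀ l : ℕ, ‖R (a l) - (R ^ l) (R (a 0) - (l : ℝ) • c)‖ ≤
      (C + 1) * ∑ j ∈ Finset.range l, η j := by
    intro l
    induction l with
    | zero => simp
    | succ l ih =>
      have e : R (a (l + 1)) - (R ^ (l + 1)) (R (a 0) - ((l + 1 : ℕ) : ℝ) • c) =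
          R ((a (l + 1) - R (a l) + (R ^ l) c) + (R (a l) - (R ^ l) (R (a 0) - (l : ℝ) • c))) := by
        rw [pe_succ, ← map_sub]
        congr 1
        push_cast
        simp only [add_smul, one_smul, map_sub, map_add]
        abel
      rw [e, R.norm_map, Finset.sum_range_succ, mul_add]
      refine (norm_add_le _ _).trans ?_
      linarith [h1 l]
  have h3 : ∀ l, ‖a l‖ ≤ C := fun l =>
    (norm_sum_le _ _).trans (Finset.sum_le_sum fun i _ => by
      rw [norm_smul, Real.norm_eq_abs]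
      exact mul_le_of_le_one_left (norm_nonneg _) (hμ l i))
  by_contra hc0
  have hc1 := norm_pos_iff.2 hc0
  obtain ⟨l, hl'⟩ := exists_nat_gt ((2 * C + (C + 1) * D) / ‖c‖)
  rw [div_lt_iff₀ hc1] at hl'
  have h4 := (h2 l).trans (mul_le_mul_of_nonneg_left (hη l) (by linarith))
  have h5 := norm_sub_le (R (a l)) (R (a l) - (R ^ l) (R (a 0) - (l : ℝ) • c))
  rw [sub_sub_cancel, LinearIsometryEquiv.norm_map, R.norm_map] at h5
  have h6 := norm_sub_le (R (a 0)) (R (a 0) - (l : ℝ) • c)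
  rw [sub_sub_cancel, norm_smul, R.norm_map, Real.norm_natCast] at h6
  linarith [h3 0, h3 l]

end

end Pool.Agent.H89LM

namespace Pool.Agent.H89LM
open Pool.Agent.MP_5bc3cb_al (ev ev_nil ev_cons ev_append ball ball_finite quot quot_append UA chi
  chi_of_mem chi_of_not chi_nonneg chi_le_one rep Live)
open Filter

section
variable {V : Type} [NormedAddCommGroup V] [InnerProductSpace ℝ V]

/-- the isometries fixing a vector -/
def re_stab (v : V) : Subgroup (V ≃ₗᵢ[ℝ] V) where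
  carrier := {S | S v = v}
  one_mem' := rfl
  mul_mem' {S T} hS hT := by
    have h1 : S v = v := hS
    have h2 : T v = v := hT
    change S (T v) = v
    rw [h2, h1]
  inv_mem' {S} hS := S.symm_apply_eq.2 (Eq.symm hS)

theorem re_comm (R : V ≃ₗᵢ[ℝ] V) (k : ℕ) (j : ℤ) (v : V) :
    (R ^ k) ((R ^ j) v) = (R ^ j) ((R ^ k) v) := by
  have h : R ^ k * R ^ j = R ^ j * R ^ k := (((Commute.refl R).pow_left k).zpow_right j).eq
  exact congrArg (fun S : V ≃ₗᵢ[ℝ] V => S v) h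

theorem re_period [FiniteDimensional ℝ V] (R : V ≃ₗᵢ[ℝ] V) :
    ∃ K : ℕ, 0 < K ∧ ∀ k : ℕ, 0 < k → ∀ v, (R ^ k) v = v → (R ^ K) v = v := by
  have hd : ∀ {a b : ℕ} {v : V}, a ∣ b → (R ^ a) v = v → (R ^ b) v = v := by
    rintro a _ v ⟨c, rfl⟩ h
    rw [pow_mul]
    exact (re_stab v).pow_mem h c
  let f : ℕ →o Submodule ℝ V := ⟨fun j =>
    LinearMap.eqLocus ((R ^ j.factorial).toLinearEquiv : V →ₗ[ℝ] V) LinearMap.id,
    fun i j hij v hv => hd (Nat.factorial_dvd_factorial hij) hv⟩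
  obtain ⟨j, hj⟩ := monotone_stabilizes_iff_noetherian.2 inferInstance f
  refine ⟨j.factorial, j.factorial_pos, fun k hk v hv => ?_⟩
  have h1 : v ∈ f (max j k) := hd (Nat.dvd_factorial hk (le_max_right j k)) hv
  rw [← hj _ (le_max_left j k)] at h1
  exact h1

theorem re_restrict [FiniteDimensional ℝ V] (R : V ≃ₗᵢ[ℝ] V) (W : Submodule ℝ V)
    (hW : ∀ v ∈ W, R v ∈ W) :
    ∃ S : W ≃ₗᵢ[ℝ] W, ∀ (j : ℤ) (w : W), ((S ^ j) w : V) = (R ^ j) w := by
  let f : W →ₗᵢ[ℝ] W :=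
    ⟨(R.toLinearEquiv : V →ₗ[ℝ] V).restrict hW, fun w => R.norm_map w⟩
  let S := f.toLinearIsometryEquiv rfl
  have h1 : ∀ w, (S w : V) = R w := fun w => rfl
  have h2 : ∀ w, (S⁻¹ w : V) = R⁻¹ w := fun w => by
    refine (R.symm_apply_eq.2 ?_).symm
    rw [← h1]
    exact congrArg Subtype.val (S.apply_symm_apply w).symm
  refine ⟨S, fun j => ?_⟩
  induction j using Int.induction_on with
  | zero => intro w; simp
  | succ j ih =>
    intro w
    rw [zpow_add_one, zpow_add_one, LinearIsometryEquiv.coe_mul, LinearIsometryEquiv.coe_mul,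
      Function.comp_apply, Function.comp_apply, ih, h1]
  | pred j ih =>
    intro w
    rw [zpow_sub_one, zpow_sub_one, LinearIsometryEquiv.coe_mul, LinearIsometryEquiv.coe_mul,
      Function.comp_apply, Function.comp_apply, ih, h2]

variable {G : Type} [Group G]

theorem re_pow_mem (S : Subgroup G) {d : ℕ} (r : Fin d → G) (h : G)
    (hc : ∀ i : ℕ, ∃ k, (r k)⁻¹ * h ^ i ∈ S) : ∃ m : ℕ, 0 < m ∧ h ^ m ∈ S := by
  choose k hk using hc
  obtain ⟨i, j, hij, e⟩ := Set.finite_univ.exists_lt_map_eq_of_forall_mem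
    (f := k) fun _ => Set.mem_univ _
  obtain ⟨m, rfl⟩ := Nat.exists_eq_add_of_lt hij
  refine ⟨m + 1, m.succ_pos, ?_⟩
  have := S.mul_mem (S.inv_mem (hk i)) (hk (i + m + 1))
  rw [← e, add_assoc, pow_add] at this
  simpa [mul_assoc] using this

theorem re_n_pow (Γ : Geo G) (g : G) (k : ℕ) : Γ.n (g ^ k) = k * Γ.n g := by
  induction k with
  | zero => simp [Γ.n_one]
  | succ k ih => rw [pow_succ, Γ.n_mul, ih]; push_cast; ring

theorem re_deep (Γ : Geo G) {h : G} (hh : h ∈ Γ.H) (j : ℕ) :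
    ∃ m : ℕ, 0 < m ∧ ∀ i ≤ j, Γ.t ^ i * h ^ m * (Γ.t ^ i)⁻¹ ∈ Γ.B := by
  have hB : ∀ x ∈ Γ.H, ∃ m : ℕ, 0 < m ∧ x ^ m ∈ Γ.B := fun x hx =>
    re_pow_mem Γ.B Γ.rB x fun i => Γ.rB_cover _ (Γ.H.pow_mem hx i)
  induction j with
  | zero =>
    obtain ⟨m, hm, h1⟩ := hB h hh
    refine ⟨m, hm, fun i hi => ?_⟩
    obtain rfl : i = 0 := by omega
    simpa using h1
  | succ j ih =>
    obtain ⟨m, hm, h1⟩ := ih
    obtain ⟨m', hm', h2⟩ := hB _ (Γ.A_le (Γ.B_t _ (h1 j le_rfl)))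
    refine ⟨m * m', Nat.mul_pos hm hm', fun i hi => ?_⟩
    rw [pow_mul, ← conj_pow]
    rcases Nat.lt_or_ge i (j + 1) with hl | hl
    · exact Γ.B.pow_mem (h1 i (by omega)) _
    · obtain rfl : i = j + 1 := by omega
      have e : Γ.t ^ (j + 1) * h ^ m * (Γ.t ^ (j + 1))⁻¹ =
          Γ.t * (Γ.t ^ j * h ^ m * (Γ.t ^ j)⁻¹) * Γ.t⁻¹ := by group
      rw [e]; exact h2

theorem re_all (Γ : Geo G) {y : G} (hy : ∀ i : ℤ, Γ.t ^ i * y * (Γ.t ^ i)⁻¹ ∈ Γ.H) (g : G) :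
    g * y * g⁻¹ ∈ Γ.H := by
  have key : ∀ i : ℤ, g * (Γ.t ^ i * y * (Γ.t ^ i)⁻¹) * g⁻¹ ∈ Γ.H := by
    induction g using Γ.rind with
    | one => simpa using hy
    | mulH x h hh ih =>
      intro i
      have e := Γ.comm h hh _ (hy i)
      have := ih i
      generalize Γ.t ^ i * y * (Γ.t ^ i)⁻¹ = z at e this ⊢
      rw [mul_assoc x h z, e]
      simpa [mul_assoc] using this
    | mult x ih =>
      intro i
      have e : x * Γ.t * (Γ.t ^ i * y * (Γ.t ^ i)⁻¹) * (x * Γ.t)⁻¹ =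
          x * (Γ.t ^ (i + 1) * y * (Γ.t ^ (i + 1))⁻¹) * x⁻¹ := by group
      rw [e]; exact ih _
    | mulInv x ih =>
      intro i
      have e : x * Γ.t⁻¹ * (Γ.t ^ i * y * (Γ.t ^ i)⁻¹) * (x * Γ.t⁻¹)⁻¹ =
          x * (Γ.t ^ (i - 1) * y * (Γ.t ^ (i - 1))⁻¹) * x⁻¹ := by group
      rw [e]; exact ih _
  simpa using key 0

end

section

theorem reduce {G V : Type} [Group G] [NormedAddCommGroup V] [InnerProductSpace ℝ V]
    [FiniteDimensional ℝ V] (Γ : Geo G) (R : V ≃ₗᵢ[ℝ] V) (p : G → V)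
    (p_mul : ∀ x y, p (x * y) = p x + (R ^ Γ.n x) (p y)) (p_inj : ∀ h ∈ Γ.H, p h = 0 → h = 1)
    (p_sum : ∀ ε : ℝ, 0 < ε → Summable fun h : Γ.H => Real.exp (-ε * ‖p h‖))
    (hinf : ∀ k : ℕ, 0 < k → ∃ h ∈ Γ.H, (R ^ k) (p h) ≠ p h) :
    ∃ (C : Cen G) (W : Submodule ℝ V), Nonempty (Coc Γ C W) := by
  obtain ⟨K, hK, hper⟩ := re_period R
  have addH : ∀ x ∈ Γ.H, ∀ y, p (x * y) = p x + p y := fun x hx y => by
    rw [p_mul, Γ.n_H x hx]; simp
  have p1 : p 1 = 0 := by simpa using addH 1 Γ.H.one_mem 1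
  have invH : ∀ x ∈ Γ.H, p x⁻¹ = -p x := fun x hx => by
    have := addH x hx x⁻¹
    rw [mul_inv_cancel, p1] at this
    exact eq_neg_of_add_eq_zero_right this.symm
  have injH : ∀ x ∈ Γ.H, ∀ y ∈ Γ.H, p x = p y → x = y := fun x hx y hy e =>
    inv_mul_eq_one.1 (p_inj _ (Γ.H.mul_mem (Γ.H.inv_mem hx) hy) (by
      rw [addH _ (Γ.H.inv_mem hx), invH x hx, e, neg_add_cancel]))
  have powH : ∀ x ∈ Γ.H, ∀ k : ℕ, p (x ^ k) = k • p x := fun x hx k => by
    induction k with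
    | zero => simp [p1]
    | succ k ih => rw [pow_succ', addH x hx, ih, succ_nsmul']
  have conj : ∀ g, ∀ y ∈ Γ.H, p (g * y * g⁻¹) = (R ^ Γ.n g) (p y) := fun g y hy => by
    have := p_mul g g⁻¹
    rw [mul_inv_cancel, p1] at this
    rw [p_mul, p_mul, Γ.n_mul, Γ.n_H y hy, add_zero, add_right_comm, ← this, zero_add]
  have cK : ∀ g, ∀ y ∈ Γ.H, g ^ K * y * (g ^ K)⁻¹ ∈ Γ.H → (R ^ K) (p y) = p y →
      g ^ K * y = y * g ^ K := fun g y hy h1 h2 => by
    rw [← mul_inv_eq_iff_eq_mul]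
    refine injH _ h1 _ hy ?_
    rw [conj _ y hy, re_n_pow, zpow_mul, zpow_natCast]
    exact (re_stab (p y)).zpow_mem h2 _
  let N : Subgroup G :=
    { carrier := {y | (∀ g, g * y * g⁻¹ ∈ Γ.H) ∧ (R ^ K) (p y) = p y}
      one_mem' := ⟨fun g => by simp, by simp [p1]⟩
      mul_mem' := fun {x y} hx hy => ⟨fun g => by
        simpa [mul_assoc] using Γ.H.mul_mem (hx.1 g) (hy.1 g), by
        rw [addH x (by simpa using hx.1 1), map_add, hx.2, hy.2]⟩
      inv_mem' := fun {x} hx => ⟨fun g => by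
        simpa [mul_assoc] using Γ.H.inv_mem (hx.1 g), by
        rw [invH x (by simpa using hx.1 1), map_neg, hx.2]⟩ }
  have N_le : N ≤ Γ.H := fun x hx => by simpa using hx.1 1
  have hN : N.Normal := ⟨fun y hy c => ⟨fun g => by simpa [mul_assoc] using hy.1 (g * c), by
    rw [conj c y (N_le hy), re_comm, hy.2]⟩⟩
  let L : V →ₗ[ℝ] V := ((R ^ K).toLinearEquiv : V →ₗ[ℝ] V) - LinearMap.id
  have hL : ∀ v, L v = (R ^ K) v - v := fun v => rfl
  obtain ⟨S, hS⟩ := re_restrict R (LinearMap.range L) (by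
    rintro _ ⟨u, rfl⟩
    refine ⟨R u, ?_⟩
    have := re_comm R K 1 u
    rw [zpow_one] at this
    rw [hL, hL, map_sub, this])
  have h0 : ∀ v, (⟨L v, v, rfl⟩ : LinearMap.range L) = 0 ↔ (R ^ K) v = v := fun v => by
    rw [Subtype.ext_iff, ← sub_eq_zero (a := (R ^ K) v)]; rfl
  refine ⟨⟨N, hN, K, hK, fun g x hx => cK g x (N_le hx) (hx.1 _) hx.2⟩, LinearMap.range L,
    ⟨⟨S, fun g => ⟨L (p g), p g, rfl⟩, N_le, fun x y => ?_, fun k hk w hw => ?_,
      fun x hx => (h0 _).2 hx.2, fun h hh e => ?_, ?_, ?_⟩⟩⟩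
  · refine Subtype.ext ?_
    rw [Submodule.coe_add, hS]
    simp only [hL, p_mul, map_add, map_sub, re_comm]
    abel
  · have h1 : (R ^ k) (w : V) = w := by
      have := hS k w
      rw [zpow_natCast, zpow_natCast, hw] at this
      exact this.symm
    have h2 := hper k hk _ h1
    obtain ⟨w, u, rfl⟩ := w
    refine Subtype.ext (inner_self_eq_zero (𝕜 := ℝ).1 ?_)
    have h3 := (R ^ K).inner_map_map (L u) u
    change (R ^ K) (L u) = L u at h2
    change inner ℝ (L u) ((R ^ K) u - u) = 0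
    rw [h2] at h3
    rw [inner_sub_right, h3, sub_self]
  · obtain ⟨m, hm, h1⟩ := re_deep Γ hh K
    have hy := Γ.H.pow_mem hh m
    have h2 : (R ^ K) (p (h ^ m)) = p (h ^ m) := by rw [powH h hh, map_nsmul, (h0 _).1 e]
    have h3 : Commute (Γ.t ^ K) (h ^ m) := cK Γ.t _ hy (Γ.B_le (h1 K le_rfl)) h2
    refine ⟨m, hm, re_all Γ fun i => ?_, h2⟩
    have hK' : (0 : ℤ) < K := by exact_mod_cast hK
    obtain ⟨r, hr⟩ := Int.eq_ofNat_of_zero_le (Int.emod_nonneg i hK'.ne')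
    have hr' : r ≤ K := by have := Int.emod_lt_of_pos i hK'; omega
    have e1 : Γ.t ^ i = Γ.t ^ r * (Γ.t ^ K) ^ (i / K) := by
      rw [← zpow_natCast, ← zpow_natCast, ← zpow_mul, ← zpow_add, ← hr, Int.emod_add_mul_ediv]
    rw [e1, mul_assoc (Γ.t ^ r), (h3.zpow_left _).eq]
    simpa [mul_assoc] using Γ.B_le (h1 r hr')
  · obtain ⟨h, hh, hne⟩ := hinf K hK
    exact ⟨h, hh, fun e => hne ((h0 _).1 e)⟩
  · by_contra hc
    push Not at hc
    obtain ⟨h, hh, hne⟩ := hinf K hK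
    have h1 : ∀ j : ℕ, (Γ.t ^ j)⁻¹ * h * (Γ.t ^ j)⁻¹⁻¹ ∈ Γ.H := fun j => by
      induction j with
      | zero => simpa using hh
      | succ j ih => simpa [pow_succ, mul_assoc] using Γ.B_le (Γ.A_t _ (hc _ ih))
    have h2 : ∀ j : ℕ, p ((Γ.t ^ j)⁻¹ * h * (Γ.t ^ j)⁻¹⁻¹) = (R ^ (-j : ℤ)) (p h) := fun j => by
      rw [conj _ h hh, Γ.n_inv, re_n_pow, Γ.n_t, mul_one]
    have h3 := (p_sum 1 one_pos).tendsto_cofinite_zero.eventually
      (gt_mem_nhds (Real.exp_pos (-1 * ‖p h‖)))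
    obtain ⟨a, b, hab, e⟩ := (Filter.eventually_cofinite.1 h3).exists_lt_map_eq_of_forall_mem
      (f := fun j : ℕ => (⟨_, h1 j⟩ : Γ.H)) fun j => by
        simp only [Set.mem_ofPred_eq, h2, LinearIsometryEquiv.norm_map, lt_irrefl,
          not_false_eq_true]
    have e2 : (R ^ (-a : ℤ)) (p h) = (R ^ (-b : ℤ)) (p h) := by
      rw [← h2, ← h2]; exact congrArg (fun x : Γ.H => p x) e
    obtain ⟨c, rfl⟩ := Nat.exists_eq_add_of_lt hab
    refine hne (hper (c + 1) c.succ_pos _ ?_)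
    have e3 : R ^ (-a : ℤ) = R ^ (-(a + c + 1 : ℕ) : ℤ) * R ^ (c + 1) := by
      rw [← zpow_natCast R (c + 1), ← zpow_add]; congr 1; push_cast; ring
    rw [e3] at e2
    exact (R ^ (-(a + c + 1 : ℕ) : ℤ)).injective e2

end

end Pool.Agent.H89LM

namespace Pool.Agent.H89LM
open Pool.Agent.MP_5bc3cb_al (ev ev_nil ev_cons ev_append ball ball_finite quot quot_append UA chi
  chi_of_mem chi_of_not chi_nonneg chi_le_one rep Live)
open Filter

section
open HNNExtension HNNExtension.NormalWord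
variable {Λ : Type} [Group Λ] {A B : Subgroup Λ} {φ : A ≃* B}

variable (φ) in
/-- exponent sum of the stable letter, multiplicatively -/
noncomputable def ge_nHom : HNNExtension Λ A B φ →* Multiplicative ℤ :=
  HNNExtension.lift 1 (Multiplicative.ofAdd 1) (by intro a; simp)

variable (A B) in
/-- a fixed pair of transversals -/
noncomputable def ge_dd : TransversalPair Λ A B := Classical.choice inferInstance

/-- the normal form of the inverse -/
noncomputable def ge_nf (x : HNNExtension Λ A B φ) : NormalWord (ge_dd A B) :=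
  x⁻¹ • (empty : NormalWord (ge_dd A B))

/-- the list of syllables, a name for a vertex of the Bass-Serre tree -/
noncomputable def ge_lst (x : HNNExtension Λ A B φ) : List (ℤˣ × Λ) := (ge_nf x).toList

theorem ge_nf_mul (x y : HNNExtension Λ A B φ) : ge_nf (x * y) = y⁻¹ • ge_nf x := by
  unfold ge_nf; rw [mul_inv_rev, mul_smul]

theorem ge_lst_one : ge_lst (1 : HNNExtension Λ A B φ) = [] := by
  have : ge_nf (1 : HNNExtension Λ A B φ) = empty := by simp [ge_nf]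
  rw [ge_lst, this]; rfl

theorem ge_lst_mul_of (x : HNNExtension Λ A B φ) (m : Λ) : ge_lst (x * of m) = ge_lst x := by
  unfold ge_lst
  rw [ge_nf_mul, ← map_inv, of_smul_eq_smul]; rfl

theorem ge_eq (x : HNNExtension Λ A B φ) :
    x = (((ge_lst x).map fun y => (t : HNNExtension Λ A B φ) ^ (y.1 : ℤ) * of y.2).prod)⁻¹ *
      (of (ge_nf x).head)⁻¹ := by
  have h : (ge_nf x).prod φ = x⁻¹ := by simp [ge_nf]
  have h2 : x = ((ge_nf x).prod φ)⁻¹ := by rw [h, inv_inv]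
  conv_lhs => rw [h2]
  simp only [ReducedWord.prod, mul_inv_rev]
  rfl

theorem ge_of_lst_eq {x y : HNNExtension Λ A B φ} (h : ge_lst x = ge_lst y) :
    ∃ m, y = x * of m := by
  refine ⟨(ge_nf x).head * (ge_nf y).head⁻¹, ?_⟩
  have ha := ge_eq x
  have hb := ge_eq y
  rw [← h, ← mul_inv_eq_iff_eq_mul.2 ha] at hb
  rw [map_mul, map_inv, ← mul_assoc]
  simpa using hb

theorem ge_lst_mul_t (x : HNNExtension Λ A B φ) :
    (∃ g, ge_lst x = (1, g) :: ge_lst (x * t)) ∨ (∃ g, ge_lst (x * t) = (-1, g) :: ge_lst x) := by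
  have h : ge_nf (x * t) = unitsSMul φ (-1) (ge_nf x) := by
    rw [ge_nf_mul, ← t_pow_smul_eq_unitsSMul]
    simp
  unfold ge_lst
  rw [h]
  generalize ge_nf x = w
  by_cases hc : Cancels (-1) w
  · left
    unfold unitsSMul
    rw [dif_pos hc]
    induction w using consRecOn with
    | ofGroup g => simp [Cancels] at hc
    | cons g u' w h1 h2 _ =>
      have h3 := hc.2
      simp only [cons_toList, List.head?_cons, Option.map_some, neg_neg, Option.some.injEq] at h3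
      subst h3
      exact ⟨w.head, by simp [unitsSMulWithCancel]⟩
  · right
    unfold unitsSMul
    rw [dif_neg hc]
    exact ⟨_, rfl⟩

variable (φ) in
theorem ge_lst_t : ∃ g, ge_lst (t : HNNExtension Λ A B φ) = [(-1, g)] := by
  rcases ge_lst_mul_t (1 : HNNExtension Λ A B φ) with ⟨g, h⟩ | ⟨g, h⟩
  · rw [ge_lst_one] at h; simp at h
  · rw [ge_lst_one, one_mul] at h; exact ⟨g, h⟩

theorem ge_britton {a b : Λ} (h : (of a * t : HNNExtension Λ A B φ) = t * of b) : a ∈ B := by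
  let w1 : ReducedWord Λ A B := ⟨a, [(1, 1)], List.isChain_singleton _⟩
  let w2 : ReducedWord Λ A B := ⟨1, [(1, b)], List.isChain_singleton _⟩
  have h1 : w1.prod φ = w2.prod φ := by
    simp only [w1, w2, ReducedWord.prod, List.map_cons, List.map_nil, List.prod_cons,
      List.prod_nil, Units.val_one, zpow_one, map_one, mul_one, one_mul]
    exact h
  have h2 := (ReducedWord.map_fst_eq_and_of_prod_eq φ h1).2 1 (by simp [w1])
  simpa only [w1, w2, mul_one, toSubgroup_neg_one, inv_mem_iff] using h2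

theorem ge_ind (Q : HNNExtension Λ A B φ → Prop) (h1 : Q 1) (ho : ∀ x m, Q x → Q (x * of m))
    (ht : ∀ x, Q x → Q (x * t)) (hti : ∀ x, Q x → Q (x * t⁻¹)) (g : HNNExtension Λ A B φ) :
    Q g := by
  have key : ∀ g : HNNExtension Λ A B φ, (∀ x, Q x → Q (x * g)) ∧ (∀ x, Q x → Q (x * g⁻¹)) := by
    intro g
    induction g using HNNExtension.induction_on with
    | of m => exact ⟨fun x => ho x m, fun x hx => by rw [← map_inv]; exact ho x _ hx⟩
    | t => exact ⟨ht, hti⟩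
    | mul a b ha hb =>
      refine ⟨fun x hx => ?_, fun x hx => ?_⟩
      · rw [← mul_assoc]; exact hb.1 _ (ha.1 _ hx)
      · rw [mul_inv_rev, ← mul_assoc]; exact ha.2 _ (hb.2 _ hx)
    | inv a ha => exact ⟨ha.2, by simpa using ha.1⟩
  simpa using (key g).1 1 h1

theorem ge_reps (S : Subgroup Λ) {d : ℕ} (h0 : d ≠ 0) (hd : S.index = d) : ∃ r : Fin d → Λ,
    (∀ m, ∃ i, (r i)⁻¹ * m ∈ S) ∧ ∀ i j, (r i)⁻¹ * r j ∈ S → i = j := by
  have : Finite (Λ ⧸ S) := Nat.finite_of_card_ne_zero (by rw [← hd] at h0; exact h0)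
  let e : (Λ ⧸ S) ≃ Fin d := Finite.equivFinOfCardEq hd
  refine ⟨fun i => (e.symm i).out, fun m => ⟨e m, ?_⟩, fun i j hij => ?_⟩
  · rw [← QuotientGroup.eq, QuotientGroup.out_eq', e.symm_apply_apply]
  · rw [← QuotientGroup.eq, QuotientGroup.out_eq', QuotientGroup.out_eq'] at hij
    exact e.symm.injective hij

end

section
open HNNExtension

theorem exists_geo {Λ : Type} [CommGroup Λ] (A B : Subgroup Λ) (φ : A ≃* B) [A.FiniteIndex]
    (h : B.index = A.index) : ∃ Γ : Geo (HNNExtension Λ A B φ),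
      Γ.H = (HNNExtension.of : Λ →* HNNExtension Λ A B φ).range ∧ Γ.t = HNNExtension.t := by
  have hd : A.index ≠ 0 := Subgroup.FiniteIndex.index_ne_zero
  obtain ⟨rA, hA, -⟩ := ge_reps B hd h
  obtain ⟨rB, hB, hB'⟩ := ge_reps A hd rfl
  obtain ⟨g0, h0⟩ := ge_lst_t φ
  have hbt : ∀ b ∈ B, ∃ a ∈ A, (of b * t : HNNExtension Λ A B φ) = t * of a := fun b hb =>
    ⟨φ.symm ⟨b, hb⟩, (φ.symm ⟨b, hb⟩).2, by rw [t_mul_of]; simp⟩
  refine ⟨{
    H := of.range
    A := B.map of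
    B := A.map of
    t := t
    n := fun g => (ge_nHom φ g).toAdd
    Hs := {x | (ge_lst x).getLast? = some (-1, g0)}
    d := A.index
    rA := fun i => of (rA i)
    rB := fun i => of (rB i)
    A_le := Subgroup.map_le_range _ _
    B_le := Subgroup.map_le_range _ _
    comm := ?_
    A_t := ?_
    B_t := ?_
    rA_mem := fun i => ⟨_, rfl⟩
    rA_cover := ?_
    rB_mem := fun i => ⟨_, rfl⟩
    rB_cover := ?_
    rB_inj := fun i j hij => ?_
    n_mul := fun x y => by simp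
    n_H := ?_
    n_t := by simp [ge_nHom]
    Hs_H := ?_
    Hs_t := fun x hx => ?_
    one_not := by simp [ge_lst_one]
    At_mem := ?_
    cross := fun x hx hxt => ?_
    ind := fun Q h1 hH ht hti g => ge_ind Q h1 (fun x m hx => hH x _ ⟨m, rfl⟩ hx) ht hti g },
    rfl, rfl⟩
  · rintro _ ⟨a, rfl⟩ _ ⟨b, rfl⟩
    rw [← map_mul, ← map_mul, mul_comm]
  · rintro _ ⟨b, hb, rfl⟩
    obtain ⟨a, ha, e⟩ := hbt b hb
    exact ⟨a, ha, by rw [mul_assoc, e]; group⟩
  · rintro _ ⟨a, ha, rfl⟩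
    exact ⟨φ ⟨a, ha⟩, (φ ⟨a, ha⟩).2, equiv_eq_conj ⟨a, ha⟩⟩
  · rintro _ ⟨m, rfl⟩
    obtain ⟨i, hi⟩ := hA m
    exact ⟨i, _, hi, by simp⟩
  · rintro _ ⟨m, rfl⟩
    obtain ⟨i, hi⟩ := hB m
    exact ⟨i, _, hi, by simp⟩
  · obtain ⟨a, ha, e⟩ := hij
    rw [← map_inv, ← map_mul] at e
    exact hB' i j (of_injective φ e ▸ ha)
  · rintro _ ⟨m, rfl⟩
    simp [ge_nHom]
  · rintro x hx _ ⟨m, rfl⟩
    simpa [ge_lst_mul_of] using hx
  · simp only [Set.mem_ofPred_eq] at hx ⊢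
    rcases ge_lst_mul_t x with ⟨g, h⟩ | ⟨g, h⟩
    · rw [h] at hx
      cases hl : ge_lst (x * t) with
      | nil => rw [hl] at hx; simp at hx
      | cons e l => rw [hl] at hx; simpa [List.getLast?_cons_cons] using hx
    · rw [h]
      cases hl : ge_lst x with
      | nil => rw [hl] at hx; simp at hx
      | cons e l => rw [hl] at hx; simpa [List.getLast?_cons_cons] using hx
  · rintro _ ⟨b, hb, rfl⟩
    obtain ⟨a, -, e⟩ := hbt b hb
    simp only [Set.mem_ofPred_eq]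
    rw [e, ge_lst_mul_of, h0, List.getLast?_singleton]
  · simp only [Set.mem_ofPred_eq] at hx hxt
    rcases ge_lst_mul_t x with ⟨g, h⟩ | ⟨g, h⟩
    · exfalso
      apply hx
      rw [h]
      cases hl : ge_lst (x * t) with
      | nil => rw [hl] at hxt; simp at hxt
      | cons e l => rw [hl] at hxt; simpa [List.getLast?_cons_cons] using hxt
    · cases hl : ge_lst x with
      | nil =>
        obtain ⟨a, ha⟩ := ge_of_lst_eq (ge_lst_one.trans hl.symm)
        rw [one_mul] at ha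
        subst ha
        rw [h, hl] at hxt
        simp only [List.getLast?_singleton, Option.some.injEq] at hxt
        obtain ⟨b, hb⟩ := ge_of_lst_eq (x := t) (y := of a * t) (by rw [h, hl, h0, hxt])
        exact ⟨a, ge_britton hb, rfl⟩
      | cons e l =>
        exfalso
        apply hx
        rw [h, hl] at hxt
        rw [hl]
        simpa [List.getLast?_cons_cons] using hxt

end

end Pool.Agent.H89LM

namespace Pool.Agent.H89LM
open Pool.Agent.MP_5bc3cb_al (ev ev_nil ev_cons ev_append ball ball_finite quot quot_append UA chi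
  chi_of_mem chi_of_not chi_nonneg chi_le_one rep Live)
open Filter

section

theorem ix_add (n : ℕ) (A B : AddSubgroup (Fin n → ℤ)) [A.FiniteIndex]
    (φ : A ≃+ B) (M : Matrix (Fin n) (Fin n) ℝ)
    (hφ : ∀ a : A, (fun i => ((φ a).1 i : ℝ)) = M.mulVec fun i => (a.1 i : ℝ))
    (hM : |M.det| = 1) : B.index = A.index := by
  have h1 : Module.Free ℤ A := inferInstanceAs (Module.Free ℤ (AddSubgroup.toIntSubmodule A))
  have h2 : Module.Finite ℤ A := inferInstanceAs (Module.Finite ℤ (AddSubgroup.toIntSubmodule A))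
  let b : Module.Basis (Fin n) ℤ A := Module.finBasisOfFinrankEq ℤ A
    (A.finrank_eq_of_finiteIndex.trans (Module.finrank_fin_fun ℤ))
  rw [A.index_eq_natAbs_det (Pi.basisFun ℤ _) b,
    B.index_eq_natAbs_det (Pi.basisFun ℤ _) (b.map φ.toIntLinearEquiv), Pi.basisFun_det_apply,
    Pi.basisFun_det_apply, Int.natAbs_eq_iff_sq_eq, sq_eq_sq_iff_abs_eq_abs,
    ← Int.cast_inj (α := ℝ), Int.cast_abs, Int.cast_abs, Int.cast_det, Int.cast_det]
  have e : (Matrix.of fun i => (b.map φ.toIntLinearEquiv i).1).map (fun x : ℤ => (x : ℝ)) =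
      (Matrix.of fun i => (b i).1).map (fun x : ℤ => (x : ℝ)) * M.transpose := by
    ext i j
    refine (congrFun (hφ (b i)) j).trans ?_
    simp only [Matrix.mulVec, dotProduct, Matrix.mul_apply, Matrix.map_apply, Matrix.of_apply,
      Matrix.transpose_apply, mul_comm]
  rw [e, Matrix.det_mul, Matrix.det_transpose, abs_mul, hM, mul_one]

theorem index_eq (n : ℕ) (A B : Subgroup (Multiplicative (Fin n → ℤ))) [A.FiniteIndex]
    (φ : A ≃* B) (M : Matrix (Fin n) (Fin n) ℝ)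
    (hφ : ∀ a : A, (fun i => ((φ a).1.toAdd i : ℝ)) = M.mulVec fun i => (a.1.toAdd i : ℝ))
    (hM : |M.det| = 1) : B.index = A.index :=
  haveI : (Subgroup.toAddSubgroup' A).FiniteIndex := ⟨Subgroup.FiniteIndex.index_ne_zero (H := A)⟩
  ix_add n (Subgroup.toAddSubgroup' A) (Subgroup.toAddSubgroup' B)
    ⟨φ.toEquiv, fun x y => φ.map_mul x y⟩ M hφ hM

end

end Pool.Agent.H89LM

namespace Pool.Agent.H89LM
open Pool.Agent.MP_5bc3cb_al (ev ev_nil ev_cons ev_append ball ball_finite quot quot_append UA chi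
  chi_of_mem chi_of_not chi_nonneg chi_le_one rep Live)
open Filter

section

theorem co_int (ε : ℝ) (hε : 0 < ε) : Summable (fun n : ℤ => Real.exp (-ε * |(n : ℝ)|)) := by
  have h : Summable (fun n : ℕ => Real.exp (-ε * n)) := by
    have h1 : Real.exp (-ε) < 1 := Real.exp_lt_one_iff.2 (by linarith)
    refine (summable_geometric_of_lt_one (Real.exp_pos _).le h1).congr fun n => ?_
    rw [← Real.exp_nat_mul]; ring_nf
  refine Summable.of_nat_of_neg ?_ ?_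
  · simpa using h
  · simpa using h

theorem co_pi {n : ℕ} {f : ℤ → ℝ} (h0 : ∀ k, 0 ≤ f k) (hf : Summable f) :
    Summable fun h : Fin n → ℤ => ∏ i, f (h i) := by
  refine summable_of_sum_le (c := ∏ _i : Fin n, ∑' k, f k)
    (fun h => Finset.prod_nonneg fun i _ => h0 _) fun s => ?_
  calc ∑ h ∈ s, ∏ i, f (h i)
      ≤ ∑ h ∈ Fintype.piFinset fun i => s.image fun h => h i, ∏ i, f (h i) :=
        Finset.sum_le_sum_of_subset_of_nonneg
          (fun h hh => Fintype.mem_piFinset.2 fun i => Finset.mem_image_of_mem _ hh)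
          fun h _ _ => Finset.prod_nonneg fun i _ => h0 _
    _ = ∏ i, ∑ k ∈ s.image fun h => h i, f k := (Finset.prod_univ_sum _ fun _ k => f k).symm
    _ ≤ _ := Finset.prod_le_prod (fun i _ => Finset.sum_nonneg fun k _ => h0 k)
        fun i _ => hf.sum_le_tsum _ fun k _ => h0 k

theorem co_rot {n : ℕ} {O : Matrix (Fin n) (Fin n) ℝ}
    (hO : O ∈ Matrix.orthogonalGroup (Fin n) ℝ) :
    ∃ R : EuclideanSpace ℝ (Fin n) ≃ₗᵢ[ℝ] EuclideanSpace ℝ (Fin n),
      ∀ v, R (WithLp.toLp 2 v) = WithLp.toLp 2 (O.mulVec v) := by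
  have h1 : O.transpose * O = 1 := (Matrix.mem_orthogonalGroup_iff' _ _).1 hO
  let L : EuclideanSpace ℝ (Fin n) →ₗ[ℝ] EuclideanSpace ℝ (Fin n) :=
    (WithLp.linearEquiv 2 ℝ _).symm.toLinearMap ∘ₗ O.mulVecLin ∘ₗ
      (WithLp.linearEquiv 2 ℝ _).toLinearMap
  refine ⟨(L.isometryOfInner fun x y => ?_).toLinearIsometryEquiv rfl, fun v => rfl⟩
  rw [EuclideanSpace.inner_eq_star_dotProduct, EuclideanSpace.inner_eq_star_dotProduct,
    star_trivial, star_trivial]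
  change O.mulVec y.ofLp ⬝ᵥ O.mulVec x.ofLp = _
  rw [Matrix.dotProduct_mulVec, Matrix.vecMul_mulVec, h1, Matrix.vecMul_one]

theorem co_sum {n : ℕ} {P : Matrix (Fin n) (Fin n) ℝ} (hP : IsUnit P) (ε : ℝ) (hε : 0 < ε) :
    Summable fun h : Fin n → ℤ => Real.exp (-ε *
      ‖(WithLp.toLp 2 (P.mulVec fun i => (h i : ℝ)) : EuclideanSpace ℝ (Fin n))‖) := by
  let L : (Fin n → ℝ) →ₗ[ℝ] EuclideanSpace ℝ (Fin n) :=
    (WithLp.linearEquiv 2 ℝ _).symm.toLinearMap ∘ₗ P.mulVecLin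
  obtain ⟨K, hK, hL⟩ := L.exists_antilipschitzWith (LinearMap.ker_eq_bot.2
    ((WithLp.linearEquiv 2 ℝ _).symm.injective.comp (Matrix.mulVec_injective_of_isUnit hP)))
  have hK' : (0 : ℝ) < K := hK
  refine Summable.of_nonneg_of_le (fun _ => (Real.exp_pos _).le) (fun h => ?_)
    (co_pi (fun k => (Real.exp_pos _).le) (co_int (ε / (K * (n + 1))) (by positivity)))
  rw [← Real.exp_sum, ← Finset.mul_sum, Real.exp_le_exp, neg_mul, neg_mul, neg_le_neg_iff,
    div_mul_eq_mul_div, div_le_iff₀ (by positivity), mul_assoc]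
  refine mul_le_mul_of_nonneg_left ?_ hε.le
  have h1 := hL.le_mul_dist (fun i => (h i : ℝ)) 0
  rw [map_zero, dist_zero_right, dist_zero_right] at h1
  have h2 : ∑ i, |(h i : ℝ)| ≤ n * ‖fun i => (h i : ℝ)‖ := by
    simpa using Finset.sum_le_card_nsmul Finset.univ (fun i => |(h i : ℝ)|) _
      fun i _ => norm_le_pi_norm (fun i => (h i : ℝ)) i
  change _ ≤ ‖L fun i => (h i : ℝ)‖ * _
  nlinarith [norm_nonneg (L fun i => (h i : ℝ)), norm_nonneg fun i => (h i : ℝ),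
    mul_le_mul_of_nonneg_left h1 (Nat.cast_nonneg (α := ℝ) n)]

theorem exists_coc (n : ℕ) (A B : Subgroup (Multiplicative (Fin n → ℤ)))
    (φ : A ≃* B) (M P O : Matrix (Fin n) (Fin n) ℝ)
    (hφ : ∀ a : A, (fun i => ((φ a).1.toAdd i : ℝ)) = M.mulVec fun i => (a.1.toAdd i : ℝ))
    (hP : IsUnit P) (hO : O ∈ Matrix.orthogonalGroup (Fin n) ℝ) (hM : P * M = O * P)
    (hinf : ∀ k : ℕ, 0 < k → M ^ k ≠ 1) (Γ : Geo (HNNExtension _ A B φ))
    (hH : Γ.H = (HNNExtension.of : _ →* HNNExtension _ A B φ).range) (ht : Γ.t = HNNExtension.t) :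
    ∃ (R : EuclideanSpace ℝ (Fin n) ≃ₗᵢ[ℝ] EuclideanSpace ℝ (Fin n))
      (p : HNNExtension _ A B φ → EuclideanSpace ℝ (Fin n)),
      (∀ x y, p (x * y) = p x + (R ^ Γ.n x) (p y)) ∧ (∀ h ∈ Γ.H, p h = 0 → h = 1) ∧
      (∀ ε : ℝ, 0 < ε → Summable fun h : Γ.H => Real.exp (-ε * ‖p h‖)) ∧
      ∀ k : ℕ, 0 < k → ∃ h ∈ Γ.H, (R ^ k) (p h) ≠ p h := by
  obtain ⟨R, hR⟩ := co_rot hO
  let π : Multiplicative (Fin n → ℤ) → EuclideanSpace ℝ (Fin n) := fun h =>
    WithLp.toLp 2 (P.mulVec fun i => (h.toAdd i : ℝ))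
  have π1 : π 1 = 0 := by
    ext i
    simp [π, Matrix.mulVec, dotProduct]
  have πm : ∀ a b, π (a * b) = π a + π b := fun a b => by
    simp only [π, ← WithLp.toLp_add, ← Matrix.mulVec_add]
    congr 2
    funext i
    simp
  let τ : Multiplicative (Fin n → ℤ) →* Equiv.Perm (EuclideanSpace ℝ (Fin n)) :=
    { toFun := fun h => Equiv.addLeft (π h)
      map_one' := Equiv.ext fun v => by simp [π1]
      map_mul' := fun a b => Equiv.ext fun v => by simp [πm] }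
  have hx : ∀ a : A, R.toEquiv * τ a = τ (φ a) * R.toEquiv := fun a => Equiv.ext fun v => by
    change R (π a + v) = π (φ a) + R v
    rw [map_add, add_left_inj]
    simp only [π]
    rw [hR, hφ, Matrix.mulVec_mulVec, Matrix.mulVec_mulVec, hM]
  let ρ : HNNExtension _ A B φ →* Equiv.Perm (EuclideanSpace ℝ (Fin n)) :=
    HNNExtension.lift τ R.toEquiv hx
  have ρo : ∀ h v, ρ (HNNExtension.of h) v = π h + v := fun h v => by
    rw [HNNExtension.lift_of]
    rfl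
  have ρt : ∀ v, ρ Γ.t v = R v := fun v => by
    rw [ht, HNNExtension.lift_t]
    rfl
  have ρi : ∀ v, ρ Γ.t⁻¹ v = R⁻¹ v := fun v => by
    rw [map_inv, Equiv.Perm.inv_eq_iff_eq, ρt]
    exact (R.apply_symm_apply v).symm
  have key : ∀ g v, ρ g v = ρ g 0 + (R ^ Γ.n g) v := by
    refine Γ.ind _ (fun v => by simp [Γ.n_one]) (fun x h hh ih v => ?_) (fun x ih v => ?_)
      fun x ih v => ?_
    · rw [Γ.n_mul, Γ.n_H h hh, add_zero]
      rw [hH] at hh
      obtain ⟨a, rfl⟩ := hh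
      rw [map_mul, Equiv.Perm.mul_apply, Equiv.Perm.mul_apply, ρo, ρo, ih, ih (π a + 0), map_add,
        add_zero, add_assoc]
    · rw [map_mul, Equiv.Perm.mul_apply, Equiv.Perm.mul_apply, ρt, ρt, map_zero, ih, Γ.n_mul,
        Γ.n_t, zpow_add_one]
      rfl
    · rw [map_mul, Equiv.Perm.mul_apply, Equiv.Perm.mul_apply, ρi, ρi, map_zero, ih, Γ.n_mul,
        Γ.n_inv, Γ.n_t, ← sub_eq_add_neg, zpow_sub_one]
      rfl
  refine ⟨R, fun g => ρ g 0, fun x y => ?_, fun h hh h0 => ?_, fun ε hε => ?_, fun k hk => ?_⟩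
  · simp only [map_mul, Equiv.Perm.mul_apply]
    exact key x _
  · rw [hH] at hh
    obtain ⟨a, rfl⟩ := hh
    simp only [ρo, add_zero] at h0
    have h1 : (fun i => (a.toAdd i : ℝ)) = 0 := Matrix.mulVec_injective_of_isUnit hP
      ((congrArg WithLp.ofLp h0).trans (Matrix.mulVec_zero P).symm)
    have h2 : a = 1 := Multiplicative.toAdd.injective (funext fun i => by
      simpa using congrFun h1 i)
    rw [h2, map_one]
  · let f : (Fin n → ℤ) → Γ.H := fun h =>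
      ⟨HNNExtension.of (Multiplicative.ofAdd h), hH ▸ ⟨_, rfl⟩⟩
    have hf : Function.Bijective f := ⟨fun a b e => Multiplicative.ofAdd.injective
      (HNNExtension.of_injective φ (congrArg Subtype.val e)), fun ⟨h, hh⟩ => by
        obtain ⟨a, rfl⟩ : h ∈ (HNNExtension.of : _ →* HNNExtension _ A B φ).range := hH ▸ hh
        exact ⟨a.toAdd, rfl⟩⟩
    rw [← (Equiv.ofBijective f hf).summable_iff]
    refine (co_sum hP ε hε).congr fun h => ?_
    simp only [Function.comp, Equiv.ofBijective_apply, f, ρo, add_zero]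
    rfl
  · by_contra hc
    have h1 : ∀ (j : ℕ) v, (R ^ j) (WithLp.toLp 2 v) = WithLp.toLp 2 ((O ^ j).mulVec v) := by
      intro j
      induction j with
      | zero => simp
      | succ j ih =>
        intro v
        rw [pow_succ, pow_succ, ← Matrix.mulVec_mulVec, ← ih, ← hR]
        rfl
    have h2 : ∀ j : ℕ, P * M ^ j = O ^ j * P := fun j => by
      induction j with
      | zero => simp
      | succ j ih => rw [pow_succ, pow_succ, ← mul_assoc, ih, mul_assoc, hM, mul_assoc]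
    refine hinf k hk (hP.mul_left_cancel ?_)
    rw [h2, mul_one]
    ext i j
    have h3 : (R ^ k) (π (Multiplicative.ofAdd (Pi.single j 1))) =
        π (Multiplicative.ofAdd (Pi.single j 1)) := by
      by_contra h4
      exact hc ⟨HNNExtension.of (Multiplicative.ofAdd (Pi.single j 1)), hH ▸ ⟨_, rfl⟩, by
        simpa only [ρo, add_zero] using h4⟩
    have h5 : (fun i => ((Pi.single j (1 : ℤ) : Fin n → ℤ) i : ℝ)) = Pi.single j 1 := by
      funext i
      by_cases h : i = j <;> simp [h]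
    simp only [π, h1, toAdd_ofAdd, h5, Matrix.mulVec_mulVec] at h3
    simpa using congrFun (congrArg WithLp.ofLp h3) i

end

end Pool.Agent.H89LM

namespace Pool.Agent.H89LM
open Pool.Agent.MP_5bc3cb_al (ev ev_nil ev_cons ev_append ball ball_finite quot quot_append UA chi
  chi_of_mem chi_of_not chi_nonneg chi_le_one rep Live IsAutomatic exists_UA)
open Filter

section
variable {G : Type} [Group G] {Γ : Geo G} {U : UA G} {C : Cen G}

theorem cp_pair {a : G} {l1 l2 : ℕ} {g1 g2 : G} (hQ : PSt Γ U a l1 g1 = PSt Γ U a l2 g2) :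
    ev U.π (pre Γ U l1 g1) * ev U.π (sfx Γ U l2 g2) * a =
      ev U.π (pre Γ U l1 (g1 * a)) * ev U.π (sfx Γ U l2 (g2 * a)) := by
  have h : (ev U.π (pre Γ U l1 g1))⁻¹ * ev U.π (pre Γ U l1 (g1 * a)) =
      (ev U.π (pre Γ U l2 g2))⁻¹ * ev U.π (pre Γ U l2 (g2 * a)) := congrArg (fun x => x.2.2) hQ
  rw [eq_mul_of_inv_mul_eq h, mul_assoc, mul_assoc, mul_assoc, ev_pre_suf]
  congr 1
  rw [eq_inv_mul_iff_mul_eq, ← mul_assoc, ev_pre_suf]

theorem cp_PSt {a : G} (ha : a ∈ Γ.H) {l1 l2 j : ℕ} {g1 g2 : G}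
    (hQ : PSt Γ U a (l1 + 1) g1 = PSt Γ U a (l2 + 1) g2) (h1 : g1 ∈ Γ.Dom (j + (l1 + 1))) :
    PSt Γ U a (j + (l2 + 1)) (ev U.π (pre Γ U (l1 + 1) g1) * ev U.π (sfx Γ U (l2 + 1) g2)) =
      PSt Γ U a (j + (l1 + 1)) g1 := by
  have e1 : St Γ U (l1 + 1) g1 = St Γ U (l2 + 1) g2 := congrArg (fun x => x.1) hQ
  have e2 : St Γ U (l1 + 1) (g1 * a) = St Γ U (l2 + 1) (g2 * a) := congrArg (fun x => x.2.1) hQ
  have h2 : g1 * a ∈ Γ.Dom (j + (l1 + 1)) := Geo.Dom_mul_H (d := j + l1) h1 ha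
  simp only [PSt, cp_pair hQ]
  rw [cp_St e1 (Nat.succ_pos _) h1 (Nat.succ_pos _), cp_St e2 (Nat.succ_pos _) h2 (Nat.succ_pos _),
    cp_pre e1 h1, cp_pre e2 h2]

theorem alen_ae {V : Type} [NormedAddCommGroup V] [InnerProductSpace ℝ V] [FiniteDimensional ℝ V]
    (M : Mean Γ U) (X : Coc Γ C V) (l : ℕ) :
    ∃ b, ∀ᶠ g in M.ae, cnt U C g (Tm Γ U (l + 1) g) ≤ b := by
  refine alen_bdd M X.N_le l fun δ hδ => ?_
  obtain ⟨T, hT⟩ := tight M X (l + 1) hδ
  refine ⟨T, le_trans (M.mono_ae ?_) hT⟩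
  filter_upwards [M.ae_Dom (l + 1)] with g hg h
  exact ⟨hg, fun s hs => Tm_min (nth_lt_of_lt_cnt (lt_of_le_of_lt hs h))⟩

theorem not_mean {V : Type} [NormedAddCommGroup V] [InnerProductSpace ℝ V]
    [FiniteDimensional ℝ V] (M : Mean Γ U) (X : Coc Γ C V) : False := by
  classical
  obtain ⟨a, ha, hpa⟩ := X.nontriv
  have hb := alen_ae M X
  obtain ⟨FQ, Bad, D, S, hD, hS, hQ⟩ := pair_bdd M X.N_le hb ha
  obtain ⟨c, hc0, hc⟩ := drift M X hb ha hS
  let Q : ℕ → G → _ := fun l => PSt Γ U a (l + 1)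
  let Z : ℕ → G → _ := fun l => PSt Γ U a (1 + (l + 1))
  have hom := homog M Q Z (fun l1 l2 g1 g2 h => congrArg (fun x => x.1) h)
    fun l1 l2 g1 g2 h1 h => ⟨by
      simpa using cp_PSt (j := 0) ha h
        (by simpa using Geo.Dom_mono (Nat.le_add_left (l1 + 1) 1) h1), cp_PSt ha h h1⟩
  have hex : ∀ q, ∃ l0, ∀ l, M.m {g | Q l g = q} ≠ 0 → M.m {g | Q l0 g = q} ≠ 0 := by
    intro q
    by_cases h : ∃ l, M.m {g | Q l g = q} ≠ 0
    · obtain ⟨l, hl⟩ := h; exact ⟨l, fun _ _ => hl⟩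
    · exact ⟨0, fun l hl => absurd ⟨l, hl⟩ h⟩
  choose l0 hl0 using hex
  have hz := perron (F := FQ)
    (fun i j => M.m {g | Q (l0 i) g = i ∧ Z (l0 i) g ∈ ({j.1} : Set _)} /
      M.m {g | Q (l0 i) g = i})
    (fun i j => div_nonneg (M.nonneg _) (M.nonneg _)) (fun i => by
      rw [← Finset.sum_div]
      refine div_le_one_of_le₀ (M.disj_le _ _ _ (fun j _ g hg => hg.1) ?_) (M.nonneg _)
      exact fun j _ j' _ g h1 h2 => Subtype.ext ((Set.mem_singleton_iff.1 h1.2).symm.trans h2.2))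
    X.R X.R_ne (fun l i => M.m {g | Q l g = i})
    (fun l i => by rw [abs_of_nonneg (M.nonneg _)]; exact M.le_one _)
    (fun l => (c + 1) * M.m (Bad l)) ((c + 1) * D) (fun J => by
      rw [← Finset.mul_sum]; exact mul_le_mul_of_nonneg_left (hD J) (by linarith))
    (fun l j => by
      have e1 : ∀ i : FQ, M.m {g | Q l g = i} *
          (M.m {g | Q (l0 i) g = i ∧ Z (l0 i) g ∈ ({j.1} : Set _)} / M.m {g | Q (l0 i) g = i}) =
          M.m {g | Q l g = i ∧ Z l g ∈ ({j.1} : Set _)} := fun i => by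
        by_cases h0 : M.m {g | Q l g = i} = 0
        · rw [h0, zero_mul]
          exact (le_antisymm ((M.mono fun g hg => hg.1).trans h0.le) (M.nonneg _)).symm
        · rw [← mul_div_assoc, eq_comm, eq_div_iff (hl0 i l h0)]
          exact hom l (l0 i) i {j.1}
      simp only [e1]
      have e2 : ∀ g, Z l g = Q (l + 1) g := fun g => by simp only [Q, Z, add_comm 1]
      have h1 : ∑ i : FQ, M.m {g | Q l g = i ∧ Z l g ∈ ({j.1} : Set _)} ≤
          M.m {g | Q (l + 1) g = j} :=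
        M.disj_le _ _ _ (fun i _ g hg => (e2 g).symm.trans hg.2)
          fun i _ i' _ g h1 h2 => Subtype.ext (h1.1.symm.trans h2.1)
      have h2 := M.cover_le Finset.univ {g | Q (l + 1) g = j ∧ Q l g ∈ FQ}
        (fun i : FQ => {g | Q l g = i ∧ Z l g ∈ ({j.1} : Set _)})
        fun g hg => ⟨⟨_, hg.2⟩, Finset.mem_univ _, rfl, (e2 g).trans hg.1⟩
      have h3 := M.mono_ae (E := {g | Q (l + 1) g = j})
        (E' := {g | (Q (l + 1) g = j ∧ Q l g ∈ FQ) ∨ g ∈ Bad l}) ((hQ l).mono fun g hg h => by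
          by_cases hB : g ∈ Bad l
          · exact Or.inr hB
          · exact Or.inl ⟨h, hg.2 hB⟩)
      have h4 := M.union_le (E := {g | (Q (l + 1) g = j ∧ Q l g ∈ FQ) ∨ g ∈ Bad l})
        (E1 := {g | Q (l + 1) g = j ∧ Q l g ∈ FQ}) (E2 := Bad l) fun g hg => hg
      have h5 := mul_nonneg hc0 (M.nonneg (Bad l))
      rw [abs_of_nonneg (sub_nonneg.2 h1)]
      linarith)
    (fun q => (X.R ^ (-nu Γ q.1.1.2)) (X.p q.1.2.2)) (X.R (X.p a)) (fun l => by
      have h1 := hc l FQ (Bad l) (hQ l)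
      rw [← Finset.sum_coe_sort FQ] at h1
      refine h1.trans ?_
      have := M.nonneg (Bad l)
      linarith)
  exact hpa (by simpa using hz)

end

theorem not_automatic_of {G V : Type} [Group G] [NormedAddCommGroup V] [InnerProductSpace ℝ V]
    [FiniteDimensional ℝ V] (Γ : Geo G) (R : V ≃ₗᵢ[ℝ] V) (p : G → V)
    (p_mul : ∀ x y, p (x * y) = p x + (R ^ Γ.n x) (p y)) (p_inj : ∀ h ∈ Γ.H, p h = 0 → h = 1)
    (p_sum : ∀ ε : ℝ, 0 < ε → Summable fun h : Γ.H => Real.exp (-ε * ‖p h‖))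
    (hinf : ∀ k : ℕ, 0 < k → ∃ h ∈ Γ.H, (R ^ k) (p h) ≠ p h) : ¬ IsAutomatic G := fun hG => by
  obtain ⟨U⟩ := exists_UA hG
  obtain ⟨C, W, ⟨X⟩⟩ := reduce Γ R p p_mul p_inj p_sum hinf
  have h1 : p 1 = 0 := by
    have := p_mul 1 1
    rw [mul_one, Γ.n_one, zpow_zero] at this
    simpa using this
  obtain ⟨M⟩ := exists_mean Γ U (fun x => ‖p x‖) (fun _ => norm_nonneg _) (by simp [h1])
    (fun x y => by
      rw [p_mul]
      exact (norm_add_le _ _).trans (by rw [LinearIsometryEquiv.norm_map]))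
    (fun x => by
      have := p_mul x x⁻¹
      rw [mul_inv_cancel, h1] at this
      rw [eq_neg_of_add_eq_zero_left this.symm, norm_neg, LinearIsometryEquiv.norm_map]) p_sum
  exact not_mean M X

theorem main (n : ℕ) (A B : Subgroup (Multiplicative (Fin n → ℤ))) (hA : A.FiniteIndex)
    (φ : A ≃* B) (M : Matrix (Fin n) (Fin n) ℝ)
    (hφ : ∀ a : A, (fun i => ((φ a).1.toAdd i : ℝ)) = M.mulVec fun i => (a.1.toAdd i : ℝ))
    (hO : ∃ P O : Matrix (Fin n) (Fin n) ℝ,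
      IsUnit P ∧ O ∈ Matrix.orthogonalGroup (Fin n) ℝ ∧ P * M = O * P)
    (hinf : ∀ k : ℕ, 0 < k → M ^ k ≠ 1) : ¬ IsAutomatic (HNNExtension _ A B φ) := by
  obtain ⟨P, O, hP, hO, hM⟩ := hO
  have hdet : |M.det| = 1 := by
    have h1 := congrArg Matrix.det hM
    rw [Matrix.det_mul, Matrix.det_mul, mul_comm] at h1
    have h2 := mul_right_cancel₀ ((Matrix.isUnit_iff_isUnit_det P).1 hP).ne_zero h1
    have h3 := congrArg Matrix.det ((Matrix.mem_orthogonalGroup_iff _ _).1 hO)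
    rw [Matrix.det_mul, Matrix.det_transpose, Matrix.det_one] at h3
    rw [h2]
    rcases mul_self_eq_one_iff.1 h3 with h | h <;> simp [h]
  obtain ⟨Γ, hH, ht⟩ := exists_geo A B φ (index_eq n A B φ M hφ hdet)
  obtain ⟨R, p, h1, h2, h3, h4⟩ := exists_coc n A B φ M P O hφ hP hO hM hinf Γ hH ht
  exact not_automatic_of Γ R p h1 h2 h3 h4

end Pool.Agent.H89LM
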